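import Pool.Agent.H97.HY.Der

/-!
# Module Hof: rescaling by Hofer's lemma

PROOF HINTS.  `DD_pos` gives `x` with `DD g x > 0`.  Apply Mathlib's `hofer`
(`Mathlib/Analysis/Hofer.lean`) to `ϕ = DD g`, the point `x` and
`ε = R / DD g x` (with `R > 0`; if `R ≤ 0` use `R = 1`): `x'`, `ε'` with `ε * ϕ x ≤ ε' * ϕ x'`, so
`R ≤ ε' * ϕ x'`, in particular `ϕ x' > 0`, and `ϕ y ≤ 2 ϕ x'` for `dist x' y ≤ ε'`.  Put
`l = 1/ϕ x'` and use `DD_scale`: `DD (fun w => g (x' + l w)) z = l * ϕ (x' + l z)`, for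
`‖z‖ ≤ R`: `dist x' (x' + l z) = l ‖z‖ ≤ R/ϕ x' ≤ ε'`.
-/

open Metric Set Filter Topology

set_option autoImplicit false

namespace Pool.Agent.H97.HY

theorem rescale {N : ℕ} {g : ℂ → Fin (N + 1) → ℂ} (hg : Differentiable ℂ g)
    (hne : ∀ z, g z ≠ 0) (hnc : ¬ ∀ z, ∃ c : ℂ, g z = c • g 0) (R : ℝ) :
    ∃ x l : ℂ, DD (fun w => g (x + l * w)) 0 = 1 ∧
      ∀ z, ‖z‖ ≤ R → DD (fun w => g (x + l * w)) z ≤ 2 := by
  obtain ⟨x, hx⟩ := DD_pos hg hne hnc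
  have hR : 0 < max R 1 := lt_of_lt_of_le one_pos (le_max_right _ _)
  obtain ⟨e, he, x', -, -, h1, h2⟩ :=
    hofer x (max R 1 / DD g x) (div_pos hR hx) (DD_cont hg hne) (DD_nonneg g)
  have h3 : max R 1 ≤ e * DD g x' := by
    rwa [div_mul_cancel₀ _ hx.ne'] at h1
  have h4 : 0 < DD g x' := by
    by_contra h
    have : e * DD g x' ≤ 0 := mul_nonpos_of_nonneg_of_nonpos he.le (not_lt.1 h)
    linarith
  have hl : ‖(((DD g x')⁻¹ : ℝ) : ℂ)‖ = (DD g x')⁻¹ := by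
    rw [Complex.norm_real, Real.norm_of_nonneg (inv_nonneg.2 h4.le)]
  refine ⟨x', (((DD g x')⁻¹ : ℝ) : ℂ), ?_, fun z hz => ?_⟩
  · rw [DD_scale hg, hl, mul_zero, add_zero, inv_mul_cancel₀ h4.ne']
  · rw [DD_scale hg, hl]
    have h5 : DD g (x' + (((DD g x')⁻¹ : ℝ) : ℂ) * z) ≤ 2 * DD g x' := by
      apply h2
      rw [dist_eq_norm, show x' - (x' + (((DD g x')⁻¹ : ℝ) : ℂ) * z) =
        -((((DD g x')⁻¹ : ℝ) : ℂ) * z) by ring, norm_neg, norm_mul, hl]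
      rw [inv_mul_le_iff₀ h4, mul_comm]
      exact (hz.trans (le_max_left _ _)).trans h3
    calc (DD g x')⁻¹ * DD g (x' + (((DD g x')⁻¹ : ℝ) : ℂ) * z)
        ≤ (DD g x')⁻¹ * (2 * DD g x') := mul_le_mul_of_nonneg_left h5 (inv_nonneg.2 h4.le)
      _ = 2 := by field_simp

end Pool.Agent.H97.HY
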