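import Pool.Agent.H97.HY.BCa

/-!
# Module Lim: existence of limit curves

PROOF HINTS.  `pick`: an ultrafilter chooses one value of a finite type
(`Ultrafilter.eventually_exists_mem_iff`/`Filter.Eventually` + `Ultrafilter.eventually_or`, or
`Ultrafilter.finite_biUnion_mem_iff`).
For `z : ℂ` let `i(z)` be the index with `∀ᶠ k in U, ‖f k z j‖ ≤ ‖f k z i(z)‖ for all j` and put
`g z j := lim_U (f k z j / f k z (i z))` (numbers in the closed unit disc, compact: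
`IsCompact.ultrafilter_le_nhds`).  Note `f k z ≠ 0` for `U`-almost all `k` (chart at `z`), so
`g z (i z) = 1` and `‖g z j‖ ≤ 1`.
If `∀ᶠ k in U, Chart (f k) z0 i` and `z ∈ ball z0 rho`: `‖f k z i‖ ≥ ‖f k z (i z)‖ / 2`, so
`‖g z i‖ ≥ 1/2`, and `f k z j / f k z i → g z j / g z i` (quotients of limits); the functions are
bounded by `2`; hence `BC`.  `Chart g z0 i` follows (`BC.diff` for `hol`, limits of `≤` for `le`).
`BCurve g`: for every `z0` pick `i`; for `Mov g` pick `(i, j)` and use `BC.deriv_tendsto` at `0`.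
-/

open Metric Set Filter Topology

set_option autoImplicit false

namespace Pool.Agent.H97.HY

/-- an ultrafilter picks a value of a finite type -/
theorem pick {U : Ultrafilter ℕ} {α : Type*} [Finite α] {P : ℕ → α → Prop}
    (h : ∀ᶠ k in (U : Filter ℕ), ∃ x, P k x) : ∃ x, ∀ᶠ k in (U : Filter ℕ), P k x := by
  by_contra hcon
  have h1 : ∀ x, ∀ᶠ k in (U : Filter ℕ), ¬ P k x := fun x =>
    Ultrafilter.eventually_not.mpr (fun hx => hcon ⟨x, hx⟩)
  have h2 : ∀ᶠ k in (U : Filter ℕ), ∀ x, ¬ P k x := Filter.eventually_all.mpr h1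
  obtain ⟨k, ⟨x, hx⟩, hk⟩ := (h.and h2).exists
  exact hk x hx

/-- bounded sequences have a limit along the ultrafilter -/
private lemma lim_exists_of_bdd {U : Ultrafilter ℕ} {a : ℕ → ℂ} {C : ℝ}
    (h : ∀ᶠ k in (U : Filter ℕ), ‖a k‖ ≤ C) :
    ∃ x : ℂ, ‖x‖ ≤ C ∧ Tendsto a (U : Filter ℕ) (𝓝 x) := by
  have hle : ((U.map a : Ultrafilter ℂ) : Filter ℂ) ≤ 𝓟 (closedBall 0 C) := by
    rw [Filter.le_principal_iff]
    show a ⁻¹' closedBall 0 C ∈ (U : Filter ℕ)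
    filter_upwards [h] with k hk
    simpa using hk
  obtain ⟨x, hx, hx2⟩ := (isCompact_closedBall (0 : ℂ) C).ultrafilter_le_nhds (U.map a) hle
  exact ⟨x, by simpa using hx, hx2⟩

theorem exists_limit {N : ℕ} (U : Ultrafilter ℕ) (f : ℕ → ℂ → Fin (N + 1) → ℂ)
    (h1 : ∀ z0, ∀ᶠ k in (U : Filter ℕ), ∃ i, Chart (f k) z0 i)
    (h2 : ∀ᶠ k in (U : Filter ℕ), Mov (f k)) : ∃ g, IsLim U f g := by
  classical
  have hz0 : ∀ z : ℂ, z ∈ ball z rho := fun z => mem_ball_self rho_pos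
  -- the maximal coordinate
  have hmax : ∀ z : ℂ, ∃ i : Fin (N + 1), ∀ᶠ k in (U : Filter ℕ),
      (∀ j, ‖f k z j‖ ≤ ‖f k z i‖) ∧ f k z i ≠ 0 := by
    intro z
    apply pick (U := U) (P := fun k i => (∀ j, ‖f k z j‖ ≤ ‖f k z i‖) ∧ f k z i ≠ 0)
    filter_upwards [h1 z] with k hk
    obtain ⟨i0, hi0⟩ := hk
    obtain ⟨i, hi⟩ := Finite.exists_max (fun j => ‖f k z j‖)
    refine ⟨i, hi, ?_⟩
    intro h0
    have h3 := hi i0
    have h4 := hi0.ne z (hz0 z)
    simp only [h0, norm_zero] at h3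
    exact h4 (norm_le_zero_iff.mp h3)
  choose im him using hmax
  have hg : ∀ z : ℂ, ∀ j : Fin (N + 1), ∃ x : ℂ, ‖x‖ ≤ 1 ∧
      Tendsto (fun k => f k z j / f k z (im z)) (U : Filter ℕ) (𝓝 x) := by
    intro z j
    apply lim_exists_of_bdd
    filter_upwards [him z] with k hk
    rw [norm_div]
    exact div_le_one_of_le₀ (hk.1 j) (norm_nonneg _)
  choose g hg1 hg2 using hg
  -- norm lower bound
  have hlow : ∀ (z0 : ℂ) (i : Fin (N + 1)), (∀ᶠ k in (U : Filter ℕ), Chart (f k) z0 i) →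
      ∀ z ∈ ball z0 rho, 1 / 2 ≤ ‖g z i‖ := by
    intro z0 i hC z hz
    have ht := (hg2 z i).norm
    apply ge_of_tendsto ht
    filter_upwards [hC, him z] with k hk hk2
    have h5 := hk.le z hz (im z)
    have h6 : 0 < ‖f k z (im z)‖ := norm_pos_iff.mpr hk2.2
    rw [norm_div, le_div_iff₀ h6]
    linarith
  have hgne : ∀ (z0 : ℂ) (i : Fin (N + 1)), (∀ᶠ k in (U : Filter ℕ), Chart (f k) z0 i) →
      ∀ z ∈ ball z0 rho, g z i ≠ 0 := by
    intro z0 i hC z hz h0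
    have := hlow z0 i hC z hz
    rw [h0, norm_zero] at this
    norm_num at this
  have hkey : ∀ (z0 : ℂ) (i : Fin (N + 1)), (∀ᶠ k in (U : Filter ℕ), Chart (f k) z0 i) →
      ∀ j, ∀ z ∈ ball z0 rho, Tendsto (fun k => f k z j / f k z i) (U : Filter ℕ)
        (𝓝 (g z j / g z i)) := by
    intro z0 i hC j z hz
    have ht := (hg2 z j).div (hg2 z i) (hgne z0 i hC z hz)
    apply ht.congr'
    filter_upwards [him z] with k hk2
    exact div_div_div_cancel_right₀ hk2.2 _ _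
  have hBC : ∀ (z0 : ℂ) (i : Fin (N + 1)), (∀ᶠ k in (U : Filter ℕ), Chart (f k) z0 i) →
      ∀ j, BC U (fun k z => f k z j / f k z i) (fun z => g z j / g z i) z0 rho := by
    intro z0 i hC j
    refine ⟨hC.mono (fun k hk => hk.hol j), ⟨2, ?_⟩, hkey z0 i hC j⟩
    filter_upwards [hC] with k hk
    intro z hz
    have h6 : 0 < ‖f k z i‖ := norm_pos_iff.mpr (hk.ne z hz)
    rw [norm_div, div_le_iff₀ h6]
    exact hk.le z hz j
  have hchart : ∀ (z0 : ℂ) (i : Fin (N + 1)), (∀ᶠ k in (U : Filter ℕ), Chart (f k) z0 i) →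
      Chart g z0 i := by
    intro z0 i hC
    refine ⟨hgne z0 i hC, ?_, fun j => (hBC z0 i hC j).diff⟩
    intro z hz j
    apply le_of_tendsto_of_tendsto (hg2 z j).norm ((hg2 z i).norm.const_mul 2)
    filter_upwards [hC, him z] with k hk hk2
    have h6 : 0 < ‖f k z (im z)‖ := norm_pos_iff.mpr hk2.2
    have h7 := hk.le z hz j
    rw [norm_div, norm_div, ← mul_div_assoc]
    exact div_le_div_of_nonneg_right h7 h6.le
  refine ⟨g, ⟨⟨?_, ?_⟩, hchart, hBC⟩⟩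
  · intro z0
    obtain ⟨i, hi⟩ := pick (h1 z0)
    exact ⟨i, hchart z0 i hi⟩
  · have h3 : ∀ᶠ k in (U : Filter ℕ), ∃ p : Fin (N + 1) × Fin (N + 1), Chart (f k) 0 p.1 ∧
        1 / 4 ≤ ‖deriv (fun z => f k z p.2 / f k z p.1) 0‖ := by
      filter_upwards [h2] with k hk
      obtain ⟨i, j, hij⟩ := hk
      exact ⟨(i, j), hij⟩
    obtain ⟨p, hp⟩ := pick h3
    have hC : ∀ᶠ k in (U : Filter ℕ), Chart (f k) 0 p.1 := hp.mono (fun k hk => hk.1)
    refine ⟨p.1, p.2, hchart 0 p.1 hC, ?_⟩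
    have ht := ((hBC 0 p.1 hC p.2).deriv_tendsto (hz0 0)).norm
    apply ge_of_tendsto ht
    filter_upwards [hp] with k hk
    exact hk.2

/-- B-curves -/
theorem exists_limit_bcurve {N : ℕ} (U : Ultrafilter ℕ) (f : ℕ → ℂ → Fin (N + 1) → ℂ)
    (h : ∀ᶠ k in (U : Filter ℕ), BCurve (f k)) : ∃ g, IsLim U f g :=
  exists_limit U f (fun z0 => h.mono (fun _ hk => hk.chart z0)) (h.mono (fun _ hk => hk.mov))

end Pool.Agent.H97.HY
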