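import Pool.Agent.H97.HY.BCb
import Pool.Agent.H97.HY.Lim

/-!
# Module LimV: linear and polynomial equations pass to the limit curve

PROOF HINTS.  For `z` pick (`pick`) an index `i` with `∀ᶠ k in U, Chart (f k) z i` (hypothesis
`hch`).  In the chart the value converges (`IsLim.lim`, `BC.lin`, `BC.eval`); use `lin_aff_eq_zero`,
`eval_aff_iff` to translate between `f z` and `aff f i z`.
-/

open Metric Set Filter Topology

set_option autoImplicit false

namespace Pool.Agent.H97.HY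

/-- pointwise convergence at the centre of a chart -/
lemma IsLim.tendsto_aff {N : ℕ} {U : Ultrafilter ℕ} {f : ℕ → ℂ → Fin (N + 1) → ℂ}
    {g : ℂ → Fin (N + 1) → ℂ} (hlim : IsLim U f g) {z : ℂ} {i : Fin (N + 1)}
    (hi : ∀ᶠ k in (U : Filter ℕ), Chart (f k) z i) (j : Fin (N + 1)) :
    Tendsto (fun k => aff (f k) i z j) (U : Filter ℕ) (𝓝 (aff g i z j)) :=
  (hlim.lim z i hi j).lim z (mem_ball_self rho_pos)

/-- the value of a form as a sum over all monomials of degree `d` -/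
lemma eval_eq_antidiag {N d : ℕ} {F : MvPolynomial (Fin (N + 1)) ℂ} (hF : F.IsHomogeneous d)
    (x : Fin (N + 1) → ℂ) : MvPolynomial.eval x F =
      ∑ m ∈ Finset.finsuppAntidiag (Finset.univ : Finset (Fin (N + 1))) d,
        F.coeff m * ∏ i, x i ^ m i := by
  rw [MvPolynomial.eval_eq']
  apply Finset.sum_subset
  · intro m hm
    have hd : ∑ i, m i = d := by
      have := hF (MvPolynomial.mem_support_iff.mp hm)
      rw [← this, Finsupp.weight_apply, Finsupp.sum_fintype]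
      · simp
      · simp
    rw [Finset.mem_finsuppAntidiag]
    exact ⟨hd, Finset.subset_univ _⟩
  · intro m _ hm
    rw [MvPolynomial.notMem_support_iff.mp hm, zero_mul]

theorem IsLim.lin_eq_zero {N : ℕ} {U : Ultrafilter ℕ} {f : ℕ → ℂ → Fin (N + 1) → ℂ}
    {g : ℂ → Fin (N + 1) → ℂ} (hlim : IsLim U f g)
    (hch : ∀ z0, ∀ᶠ k in (U : Filter ℕ), ∃ i, Chart (f k) z0 i) (c : Fin (N + 1) → ℂ)
    (h : ∀ z, ∀ᶠ k in (U : Filter ℕ), HY.lin c (f k z) = 0) : ∀ z, HY.lin c (g z) = 0 := by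
  intro z
  obtain ⟨i, hi⟩ := pick (hch z)
  have hg : Chart g z i := hlim.chart z i hi
  have hz : z ∈ ball z rho := mem_ball_self rho_pos
  rw [← lin_aff_eq_zero hg c hz]
  have h1 : Tendsto (fun k => HY.lin c (aff (f k) i z)) (U : Filter ℕ)
      (𝓝 (HY.lin c (aff g i z))) := by
    unfold HY.lin
    exact tendsto_finsetSum _ (fun j _ => (hlim.tendsto_aff hi j).const_mul (c j))
  have h2 : ∀ᶠ k in (U : Filter ℕ), HY.lin c (aff (f k) i z) = 0 := by
    filter_upwards [hi, h z] with k hk hk0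
    exact (lin_aff_eq_zero hk c hz).mpr hk0
  exact tendsto_nhds_unique (h1.congr' h2) tendsto_const_nhds

/-- forms of degree `d` with converging coefficients -/
theorem IsLim.eval_seq_eq_zero {N d : ℕ} {U : Ultrafilter ℕ} {f : ℕ → ℂ → Fin (N + 1) → ℂ}
    {g : ℂ → Fin (N + 1) → ℂ} (hlim : IsLim U f g)
    (hch : ∀ z0, ∀ᶠ k in (U : Filter ℕ), ∃ i, Chart (f k) z0 i)
    {F : MvPolynomial (Fin (N + 1)) ℂ} {Fk : ℕ → MvPolynomial (Fin (N + 1)) ℂ}
    (hF : F.IsHomogeneous d) (hFk : ∀ k, (Fk k).IsHomogeneous d)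
    (hc : ∀ m, Tendsto (fun k => (Fk k).coeff m) (U : Filter ℕ) (𝓝 (F.coeff m)))
    (h : ∀ z, ∀ᶠ k in (U : Filter ℕ), MvPolynomial.eval (f k z) (Fk k) = 0) :
    ∀ z, MvPolynomial.eval (g z) F = 0 := by
  intro z
  obtain ⟨i, hi⟩ := pick (hch z)
  have hg : Chart g z i := hlim.chart z i hi
  have hz : z ∈ ball z rho := mem_ball_self rho_pos
  rw [← eval_aff_iff hF hg hz]
  have h1 : Tendsto (fun k => MvPolynomial.eval (aff (f k) i z) (Fk k)) (U : Filter ℕ)
      (𝓝 (MvPolynomial.eval (aff g i z) F)) := by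
    rw [eval_eq_antidiag hF]
    have : (fun k => MvPolynomial.eval (aff (f k) i z) (Fk k)) = fun k =>
        ∑ m ∈ Finset.finsuppAntidiag (Finset.univ : Finset (Fin (N + 1))) d,
          (Fk k).coeff m * ∏ j, aff (f k) i z j ^ m j := by
      funext k
      exact eval_eq_antidiag (hFk k) _
    rw [this]
    refine tendsto_finsetSum _ (fun m _ => (hc m).mul ?_)
    exact tendsto_finsetProd _ (fun j _ => (hlim.tendsto_aff hi j).pow (m j))
  have h2 : ∀ᶠ k in (U : Filter ℕ), MvPolynomial.eval (aff (f k) i z) (Fk k) = 0 := by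
    filter_upwards [hi, h z] with k hk hk0
    exact (eval_aff_iff (hFk k) hk hz).mpr hk0
  exact tendsto_nhds_unique (h1.congr' h2) tendsto_const_nhds

/-- forms with converging coefficients, in the shape `F + δ_k F'` -/
theorem IsLim.eval_eq_zero {N d : ℕ} {U : Ultrafilter ℕ} {f : ℕ → ℂ → Fin (N + 1) → ℂ}
    {g : ℂ → Fin (N + 1) → ℂ} (hlim : IsLim U f g)
    (hch : ∀ z0, ∀ᶠ k in (U : Filter ℕ), ∃ i, Chart (f k) z0 i)
    {F F' : MvPolynomial (Fin (N + 1)) ℂ} (hF : F.IsHomogeneous d) (hF' : F'.IsHomogeneous d)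
    {δ : ℕ → ℂ} (hδ : Tendsto δ (U : Filter ℕ) (𝓝 0))
    (h : ∀ z, ∀ᶠ k in (U : Filter ℕ),
      MvPolynomial.eval (f k z) (F + MvPolynomial.C (δ k) * F') = 0) :
    ∀ z, MvPolynomial.eval (g z) F = 0 := by
  refine hlim.eval_seq_eq_zero hch (Fk := fun k => F + MvPolynomial.C (δ k) * F') hF ?_ ?_ h
  · intro k
    refine hF.add ?_
    have := (MvPolynomial.isHomogeneous_C (Fin (N + 1)) (δ k)).mul hF'
    simpa using this
  · intro m
    have h1 : Tendsto (fun k => F.coeff m + δ k * F'.coeff m) (U : Filter ℕ)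
        (𝓝 (F.coeff m + 0 * F'.coeff m)) := (hδ.mul_const _).const_add _
    rw [zero_mul, add_zero] at h1
    refine h1.congr (fun k => ?_)
    rw [MvPolynomial.coeff_add, MvPolynomial.coeff_C_mul]

end Pool.Agent.H97.HY
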