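import Pool.Agent.H97.HY.Chrt
import Pool.Agent.H97.HY.Hof
import Pool.Agent.H97.HY.LimV

/-!
# Module Bro: Brody's theorem in the form used here

PROOF HINTS.  By `rescale` with `R = k` get `x k`, `l k`, `f k w = g (x k + l k * w)`; it is entire,
nowhere zero and `F (f k z) = 0`.  For fixed `z0` and `k ≥ ‖z0‖ + 1` the hypothesis of `chart_of_DD` holds, so
`∃ i, Chart (f k) z0 i`; for `k ≥ 1` `Mov (f k)` by `chart_of_DD` at `0` and `mov_of_DD`.  Take
`U = Filter.hyperfilter ℕ` (`Filter.hyperfilter_le_cofinite`, `Nat.cofinite_eq_atTop`), `exists_limit`, and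
`IsLim.eval_eq_zero` with `δ = 0`, `F' = 0`.
-/

open Metric Set Filter Topology

set_option autoImplicit false

namespace Pool.Agent.H97.HY

theorem brody {N d : ℕ} {F : MvPolynomial (Fin (N + 1)) ℂ} (hF : F.IsHomogeneous d)
    (hH : ¬ Hits F) (g : ℂ → Fin (N + 1) → ℂ) (hg : Differentiable ℂ g) (hne : ∀ z, g z ≠ 0)
    (h0 : ∀ z, MvPolynomial.eval (g z) F = 0) : ∀ z, ∃ c : ℂ, g z = c • g 0 := by
  by_contra hnc
  apply hH
  choose x l h1 h2 using fun k : ℕ => rescale hg hne hnc (k : ℝ)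
  set f : ℕ → ℂ → Fin (N + 1) → ℂ := fun k w => g (x k + l k * w) with hf
  have hfd : ∀ k, Differentiable ℂ (f k) := by
    intro k
    have : Differentiable ℂ (fun w : ℂ => x k + l k * w) := by fun_prop
    exact hg.comp this
  have hfn : ∀ k z, f k z ≠ 0 := fun k z => hne _
  set U : Ultrafilter ℕ := Filter.hyperfilter ℕ with hUdef
  have hU : (U : Filter ℕ) ≤ atTop := by
    rw [← Nat.cofinite_eq_atTop]
    exact Filter.hyperfilter_le_cofinite
  have hchart : ∀ z0, ∀ᶠ k in (U : Filter ℕ), ∃ i, Chart (f k) z0 i ∧ ‖f k z0 i‖ = ‖f k z0‖ := by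
    intro z0
    obtain ⟨m, hm⟩ := exists_nat_ge (‖z0‖ + 1)
    filter_upwards [(eventually_ge_atTop m).filter_mono hU] with k hk
    refine chart_of_DD (hfd k) (hfn k) (fun z hz => h2 k z ?_)
    rw [mem_ball, dist_eq_norm] at hz
    have h3 : ‖z‖ ≤ ‖z - z0‖ + ‖z0‖ := by simpa using norm_add_le (z - z0) z0
    have h4 : (m : ℝ) ≤ k := by exact_mod_cast hk
    have h5 : rho ≤ 1 := by unfold rho; norm_num
    linarith
  have hch : ∀ z0, ∀ᶠ k in (U : Filter ℕ), ∃ i, Chart (f k) z0 i := fun z0 =>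
    (hchart z0).mono fun k hk => ⟨hk.choose, hk.choose_spec.1⟩
  have hmov : ∀ᶠ k in (U : Filter ℕ), Mov (f k) := by
    filter_upwards [hchart 0] with k hk
    obtain ⟨i, hi, hi'⟩ := hk
    exact mov_of_DD (hfd k) (hfn k) hi hi' (h1 k)
  obtain ⟨G, hG⟩ := exists_limit U f hch hmov
  refine ⟨G, hG.bcurve, hG.eval_eq_zero hch hF (MvPolynomial.isHomogeneous_zero _ _ d)
    (δ := fun _ => 0) tendsto_const_nhds fun z => Filter.Eventually.of_forall fun k => ?_⟩
  rw [mul_zero, add_zero]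
  exact h0 _

end Pool.Agent.H97.HY
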