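import Mathlib

/-!
# Module SmoA: finitely many images of smaller dimension have dense complement

PROOF HINTS.  Regard `α → ℂ` as a real normed space: `finrank ℝ (α → ℂ) = 2 * card α`.  A `C^1` map over `ℂ` is
`C^1` over `ℝ` (`ContDiff.restrict_scalars`).  `ContDiff.dimH_range_le`: the range has Hausdorff
dimension at most `2 * card β`.  `dimH_iUnion` (finite/countable union): the union of the ranges has
`dimH ≤ 2 card β < 2 card α`, so its complement is dense: `dense_compl_of_dimH_lt_finrank`; a dense set meets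
the ball of radius `ε` around `0`.
-/

set_option autoImplicit false

namespace Pool.Agent.H97.HY

theorem exists_small_avoiding {α β γ : Type*} [Fintype α] [Fintype β] [Finite γ]
    (hcard : Fintype.card β < Fintype.card α) (Φ : γ → (β → ℂ) → (α → ℂ))
    (hΦ : ∀ j, ContDiff ℂ 1 (Φ j)) {ε : ℝ} (hε : 0 < ε) :
    ∃ p : α → ℂ, (∀ i, ‖p i‖ < ε) ∧ ∀ j x, Φ j x ≠ p := by
  classical
  have hfa : Module.finrank ℝ (α → ℂ) = 2 * Fintype.card α := by
    rw [Module.finrank_pi_fintype]
    simp [Complex.finrank_real_complex, mul_comm]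
  have hfb : Module.finrank ℝ (β → ℂ) = 2 * Fintype.card β := by
    rw [Module.finrank_pi_fintype]
    simp [Complex.finrank_real_complex, mul_comm]
  have hdim : ∀ j, dimH (Set.range (Φ j)) ≤ Module.finrank ℝ (β → ℂ) := fun j =>
    ((hΦ j).restrict_scalars ℝ).dimH_range_le
  have hU : dimH (⋃ j, Set.range (Φ j)) < Module.finrank ℝ (α → ℂ) := by
    rw [dimH_iUnion]
    refine lt_of_le_of_lt (iSup_le hdim) ?_
    rw [hfa, hfb]
    exact_mod_cast (by omega : 2 * Fintype.card β < 2 * Fintype.card α)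
  have hdense := dense_compl_of_dimH_lt_finrank hU
  obtain ⟨p, hp, hpe⟩ := hdense.exists_mem_open (Metric.isOpen_ball (x := (0 : α → ℂ)) (ε := ε))
    ⟨0, Metric.mem_ball_self hε⟩
  refine ⟨p, ?_, ?_⟩
  · intro i
    have h1 : ‖p‖ < ε := by simpa using hpe
    exact lt_of_le_of_lt (norm_le_pi_norm p i) h1
  · intro j x hx
    exact hp (Set.mem_iUnion.2 ⟨j, ⟨x, hx⟩⟩)

end Pool.Agent.H97.HY
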