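import Pool.Agent.H97.HY.Defs
import Pool.Agent.H97.HY.SmoA

/-!
# Module Smo: smooth forms are dense

PROOF HINTS.  `n = N + 1` variables.  Parameters `p : Fin n × Fin n → ℂ`,
`F_p = F + ∑_{i,j} p (i,j) x_i x_j^(d-1)` (`d ≥ 1`; every coefficient of `F_p - F` is bounded by `n^2 max |p|`).
Suppose `F_p` is singular at `x ≠ 0`, i.e. `F_p(x) = 0` and all `∂_i F_p(x) = 0`.  Some `x_j ≠ 0`; by
homogeneity scale to `x_j = 1`.  For this `j` write `p'` for the parameters with second index `≠ j`.  For
`i ≠ j`: `∂_i F_p (x) = ∂_i F(x) + ∂_i (∑_{k, l ≠ j} p(k,l) x_k x_l^(d-1)) + p (i,j)` (as `x_j = 1`), so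
`p (i,j) = -(∂_i F_{p'})(x)` where `F_{p'} = F + ∑_{k, l ≠ j} ...`; and `F_p(x) = F_{p'}(x) + ∑_i p(i,j) x_i`, so
`p (j,j) = -F_{p'}(x) - ∑_{i ≠ j} p(i,j) x_i`.  Hence `p = Φ_j (x', p')` with an explicit polynomial map `Φ_j` on
`β → ℂ`, `β = Fin N ⊕ (Fin n × Fin N)` (indices `≠ j` via `Fin.succAbove j`), `card β = N + n N < n^2`.
Use `exists_small_avoiding` with `γ = Fin n` and `ε / (n^2 + 1)`.  Polynomial maps are `ContDiff`
(write the polynomials as explicit finite sums: `MvPolynomial.eval_eq'`, or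
prove once `ContDiff ℂ 1 (fun x => MvPolynomial.eval x p)` by `MvPolynomial.induction_on`).
-/

open Finset

set_option autoImplicit false

namespace Pool.Agent.H97.HY

open MvPolynomial in
/-- the monomial `x_i x_l^(d-1)` -/
private noncomputable def smoM {N : ℕ} (d : ℕ) (il : Fin (N + 1) × Fin (N + 1)) :
    MvPolynomial (Fin (N + 1)) ℂ := X il.1 * X il.2 ^ (d - 1)

open MvPolynomial in
private lemma smoM_hom {N d : ℕ} (hd : 2 ≤ d) (il : Fin (N + 1) × Fin (N + 1)) :
    (smoM d il).IsHomogeneous d := by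
  have h1 := (isHomogeneous_X ℂ il.1).mul ((isHomogeneous_X ℂ il.2).pow (d - 1))
  have h2 : 1 + 1 * (d - 1) = d := by omega
  rw [h2] at h1
  exact h1

open MvPolynomial in
private lemma smoM_coeff {N d : ℕ} (il : Fin (N + 1) × Fin (N + 1)) (m : Fin (N + 1) →₀ ℕ) :
    ‖coeff m (smoM d il)‖ ≤ 1 := by
  have h1 : smoM d il = monomial (Finsupp.single il.1 1 + Finsupp.single il.2 (d - 1)) (1 : ℂ) := by
    unfold smoM
    rw [X_pow_eq_monomial, X, monomial_mul, one_mul]
  rw [h1, coeff_monomial]
  split_ifs <;> simp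

open MvPolynomial in
private lemma smo_eval {E : Type*} [NormedAddCommGroup E] [NormedSpace ℂ E] {n : ℕ}
    (P : MvPolynomial (Fin n) ℂ) (x : E → Fin n → ℂ) (hx : ContDiff ℂ 1 x) :
    ContDiff ℂ 1 (fun e => eval (x e) P) := by
  induction P using MvPolynomial.induction_on with
  | C a => simpa using contDiff_const
  | add p q hp hq => simpa using hp.add hq
  | mul_X p i hp =>
    simp only [map_mul, eval_X]
    exact hp.mul (contDiff_pi.mp hx i)

/-- the index type of the parameters -/
private abbrev smoB (N : ℕ) : Type := Fin N ⊕ (Fin (N + 1) × Fin N)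

/-- the point -/
private noncomputable def smoX {N : ℕ} (j : Fin (N + 1)) (y : smoB N → ℂ) : Fin (N + 1) → ℂ :=
  Fin.insertNth j 1 (fun k => y (Sum.inl k))

open MvPolynomial in
/-- value of the form without the parameters `(i, j)` -/
private noncomputable def smoG {N : ℕ} (d : ℕ) (F : MvPolynomial (Fin (N + 1)) ℂ)
    (j : Fin (N + 1)) (y : smoB N → ℂ) : ℂ :=
  eval (smoX j y) F + ∑ kl : Fin (N + 1) × Fin N,
    y (Sum.inr kl) * eval (smoX j y) (smoM d (kl.1, j.succAbove kl.2))

open MvPolynomial in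
/-- derivative of the form without the parameters `(i, j)` -/
private noncomputable def smoD {N : ℕ} (d : ℕ) (F : MvPolynomial (Fin (N + 1)) ℂ)
    (j i : Fin (N + 1)) (y : smoB N → ℂ) : ℂ :=
  eval (smoX j y) (pderiv i F) + ∑ kl : Fin (N + 1) × Fin N,
    y (Sum.inr kl) * eval (smoX j y) (pderiv i (smoM d (kl.1, j.succAbove kl.2)))

/-- the parametrisation of the bad parameters -/
private noncomputable def smoPhi {N : ℕ} (d : ℕ) (F : MvPolynomial (Fin (N + 1)) ℂ)
    (j : Fin (N + 1)) (y : smoB N → ℂ) : Fin (N + 1) × Fin (N + 1) → ℂ := fun il =>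
  Fin.insertNth (α := fun _ => ℂ) j
    (if il.1 = j then - smoG d F j y + ∑ i ∈ univ.erase j, smoD d F j i y * smoX j y i
      else - smoD d F j il.1 y) (fun l => y (Sum.inr (il.1, l))) il.2

private lemma smoX_contDiff {N : ℕ} (j : Fin (N + 1)) : ContDiff ℂ 1 (smoX (N := N) j) := by
  rw [contDiff_pi]
  intro i
  unfold smoX
  induction i using Fin.succAboveCases j with
  | x => simpa using contDiff_const
  | p i => simpa using contDiff_apply ℂ ℂ (Sum.inl i : smoB N)

private lemma smoG_contDiff {N : ℕ} (d : ℕ) (F : MvPolynomial (Fin (N + 1)) ℂ)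
    (j : Fin (N + 1)) : ContDiff ℂ 1 (smoG d F j) := by
  unfold smoG
  refine (smo_eval _ _ (smoX_contDiff j)).add (ContDiff.sum fun kl _ => ?_)
  exact (contDiff_apply ℂ ℂ (Sum.inr kl : smoB N)).mul (smo_eval _ _ (smoX_contDiff j))

private lemma smoD_contDiff {N : ℕ} (d : ℕ) (F : MvPolynomial (Fin (N + 1)) ℂ)
    (j i : Fin (N + 1)) : ContDiff ℂ 1 (smoD d F j i) := by
  unfold smoD
  refine (smo_eval _ _ (smoX_contDiff j)).add (ContDiff.sum fun kl _ => ?_)
  exact (contDiff_apply ℂ ℂ (Sum.inr kl : smoB N)).mul (smo_eval _ _ (smoX_contDiff j))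

private lemma smoPhi_contDiff {N : ℕ} (d : ℕ) (F : MvPolynomial (Fin (N + 1)) ℂ)
    (j : Fin (N + 1)) : ContDiff ℂ 1 (smoPhi d F j) := by
  rw [contDiff_pi]
  rintro ⟨i, l⟩
  unfold smoPhi
  induction l using Fin.succAboveCases j with
  | x =>
    simp only [Fin.insertNth_apply_same]
    split_ifs with h
    · refine (smoG_contDiff d F j).neg.add (ContDiff.sum fun i _ => ?_)
      exact (smoD_contDiff d F j i).mul (contDiff_pi.mp (smoX_contDiff j) i)
    · exact (smoD_contDiff d F j i).neg
  | p l => simpa using contDiff_apply ℂ ℂ (Sum.inr (i, l) : smoB N)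

open MvPolynomial in
theorem exists_smooth_near {N d : ℕ} (hd : 2 ≤ d) {F : MvPolynomial (Fin (N + 1)) ℂ}
    (hF : F.IsHomogeneous d) {ε : ℝ} (hε : 0 < ε) :
    ∃ F' : MvPolynomial (Fin (N + 1)) ℂ, F'.IsHomogeneous d ∧
      (∀ m, ‖F'.coeff m - F.coeff m‖ < ε) ∧
      ∀ x : Fin (N + 1) → ℂ, x ≠ 0 → MvPolynomial.eval x F' = 0 →
        ∃ i, MvPolynomial.eval x (MvPolynomial.pderiv i F') ≠ 0 := by
  have hcard : Fintype.card (smoB N) < Fintype.card (Fin (N + 1) × Fin (N + 1)) := by
    simp only [smoB, Fintype.card_sum, Fintype.card_prod, Fintype.card_fin]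
    nlinarith
  obtain ⟨p, hp1, hp2⟩ := exists_small_avoiding hcard (fun j : Fin (N + 1) => smoPhi d F j)
    (fun j => smoPhi_contDiff d F j) (ε := ε / (((N + 1 : ℕ) : ℝ) ^ 2 + 1)) (by positivity)
  have hevM : ∀ (x : Fin (N + 1) → ℂ),
      eval x (F + ∑ il : Fin (N + 1) × Fin (N + 1), C (p il) * smoM d il) =
        eval x F + ∑ il : Fin (N + 1) × Fin (N + 1), p il * eval x (smoM d il) := by
    intro x
    simp [map_sum]
  have hevD : ∀ (x : Fin (N + 1) → ℂ) (i : Fin (N + 1)),
      eval x (pderiv i (F + ∑ il : Fin (N + 1) × Fin (N + 1), C (p il) * smoM d il)) =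
        eval x (pderiv i F) + ∑ il : Fin (N + 1) × Fin (N + 1),
          p il * eval x (pderiv i (smoM d il)) := by
    intro x i
    rw [map_add, map_sum, map_add, map_sum]
    congr 1
    refine sum_congr rfl (fun il _ => ?_)
    rw [pderiv_C_mul, map_mul, eval_C]
  have hhom : (F + ∑ il : Fin (N + 1) × Fin (N + 1), C (p il) * smoM d il).IsHomogeneous d := by
    refine hF.add (IsHomogeneous.sum _ _ _ fun il _ => ?_)
    have h1 := (isHomogeneous_C (Fin (N + 1)) (p il)).mul (smoM_hom hd il)
    simpa using h1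
  refine ⟨F + ∑ il : Fin (N + 1) × Fin (N + 1), C (p il) * smoM d il, hhom, ?_, ?_⟩
  · intro m
    rw [coeff_add, add_sub_cancel_left, coeff_sum]
    have h1 : ∀ il : Fin (N + 1) × Fin (N + 1), ‖coeff m (C (p il) * smoM d il)‖ ≤
        ε / (((N + 1 : ℕ) : ℝ) ^ 2 + 1) := by
      intro il
      rw [coeff_C_mul, norm_mul]
      have h2 := smoM_coeff (d := d) il m
      have h3 := (hp1 il).le
      have h4 := norm_nonneg (p il)
      nlinarith
    have h2 : ‖∑ il : Fin (N + 1) × Fin (N + 1), coeff m (C (p il) * smoM d il)‖ ≤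
        ∑ _il : Fin (N + 1) × Fin (N + 1), ε / (((N + 1 : ℕ) : ℝ) ^ 2 + 1) :=
      norm_sum_le_of_le _ (fun il _ => h1 il)
    refine h2.trans_lt ?_
    rw [sum_const, card_univ, Fintype.card_prod, Fintype.card_fin, nsmul_eq_mul]
    rw [mul_div_assoc', div_lt_iff₀ (by positivity)]
    push_cast
    nlinarith
  · intro x hx h0
    by_contra hcon
    have hall : ∀ i, eval x (pderiv i (F + ∑ il : Fin (N + 1) × Fin (N + 1),
        C (p il) * smoM d il)) = 0 := by
      intro i
      by_contra h
      exact hcon ⟨i, h⟩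
    obtain ⟨j, hj⟩ : ∃ j, x j ≠ 0 := by
      by_contra h
      apply hx
      funext j
      by_contra h2
      exact h ⟨j, h2⟩
    -- scaling
    set x1 : Fin (N + 1) → ℂ := (x j)⁻¹ • x with hx1
    have hx1j : x1 j = 1 := by
      rw [hx1, Pi.smul_apply, smul_eq_mul, inv_mul_cancel₀ hj]
    have h0' : eval x1 (F + ∑ il : Fin (N + 1) × Fin (N + 1), C (p il) * smoM d il) = 0 := by
      rw [hx1, eval_hom hhom, h0, mul_zero]
    have hall' : ∀ i, eval x1 (pderiv i (F + ∑ il : Fin (N + 1) × Fin (N + 1),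
        C (p il) * smoM d il)) = 0 := by
      intro i
      rw [hx1, eval_hom hhom.pderiv, hall i, mul_zero]
    rw [hevM] at h0'
    -- the parameter
    set y : smoB N → ℂ := fun b => Sum.elim (fun k => x1 (j.succAbove k))
      (fun kl => p (kl.1, j.succAbove kl.2)) b with hy
    have hX : smoX j y = x1 := by
      unfold smoX
      funext i
      induction i using Fin.succAboveCases j with
      | x => simp [hx1j]
      | p i => simp [hy]
    -- splitting of the sums
    have hsplit : ∀ g : Fin (N + 1) × Fin (N + 1) → ℂ, ∑ il : Fin (N + 1) × Fin (N + 1), g il =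
        ∑ k : Fin (N + 1), g (k, j) + ∑ kl : Fin (N + 1) × Fin N, g (kl.1, j.succAbove kl.2) := by
      intro g
      rw [Fintype.sum_prod_type, Fintype.sum_prod_type, ← sum_add_distrib]
      refine sum_congr rfl (fun k _ => ?_)
      rw [Fin.sum_univ_succAbove _ j]
    have hMj : ∀ k, eval x1 (smoM d (k, j)) = x1 k := by
      intro k
      simp [smoM, hx1j]
    have hDj : ∀ i k, i ≠ j → eval x1 (pderiv i (smoM d (k, j))) = if k = i then 1 else 0 := by
      intro i k hij
      have h1 : pderiv i (X j ^ (d - 1) : MvPolynomial (Fin (N + 1)) ℂ) = 0 := by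
        rw [pderiv_pow, pderiv_X_of_ne hij.symm, mul_zero]
      simp only [smoM]
      rw [pderiv_mul, h1, mul_zero, add_zero]
      by_cases hki : k = i
      · subst hki
        rw [pderiv_X_self, if_pos rfl]
        simp [hx1j]
      · rw [pderiv_X_of_ne hki, if_neg hki]
        simp
    have hG : smoG d F j y + ∑ k, p (k, j) * x1 k = 0 := by
      rw [hsplit] at h0'
      simp only [hMj] at h0'
      unfold smoG
      rw [hX]
      simp only [hy, Sum.elim_inr]
      linear_combination h0'
    have hD : ∀ i, i ≠ j → smoD d F j i y + p (i, j) = 0 := by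
      intro i hij
      have h1 := hall' i
      rw [hevD, hsplit] at h1
      have h2 : ∑ k, p (k, j) * eval x1 (pderiv i (smoM d (k, j))) = p (i, j) := by
        rw [sum_congr rfl (fun k _ => by rw [hDj i k hij])]
        simp
      rw [h2] at h1
      unfold smoD
      rw [hX]
      simp only [hy, Sum.elim_inr]
      linear_combination h1
    apply hp2 j y
    funext il
    obtain ⟨i, l⟩ := il
    simp only [smoPhi]
    induction l using Fin.succAboveCases j with
    | x =>
      simp only [Fin.insertNth_apply_same]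
      split_ifs with h
      · subst h
        rw [← add_sum_erase univ (fun k => p (k, i) * x1 k) (mem_univ i), hx1j, mul_one] at hG
        have h3 : ∑ k ∈ univ.erase i, smoD d F i k y * smoX i y k =
            - ∑ k ∈ univ.erase i, p (k, i) * x1 k := by
          rw [← sum_neg_distrib]
          refine sum_congr rfl (fun k hk => ?_)
          rw [hX]
          have h4 := hD k (ne_of_mem_erase hk)
          linear_combination x1 k * h4
        rw [h3]
        linear_combination -hG
      · linear_combination - hD i h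
    | p l => simp [hy]

end Pool.Agent.H97.HY
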