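import Pool.Agent.H97.HY.Defs

/-!
# Module Vdm: hyperplanes in general position exist

PROOF HINTS.  `H i = fun k => (i : ℂ) ^ (k : ℕ)` (`i : Fin q`, distinct complex numbers).  If
`∑ k, (i:ℂ)^k * x k = 0` for `N+1` distinct values of `i`, the polynomial `∑ k, x k X^k` of degree
`≤ N` has `N+1` roots, so it is zero (`Polynomial.eq_zero_of_natDegree_lt_card_of_eval_eq_zero`), or
use `Matrix.det_vandermonde_ne_zero_iff`.
-/

open Finset

set_option autoImplicit false

namespace Pool.Agent.H97.HY

/-- Vandermonde: `q` hyperplanes in general position exist -/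
theorem exists_genPos (N q : ℕ) : ∃ H : Fin q → Fin (N + 1) → ℂ, GenPos H := by
  refine ⟨fun i k => ((i : ℕ) : ℂ) ^ (k : ℕ), ?_⟩
  intro S hS x hx
  classical
  set P : Polynomial ℂ := ∑ k : Fin (N + 1), Polynomial.monomial (k : ℕ) (x k) with hP
  have hcoef : ∀ k : Fin (N + 1), P.coeff (k : ℕ) = x k := by
    intro k
    rw [hP, Polynomial.finsetSum_coeff]
    rw [Finset.sum_eq_single k]
    · simp
    · intro b _ hb
      rw [Polynomial.coeff_monomial, if_neg]
      intro h
      exact hb (Fin.ext h)
    · simp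
  have hdeg : P.degree < ((N + 1 : ℕ) : WithBot ℕ) := by
    rw [hP]
    refine lt_of_le_of_lt (Polynomial.degree_sum_le _ _) ?_
    rw [Finset.sup_lt_iff (WithBot.bot_lt_coe _)]
    intro k _
    refine lt_of_le_of_lt (Polynomial.degree_monomial_le _ _) ?_
    exact_mod_cast k.isLt
  have hinj : Function.Injective (fun i : Fin q => ((i : ℕ) : ℂ)) := by
    intro i j hij
    have hij' : ((i : ℕ) : ℂ) = ((j : ℕ) : ℂ) := hij
    exact Fin.ext (Nat.cast_injective hij')
  have hzero : P = 0 := by
    refine Polynomial.eq_zero_of_degree_lt_of_eval_finset_eq_zero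
      (s := S.image (fun i : Fin q => ((i : ℕ) : ℂ))) ?_ ?_
    · rw [Finset.card_image_of_injective _ hinj, hS]
      exact hdeg
    · intro z hz
      obtain ⟨i, hi, rfl⟩ := Finset.mem_image.mp hz
      have := hx i hi
      rw [hP, Polynomial.eval_finsetSum]
      simp only [Polynomial.eval_monomial]
      rw [← this]
      unfold lin
      exact Finset.sum_congr rfl fun k _ => mul_comm _ _
  funext k
  rw [← hcoef k, hzero]
  simp

end Pool.Agent.H97.HY
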