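import Pool.Agent.H97.HY.Defs

/-!
# Module Idn: identity theorem along a curve with charts

PROOF HINTS.  `van_of_open`: `S := {z | ∀ᶠ w in 𝓝 z, lin c (f w) = 0}` is open; it is closed: if
`z ∈ closure S`, take a chart `i` at `z`; some `w0 ∈ S ∩ ball z rho`; the function
`w ↦ lin c (aff f i w)` is analytic on the (preconnected) ball
(`DifferentiableOn.analyticOnNhd`), vanishes near `w0`, hence on the ball
(`AnalyticOnNhd.eqOn_zero_of_preconnected_of_eventuallyEq_zero`), so `z ∈ S`.  `S` is clopen and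
nonempty, so everything.
`prod_ne`: each factor is analytic on the ball and not eventually zero near any point of the ball (by
`van_of_open`), so its zeros in the ball are isolated; a finite product of functions which are
eventually nonzero in `𝓝[≠] z` is eventually nonzero in `𝓝[≠] z`
(`AnalyticAt.eventually_eq_zero_or_eventually_ne_zero`).
-/

open Metric Set Filter Topology

set_option autoImplicit false

namespace Pool.Agent.H97.HY

private lemma idn_diff {N : ℕ} {f : ℂ → Fin (N + 1) → ℂ} {z0 : ℂ} {i : Fin (N + 1)}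
    (hc : Chart f z0 i) (c : Fin (N + 1) → ℂ) :
    DifferentiableOn ℂ (fun z => lin c (aff f i z)) (ball z0 rho) := by
  simp only [lin, aff]
  refine DifferentiableOn.fun_sum (fun k _ => ?_)
  exact (hc.hol k).const_mul (c k)

theorem van_of_open {N : ℕ} {f : ℂ → Fin (N + 1) → ℂ} (hf : ∀ z0, ∃ i, Chart f z0 i)
    (c : Fin (N + 1) → ℂ) {V : Set ℂ} (hV : IsOpen V) (hVne : V.Nonempty)
    (h : ∀ z ∈ V, lin c (f z) = 0) : ∀ z, lin c (f z) = 0 := by
  set S : Set ℂ := {z | ∀ᶠ w in 𝓝 z, lin c (f w) = 0} with hS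
  have hopen : IsOpen S := by
    rw [isOpen_iff_mem_nhds]
    intro z hz
    exact eventually_eventually_nhds.mpr hz
  have hclosed : IsClosed S := by
    rw [← closure_subset_iff_isClosed]
    intro z hz
    obtain ⟨i, hi⟩ := hf z
    rw [Metric.mem_closure_iff] at hz
    obtain ⟨w0, hw0, hd⟩ := hz rho rho_pos
    have hw0b : w0 ∈ ball z rho := by
      rw [mem_ball, dist_comm]
      exact hd
    have han : AnalyticOnNhd ℂ (fun z => lin c (aff f i z)) (ball z rho) :=
      (idn_diff hi c).analyticOnNhd isOpen_ball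
    have hev : (fun z => lin c (aff f i z)) =ᶠ[𝓝 w0] 0 := by
      filter_upwards [hw0, isOpen_ball.mem_nhds hw0b] with w h1 h2
      exact (lin_aff_eq_zero hi c h2).mpr h1
    have key := han.eqOn_zero_of_preconnected_of_eventuallyEq_zero
      (convex_ball z rho).isPreconnected hw0b hev
    change ∀ᶠ w in 𝓝 z, lin c (f w) = 0
    filter_upwards [ball_mem_nhds z rho_pos] with w hw
    exact (lin_aff_eq_zero hi c hw).mp (key hw)
  have hne : S.Nonempty := by
    obtain ⟨v, hv⟩ := hVne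
    refine ⟨v, ?_⟩
    change ∀ᶠ w in 𝓝 v, lin c (f w) = 0
    filter_upwards [hV.mem_nhds hv] with w hw
    exact h w hw
  have huniv : S = univ := IsClopen.eq_univ ⟨hclosed, hopen⟩ hne
  intro z
  have hz : z ∈ S := by
    rw [huniv]
    exact mem_univ z
  exact (show ∀ᶠ w in 𝓝 z, lin c (f w) = 0 from hz).self_of_nhds

/-- the affine forms are holomorphic in a chart -/
theorem lin_aff_diff {N : ℕ} {f : ℂ → Fin (N + 1) → ℂ} {z0 : ℂ} {i : Fin (N + 1)}
    (hc : Chart f z0 i) (c : Fin (N + 1) → ℂ) :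
    DifferentiableOn ℂ (fun z => lin c (aff f i z)) (ball z0 rho) :=
  idn_diff hc c

/-- products of forms not vanishing identically on the curve are nonzero on a punctured
neighbourhood of every point of a chart -/
theorem prod_ne {N q : ℕ} {f : ℂ → Fin (N + 1) → ℂ} (hf : ∀ z0, ∃ i, Chart f z0 i)
    (H : Fin q → Fin (N + 1) → ℂ) (A : Finset (Fin q)) (w : Fin q → ℕ)
    (hne : ∀ j ∈ A, ∃ z, lin (H j) (f z) ≠ 0) {z0 : ℂ} {i : Fin (N + 1)} (hc : Chart f z0 i) {z : ℂ}
    (hz : z ∈ ball z0 rho) :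
    ∀ᶠ z' in 𝓝[≠] z, ∏ j ∈ A, lin (H j) (aff f i z') ^ w j ≠ 0 := by
  have h1 : ∀ j ∈ A, ∀ᶠ z' in 𝓝[≠] z, lin (H j) (aff f i z') ≠ 0 := by
    intro j hj
    have han : AnalyticAt ℂ (fun z => lin (H j) (aff f i z)) z :=
      (idn_diff hc (H j)).analyticAt (isOpen_ball.mem_nhds hz)
    rcases han.eventually_eq_zero_or_eventually_ne_zero with h0 | h0
    · exfalso
      obtain ⟨z1, hz1⟩ := hne j hj
      obtain ⟨V, hVs, hVo, hzV⟩ := _root_.eventually_nhds_iff.mp
        (h0.and (isOpen_ball.mem_nhds hz))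
      refine hz1 (van_of_open hf (H j) hVo ⟨z, hzV⟩ (fun z' hz' => ?_) z1)
      exact (lin_aff_eq_zero hc (H j) (hVs z' hz').2).mp (hVs z' hz').1
    · exact h0
  have h2 : ∀ᶠ z' in 𝓝[≠] z, ∀ j ∈ A, lin (H j) (aff f i z') ≠ 0 :=
    (Filter.eventually_all_finset A).mpr h1
  filter_upwards [h2] with z' hz'
  exact Finset.prod_ne_zero_iff.mpr (fun j hj => pow_ne_zero _ (hz' j hj))

/-- if a product of powers of linear forms vanishes on the curve then one of them does -/
theorem exists_van_of_prod {N q : ℕ} {f : ℂ → Fin (N + 1) → ℂ} (hf : ∀ z0, ∃ i, Chart f z0 i)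
    (H : Fin q → Fin (N + 1) → ℂ) (b : Fin q → ℕ)
    (h : ∀ z, MvPolynomial.eval (f z) (prodP H b) = 0) :
    ∃ j, ∀ z, lin (H j) (f z) = 0 := by
  by_contra hcon
  push Not at hcon
  obtain ⟨i, hi⟩ := hf 0
  have h0 : (0 : ℂ) ∈ ball (0 : ℂ) rho := mem_ball_self rho_pos
  have h1 := prod_ne hf H Finset.univ b (fun j _ => hcon j) hi h0
  have h2 : ∀ᶠ z' in 𝓝[≠] (0 : ℂ), z' ∈ ball (0 : ℂ) rho :=
    mem_nhdsWithin_of_mem_nhds (isOpen_ball.mem_nhds h0)
  obtain ⟨z', hz1, hz2⟩ := (h1.and h2).exists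
  apply hz1
  have h3 := h z'
  rw [eval_prodP, Finset.prod_eq_zero_iff] at h3
  obtain ⟨j, hj, hj0⟩ := h3
  have hbj : b j ≠ 0 := by
    intro hb
    rw [hb, pow_zero] at hj0
    exact one_ne_zero hj0
  have h4 : lin (H j) (f z') = 0 := pow_eq_zero_iff hbj |>.mp hj0
  apply Finset.prod_eq_zero hj
  rw [(lin_aff_eq_zero hi (H j) hz2).mpr h4, zero_pow hbj]

end Pool.Agent.H97.HY
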