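import Pool.Agent.H97.HY.Defs

/-!
# Module Circ: circles avoiding the zeros of a holomorphic function

PROOF HINTS.  `b` is analytic on the ball, not identically zero, so (the ball being preconnected)
the zero set has no accumulation point in the ball; its intersection with the compact set
`closedBall z0 ((r1 + r) / 2)` is finite; the finitely many numbers `dist z z0` leave a radius
`r'` with `r1 < r' < (r1+r)/2` free.
-/

open Metric Set Filter Topology

set_option autoImplicit false

namespace Pool.Agent.H97.HY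

theorem exists_circle {b : ℂ → ℂ} {z0 : ℂ} {r r1 : ℝ} (hr1 : 0 ≤ r1) (hr : r1 < r)
    (hb : DifferentiableOn ℂ b (ball z0 r)) (hne : ∃ z ∈ ball z0 r, b z ≠ 0) :
    ∃ r', r1 < r' ∧ r' < r ∧ ∀ z ∈ sphere z0 r', b z ≠ 0 := by
  have han : AnalyticOnNhd ℂ b (ball z0 r) := hb.analyticOnNhd isOpen_ball
  have hKr : closedBall z0 ((r1 + r) / 2) ⊆ ball z0 r := closedBall_subset_ball (by linarith)
  have hZ : {z | z ∈ closedBall z0 ((r1 + r) / 2) ∧ b z = 0}.Finite := by
    by_contra hinf
    obtain ⟨x, hxK, hx⟩ := Set.Infinite.exists_accPt_of_subset_isCompact hinf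
      (isCompact_closedBall z0 ((r1 + r) / 2)) (fun z hz => hz.1)
    have hfr : ∃ᶠ z in 𝓝[≠] x, b z = 0 :=
      (accPt_iff_frequently_nhdsNE.mp hx).mono (fun z hz => hz.2)
    obtain ⟨z, hz, hbz⟩ := hne
    exact hbz (han.eqOn_zero_of_preconnected_of_frequently_eq_zero
      (convex_ball z0 r).isPreconnected (hKr hxK) hfr hz)
  have hinf : (Ioo r1 ((r1 + r) / 2)).Infinite := Ioo_infinite (by linarith)
  obtain ⟨r', hr', hD⟩ := (hinf.sdiff (hZ.image (fun z => dist z z0))).nonempty
  refine ⟨r', hr'.1, by have := hr'.2; linarith, fun z hz hbz => hD ?_⟩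
  rw [mem_sphere] at hz
  exact ⟨z, ⟨by rw [mem_closedBall, hz]; exact hr'.2.le, hbz⟩, hz⟩

end Pool.Agent.H97.HY
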