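import Pool.Agent.H97.HY.BCa
import Pool.Agent.H97.HY.Circ

/-!
# Module Quo: quotients pass to the limit

Authors: helper97 (statement, plan), helper99 (proof).

`Qk`: the quotients.  For `0 ≤ r1 < r` take `r'` from `exists_circle`; on the compact circle
`|b| ≥ 2η > 0`, so by uniform convergence `|B k| ≥ η` for `U`-almost all `k`,
so `|Qk| ≤ C/η` on the circle and, by the maximum principle, on `closedBall z0 r'`.  So the
pointwise limits `Q z := lim_U Qk z` exist for every `z` of the ball, `Q` is holomorphic, and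
`a z = Q z * b z` by uniqueness of limits.
-/

open Metric Set Filter Topology

set_option autoImplicit false

namespace Pool.Agent.H97.HY

/-- local bound of the quotients -/
private theorem Quo_bound {U : Ultrafilter ℕ} {A B : ℕ → ℂ → ℂ} {a b : ℂ → ℂ} {z0 : ℂ} {r : ℝ}
    (hA : BC U A a z0 r) (hB : BC U B b z0 r) (hb : ∃ z ∈ ball z0 r, b z ≠ 0)
    {Qk : ℕ → ℂ → ℂ}
    (hQ : ∀ᶠ k in (U : Filter ℕ), DifferentiableOn ℂ (Qk k) (ball z0 r) ∧
      ∀ z ∈ ball z0 r, A k z = Qk k z * B k z) {r1 : ℝ} (h1 : 0 ≤ r1) (h2 : r1 < r) :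
    ∃ M : ℝ, ∀ᶠ k in (U : Filter ℕ), ∀ z ∈ closedBall z0 r1, ‖Qk k z‖ ≤ M := by
  obtain ⟨r', hr1, hr2, hne⟩ := exists_circle h1 h2 hB.diff hb
  have hsub : sphere z0 r' ⊆ ball z0 r := fun z hz => by
    rw [mem_sphere] at hz; rw [mem_ball, hz]; exact hr2
  have hK : IsCompact (sphere z0 r') := isCompact_sphere z0 r'
  have hcont : ContinuousOn (fun z => ‖b z‖) (sphere z0 r') :=
    (hB.diff.continuousOn.mono hsub).norm
  have hnon : (sphere z0 r').Nonempty := NormedSpace.sphere_nonempty.mpr (by linarith)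
  obtain ⟨w, hw, hmin⟩ := hK.exists_isMinOn hnon hcont
  have hpos : 0 < ‖b w‖ := norm_pos_iff.mpr (hne w hw)
  obtain ⟨C, hC⟩ := hA.bdd
  refine ⟨C / (‖b w‖ / 2), ?_⟩
  have hunif := hB.unif hK hsub
  rw [Metric.tendstoUniformlyOn_iff] at hunif
  filter_upwards [hQ, hC, hunif (‖b w‖ / 2) (by positivity)] with k hk hCk huk z hz
  have hcl : closedBall z0 r' ⊆ ball z0 r := closedBall_subset_ball hr2
  have hd : DiffContOnCl ℂ (Qk k) (ball z0 r') := by
    apply DifferentiableOn.diffContOnCl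
    rw [closure_ball z0 (by linarith : r' ≠ 0)]
    exact hk.1.mono hcl
  refine Complex.norm_le_of_forall_mem_frontier_norm_le isBounded_ball hd ?_
    (by rw [closure_ball z0 (by linarith : r' ≠ 0)]
        exact closedBall_subset_closedBall hr1.le hz)
  intro x hx
  rw [frontier_ball z0 (by linarith : r' ≠ 0)] at hx
  have hxb := hsub hx
  have e1 := hk.2 x hxb
  have e2 := hCk x hxb
  have e3 := huk x hx
  have e4 : ‖b w‖ ≤ ‖b x‖ := hmin hx
  rw [dist_eq_norm] at e3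
  have e5 : ‖b w‖ / 2 ≤ ‖B k x‖ := by
    have := norm_sub_norm_le (b x) (B k x)
    linarith
  rw [le_div_iff₀ (by positivity)]
  calc ‖Qk k x‖ * (‖b w‖ / 2) ≤ ‖Qk k x‖ * ‖B k x‖ := by gcongr
    _ = ‖A k x‖ := by rw [e1, norm_mul]
    _ ≤ C := e2

theorem quot_limit {U : Ultrafilter ℕ} {A B : ℕ → ℂ → ℂ} {a b : ℂ → ℂ} {z0 : ℂ} {r : ℝ}
    (hr : 0 < r) (hA : BC U A a z0 r) (hB : BC U B b z0 r) (hb : ∃ z ∈ ball z0 r, b z ≠ 0)
    (hq : ∀ᶠ k in (U : Filter ℕ), ∃ Q : ℂ → ℂ, DifferentiableOn ℂ Q (ball z0 r) ∧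
      ∀ z ∈ ball z0 r, A k z = Q z * B k z) :
    ∃ Q : ℂ → ℂ, DifferentiableOn ℂ Q (ball z0 r) ∧ ∀ z ∈ ball z0 r, a z = Q z * b z := by
  classical
  obtain ⟨Qk, hQ⟩ := hq.choice
  have hloc : ∀ z ∈ ball z0 r, ∃ r1, ∃ G : ℂ → ℂ, z ∈ ball z0 r1 ∧ BC U Qk G z0 r1 := by
    intro z hz
    rw [mem_ball] at hz
    obtain ⟨r1, h1, h2⟩ := exists_between hz
    have h0 : 0 ≤ r1 := le_trans dist_nonneg h1.le
    obtain ⟨M, hM⟩ := Quo_bound hA hB hb hQ h0 h2
    obtain ⟨G, hG⟩ := BC.exists_lim (U := U) (F := Qk) (z0 := z0) (r := r1)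
      (hQ.mono fun k hk => hk.1.mono (ball_subset_ball h2.le))
      ⟨M, hM.mono fun k hk z hz => hk z (ball_subset_closedBall hz)⟩
    exact ⟨r1, G, h1, hG⟩
  let Q : ℂ → ℂ := fun z => limUnder (U : Filter ℕ) (fun k => Qk k z)
  have hlim : ∀ z ∈ ball z0 r, Tendsto (fun k => Qk k z) (U : Filter ℕ) (𝓝 (Q z)) := by
    intro z hz
    obtain ⟨r1, G, hz1, hG⟩ := hloc z hz
    have := hG.lim z hz1
    exact tendsto_nhds_limUnder ⟨_, this⟩
  refine ⟨Q, ?_, ?_⟩
  · intro z hz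
    obtain ⟨r1, G, hz1, hG⟩ := hloc z hz
    have hGd : DifferentiableAt ℂ G z := (hG.diff z hz1).differentiableAt (isOpen_ball.mem_nhds hz1)
    refine DifferentiableAt.differentiableWithinAt ?_
    refine hGd.congr_of_eventuallyEq ?_
    filter_upwards [isOpen_ball.mem_nhds hz1] with w hw
    exact (hG.lim w hw).limUnder_eq
  · intro z hz
    refine tendsto_nhds_unique (hA.lim z hz) ?_
    refine ((hlim z hz).mul (hB.lim z hz)).congr' ?_
    filter_upwards [hQ] with k hk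
    exact (hk.2 z hz).symm

end Pool.Agent.H97.HY
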