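import Pool.Agent.H97.HY.BCb
import Pool.Agent.H97.HY.Quo
import Pool.Agent.H97.HY.Lim
import Pool.Agent.H97.HY.Idn

/-!
# Module ConL: constraints pass to the limit

PROOF HINTS.  Fix `z0`.  `pick` an index `i` such that for `U`-almost all `k`: `Chart (f k) z0 i` and a
quotient `Qk` exists.  `IsLim.chart`, `IsLim.lim` give the chart and the convergence; apply
`quot_limit` to `A k z = eval (aff (f k) i z) (s + C (δ k) * s')`
(`= eval _ s + δ k * eval _ s'`, limit `eval (aff g i z) s`), `B k z = ∏ j ∈ B, lin (H j) (aff (f k) i z)^w j`,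
quotient `Qk z * ∏ j ∈ A \ B, ...` (holomorphic); `b` is not identically zero by `prod_ne`.
-/

open Metric Set Filter Topology

set_option autoImplicit false

namespace Pool.Agent.H97.HY

theorem con_limit {N q : ℕ} {U : Ultrafilter ℕ} {f : ℕ → ℂ → Fin (N + 1) → ℂ}
    {g : ℂ → Fin (N + 1) → ℂ} (hlim : IsLim U f g) (H : Fin q → Fin (N + 1) → ℂ)
    {A B : Finset (Fin q)} (w : Fin q → ℕ) (s s' : MvPolynomial (Fin (N + 1)) ℂ) {δ : ℕ → ℂ}
    (hδ : Tendsto δ (U : Filter ℕ) (𝓝 0))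
    (hcon : ∀ᶠ k in (U : Filter ℕ), Con H (f k) A w (s + MvPolynomial.C (δ k) * s'))
    (hB : B ⊆ A) (hne : ∀ j ∈ B, ∃ z, lin (H j) (g z) ≠ 0) : Con H g B w s := by
  intro z0
  obtain ⟨i, hi⟩ := pick (U := U) (hcon.mono fun k hk => hk z0)
  have hchk : ∀ᶠ k in (U : Filter ℕ), Chart (f k) z0 i := hi.mono fun k hk => hk.1
  have hch : Chart g z0 i := hlim.chart z0 i hchk
  have hBC : ∀ j, BC U (fun k z => f k z j / f k z i) (fun z => g z j / g z i) z0 rho :=
    hlim.lim z0 i hchk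
  refine ⟨i, hch, ?_⟩
  -- the form
  have hA : BC U (fun k z => MvPolynomial.eval (aff (f k) i z) (s + MvPolynomial.C (δ k) * s'))
      (fun z => MvPolynomial.eval (aff g i z) s) z0 rho := by
    have h1 := BC.eval hBC s
    have h2 := (BC.const_seq hδ z0 rho).mul (BC.eval hBC s')
    refine (h1.add h2).congr (Eventually.of_forall fun k z _ => ?_) (fun z _ => ?_)
    · simp only [map_add, map_mul, MvPolynomial.eval_C]
      rfl
    · show MvPolynomial.eval _ s + 0 * MvPolynomial.eval _ s' = _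
      rw [zero_mul, add_zero]
      rfl
  have hBB : BC U (fun k z => ∏ j ∈ B, lin (H j) (aff (f k) i z) ^ w j)
      (fun z => ∏ j ∈ B, lin (H j) (aff g i z) ^ w j) z0 rho :=
    BC.prod B fun j _ => (BC.lin hBC (H j)).pow (w j)
  have hb : ∃ z ∈ ball z0 rho, ∏ j ∈ B, lin (H j) (aff g i z) ^ w j ≠ 0 := by
    have h1 := prod_ne hlim.bcurve.chart H B w hne hch (z := z0) (mem_ball_self rho_pos)
    have h2 : ∀ᶠ z in 𝓝[≠] z0, z ∈ ball z0 rho :=
      eventually_nhdsWithin_of_eventually_nhds (isOpen_ball.mem_nhds (mem_ball_self rho_pos))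
    obtain ⟨z, hz1, hz2⟩ := (h1.and h2).exists
    exact ⟨z, hz2, hz1⟩
  refine quot_limit rho_pos hA hBB hb ?_
  filter_upwards [hi] with k hk
  obtain ⟨hck, Q, hQ, hQe⟩ := hk
  refine ⟨fun z => Q z * ∏ j ∈ A \ B, lin (H j) (aff (f k) i z) ^ w j, ?_, ?_⟩
  · refine hQ.mul (DifferentiableOn.fun_finsetProd fun j _ => ?_)
    exact (lin_aff_diff hck (H j)).pow (w j)
  · intro z hz
    rw [hQe z hz, mul_assoc, Finset.prod_sdiff hB]

/-- the same for a constant form -/
theorem con_limit_const {N q : ℕ} {U : Ultrafilter ℕ} {f : ℕ → ℂ → Fin (N + 1) → ℂ}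
    {g : ℂ → Fin (N + 1) → ℂ} (hlim : IsLim U f g) (H : Fin q → Fin (N + 1) → ℂ)
    {A B : Finset (Fin q)} (w : Fin q → ℕ) (s : MvPolynomial (Fin (N + 1)) ℂ)
    (hcon : ∀ᶠ k in (U : Filter ℕ), Con H (f k) A w s)
    (hB : B ⊆ A) (hne : ∀ j ∈ B, ∃ z, lin (H j) (g z) ≠ 0) : Con H g B w s := by
  refine con_limit hlim H w s 0 (δ := fun _ => 0) tendsto_const_nhds ?_ hB hne
  simpa using hcon

end Pool.Agent.H97.HY
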