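import Pool.Agent.H97.HY.Defs

/-!
# Module ConA: algebra of constraints

PROOF HINTS.  All are pointwise identities in the same chart, with an explicit new quotient; the
holomorphy of the new quotient is that of products of the functions `lin c (aff f i ·)`
(differentiable on the ball by `Chart.hol`).
`con_step`: `δ * s'(G) = Q ∏_{A} h^w - ∏_{i} h_i^{b_i}`, `∏_i h_i^{b_i} = ∏_{i∈A} h_i^{b_i}` as `b = 0` off
`A`; quotient `δ⁻¹ (Q ∏_A h^{w - min} - ∏_A h^{b - min})`.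
-/

open Metric Set Filter Topology

set_option autoImplicit false

namespace Pool.Agent.H97.HY

private theorem ConA_diff {N : ℕ} {f : ℂ → Fin (N + 1) → ℂ} {z0 : ℂ} {i : Fin (N + 1)}
    (h : Chart f z0 i) (c : Fin (N + 1) → ℂ) :
    DifferentiableOn ℂ (fun z => lin c (aff f i z)) (ball z0 rho) := by
  unfold lin aff
  apply DifferentiableOn.fun_sum
  intro k _
  exact (h.hol k).const_mul (c k)

private theorem ConA_prod {N q : ℕ} (H : Fin q → Fin (N + 1) → ℂ) {f : ℂ → Fin (N + 1) → ℂ}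
    {z0 : ℂ} {i : Fin (N + 1)} (h : Chart f z0 i) (A : Finset (Fin q)) (w : Fin q → ℕ) :
    DifferentiableOn ℂ (fun z => ∏ j ∈ A, lin (H j) (aff f i z) ^ w j) (ball z0 rho) := by
  apply DifferentiableOn.fun_finsetProd
  intro j _
  exact (ConA_diff h (H j)).pow (w j)

theorem Con.mono {N q : ℕ} {H : Fin q → Fin (N + 1) → ℂ} {f : ℂ → Fin (N + 1) → ℂ}
    {A B : Finset (Fin q)} {w w' : Fin q → ℕ} {s : MvPolynomial (Fin (N + 1)) ℂ}
    (h : Con H f A w s) (hB : B ⊆ A) (hw : ∀ i ∈ B, w' i ≤ w i) : Con H f B w' s := by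
  intro z0
  obtain ⟨i, hc, Q, hQ, hs⟩ := h z0
  refine ⟨i, hc, fun z => Q z * (∏ j ∈ A \ B, lin (H j) (aff f i z) ^ w j) *
    ∏ j ∈ B, lin (H j) (aff f i z) ^ (w j - w' j),
    (hQ.mul (ConA_prod H hc (A \ B) w)).mul (ConA_prod H hc B (fun j => w j - w' j)), ?_⟩
  intro z hz
  rw [hs z hz]
  have h1 : ∏ j ∈ A, lin (H j) (aff f i z) ^ w j =
      (∏ j ∈ A \ B, lin (H j) (aff f i z) ^ w j) * ∏ j ∈ B, lin (H j) (aff f i z) ^ w j :=
    (Finset.prod_sdiff hB).symm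
  have h2 : ∏ j ∈ B, lin (H j) (aff f i z) ^ w j =
      (∏ j ∈ B, lin (H j) (aff f i z) ^ (w j - w' j)) *
        ∏ j ∈ B, lin (H j) (aff f i z) ^ w' j := by
    rw [← Finset.prod_mul_distrib]
    apply Finset.prod_congr rfl
    intro j hj
    rw [← pow_add, Nat.sub_add_cancel (hw j hj)]
  rw [h1, h2]
  ring

theorem con_step {N q : ℕ} {H : Fin q → Fin (N + 1) → ℂ} {f : ℂ → Fin (N + 1) → ℂ}
    {A : Finset (Fin q)} {w b : Fin q → ℕ} {s' : MvPolynomial (Fin (N + 1)) ℂ} {δ : ℂ}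
    (hδ : δ ≠ 0) (hb : ∀ i, i ∉ A → b i = 0)
    (h : Con H f A w (prodP H b + MvPolynomial.C δ * s')) :
    Con H f A (fun i => min (w i) (b i)) s' := by
  intro z0
  obtain ⟨i, hc, Q, hQ, hs⟩ := h z0
  refine ⟨i, hc, fun z => δ⁻¹ * (Q z * (∏ j ∈ A, lin (H j) (aff f i z) ^ (w j - min (w j) (b j)))
    - ∏ j ∈ A, lin (H j) (aff f i z) ^ (b j - min (w j) (b j))),
    ((hQ.mul (ConA_prod H hc A (fun j => w j - min (w j) (b j)))).sub
      (ConA_prod H hc A (fun j => b j - min (w j) (b j)))).const_mul δ⁻¹, ?_⟩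
  intro z hz
  have h0 := hs z hz
  rw [map_add, map_mul, MvPolynomial.eval_C, eval_prodP] at h0
  have h1 : ∏ j, lin (H j) (aff f i z) ^ b j = ∏ j ∈ A, lin (H j) (aff f i z) ^ b j := by
    symm
    apply Finset.prod_subset (Finset.subset_univ A)
    intro j _ hj
    rw [hb j hj, pow_zero]
  have h2 : ∀ v : Fin q → ℕ, (∀ j ∈ A, min (w j) (b j) ≤ v j) →
      ∏ j ∈ A, lin (H j) (aff f i z) ^ v j =
      (∏ j ∈ A, lin (H j) (aff f i z) ^ (v j - min (w j) (b j))) *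
        ∏ j ∈ A, lin (H j) (aff f i z) ^ min (w j) (b j) := by
    intro v hv
    rw [← Finset.prod_mul_distrib]
    apply Finset.prod_congr rfl
    intro j hj
    rw [← pow_add, Nat.sub_add_cancel (hv j hj)]
  have h3 : MvPolynomial.eval (aff f i z) s' = δ⁻¹ *
      (Q z * ∏ j ∈ A, lin (H j) (aff f i z) ^ w j - ∏ j ∈ A, lin (H j) (aff f i z) ^ b j) := by
    rw [← h0, h1]
    field_simp
    ring
  rw [h3, h2 w (fun j _ => min_le_left _ _), h2 b (fun j _ => min_le_right _ _)]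
  ring

/-- if some `h_i` with `b i ≥ 1` vanishes on the curve, the level is invisible -/
theorem con_of_van {N q : ℕ} {H : Fin q → Fin (N + 1) → ℂ} {f : ℂ → Fin (N + 1) → ℂ}
    {A : Finset (Fin q)} {w b : Fin q → ℕ} {s' : MvPolynomial (Fin (N + 1)) ℂ} {δ : ℂ}
    (hδ : δ ≠ 0) {i : Fin q} (hi : b i ≠ 0) (hv : ∀ z, lin (H i) (f z) = 0)
    (h : Con H f A w (prodP H b + MvPolynomial.C δ * s')) : Con H f A w s' := by
  intro z0
  obtain ⟨i0, hc, Q, hQ, hs⟩ := h z0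
  refine ⟨i0, hc, fun z => δ⁻¹ * Q z, hQ.const_mul δ⁻¹, ?_⟩
  intro z hz
  have h0 := hs z hz
  rw [map_add, map_mul, MvPolynomial.eval_C, eval_prodP] at h0
  have h1 : ∏ j, lin (H j) (aff f i0 z) ^ b j = 0 := by
    apply Finset.prod_eq_zero (Finset.mem_univ i)
    rw [lin_aff, hv z, zero_div, zero_pow hi]
  rw [h1, zero_add] at h0
  rw [mul_assoc, ← h0]
  field_simp

/-- the starting constraint -/
theorem con_start {N q d : ℕ} {H : Fin q → Fin (N + 1) → ℂ} {f : ℂ → Fin (N + 1) → ℂ}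
    (hf : ∀ z0, ∃ i, Chart f z0 i) {a : Fin q → ℕ} (ha : ∑ i, a i = d)
    {s : MvPolynomial (Fin (N + 1)) ℂ} (hs : s.IsHomogeneous d) {δ : ℂ} (hδ : δ ≠ 0)
    (h : ∀ z, MvPolynomial.eval (f z) (prodP H a + MvPolynomial.C δ * s) = 0) (A : Finset (Fin q)) :
    Con H f A a s := by
  intro z0
  obtain ⟨i, hc⟩ := hf z0
  refine ⟨i, hc, fun z => -δ⁻¹ * ∏ j ∈ Finset.univ \ A, lin (H j) (aff f i z) ^ a j,
    (ConA_prod H hc (Finset.univ \ A) a).const_mul (-δ⁻¹), ?_⟩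
  intro z hz
  have hhom : (prodP H a + MvPolynomial.C δ * s).IsHomogeneous d := by
    apply MvPolynomial.IsHomogeneous.add
    · rw [← ha]; exact prodP_hom H a
    · have := (MvPolynomial.isHomogeneous_C (Fin (N + 1)) δ).mul hs
      simpa using this
  have h0 := (eval_aff_iff hhom hc hz).2 (h z)
  rw [map_add, map_mul, MvPolynomial.eval_C, eval_prodP] at h0
  have h1 : ∏ j, lin (H j) (aff f i z) ^ a j =
      (∏ j ∈ Finset.univ \ A, lin (H j) (aff f i z) ^ a j) *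
        ∏ j ∈ A, lin (H j) (aff f i z) ^ a j := (Finset.prod_sdiff (Finset.subset_univ A)).symm
  rw [mul_assoc, ← h1]
  have h2 : δ * MvPolynomial.eval (aff f i z) s = -∏ j, lin (H j) (aff f i z) ^ a j := by
    linear_combination h0
  calc MvPolynomial.eval (aff f i z) s = δ⁻¹ * (δ * MvPolynomial.eval (aff f i z) s) := by
        field_simp
    _ = -δ⁻¹ * ∏ j, lin (H j) (aff f i z) ^ a j := by rw [h2]; ring

/-- trivial edge: a loop -/
theorem con_loop {N q d : ℕ} (hd : 1 ≤ d) {H : Fin q → Fin (N + 1) → ℂ}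
    {f : ℂ → Fin (N + 1) → ℂ} (hf : ∀ z0, ∃ i, Chart f z0 i) (t : Fin q) :
    Con H f {t} (fun _ => 1) (linP (H t) ^ d) := by
  intro z0
  obtain ⟨i, hc⟩ := hf z0
  refine ⟨i, hc, fun z => lin (H t) (aff f i z) ^ (d - 1), (ConA_diff hc (H t)).pow (d - 1), ?_⟩
  intro z hz
  rw [map_pow, eval_linP, Finset.prod_singleton, pow_one, ← pow_succ, Nat.sub_add_cancel hd]

/-- an edge constraint gives the implication between zeros -/
theorem con_edge_imp {N q d : ℕ} (hd : 1 ≤ d) {H : Fin q → Fin (N + 1) → ℂ}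
    {f : ℂ → Fin (N + 1) → ℂ} {t y : Fin q}
    (h : Con H f {t} (fun _ => 1) (linP (H y) ^ d)) {z : ℂ} (hz : lin (H t) (f z) = 0) :
    lin (H y) (f z) = 0 := by
  obtain ⟨i, hc, Q, hQ, hs⟩ := h z
  have hzb : z ∈ ball z rho := mem_ball_self rho_pos
  have h0 := hs z hzb
  rw [map_pow, eval_linP, Finset.prod_singleton, pow_one, (lin_aff_eq_zero hc (H t) hzb).2 hz,
    mul_zero] at h0
  exact (lin_aff_eq_zero hc (H y) hzb).1 (pow_eq_zero_iff (by omega) |>.1 h0)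

end Pool.Agent.H97.HY
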