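import Pool.Agent.H97.HY.Idn
import Pool.Agent.H97.HY.ConA

/-!
# Module Edge: a new edge

PROOF HINTS.  In the chart of `h` at `z0`: `∏_{i ∈ A} h_i^{b_i} = Q ∏_{i ∈ A} h_i^{w_i}` on the ball
(`b = 0` off `A`), i.e. `Π0 * (h_y^{b_y - w_y} - Q h_t) = 0` with
`Π0 = ∏_{i ∈ A} h_i^{min(w_i,b_i)}` (`min = w_i` for `i ≠ t`, `= b_t = w_t - 1` for `t`).  `Π0` is
nonzero on a punctured neighbourhood of each point (`prod_ne`), so `h_y^{b_y-w_y} = Q h_t` on a
dense subset of the ball, hence on the ball by continuity.  Multiply by `h_y^{d - (b_y - w_y)}`.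
-/

open Metric Set Filter Topology

set_option autoImplicit false

namespace Pool.Agent.H97.HY

theorem new_edge {N q d : ℕ} {H : Fin q → Fin (N + 1) → ℂ} {f : ℂ → Fin (N + 1) → ℂ}
    (hf : ∀ z0, ∃ i, Chart f z0 i) {A : Finset (Fin q)}
    (hne : ∀ j ∈ A, ∃ z, lin (H j) (f z) ≠ 0) {w b : Fin q → ℕ} {t y : Fin q} (ht : t ∈ A)
    (hy : y ∈ A) (hty : t ≠ y) (hb0 : ∀ i, i ∉ A → b i = 0)
    (hbi : ∀ i ∈ A, i ≠ t → i ≠ y → b i = w i) (hbt : b t + 1 = w t) (hby : w y ≤ b y)
    (hd : b y ≤ d + w y) (h : Con H f A w (prodP H b)) :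
    Con H f {t} (fun _ => 1) (linP (H y) ^ d) := by
  intro z0
  obtain ⟨i, hc, Q, hQ, hQe⟩ := h z0
  have hL : ∀ j, DifferentiableOn ℂ (fun z => lin (H j) (aff f i z)) (ball z0 rho) :=
    fun j => lin_aff_diff hc (H j)
  refine ⟨i, hc, fun z => Q z * lin (H y) (aff f i z) ^ (d - (b y - w y)),
    hQ.mul ((hL y).pow _), ?_⟩
  intro z hz
  have key : lin (H y) (aff f i z) ^ (b y - w y) = Q z * lin (H t) (aff f i z) := by
    have hne' := prod_ne hf H A (fun j => min (w j) (b j)) hne hc hz
    have hball : ∀ᶠ z' in 𝓝[≠] z, z' ∈ ball z0 rho :=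
      mem_nhdsWithin_of_mem_nhds (isOpen_ball.mem_nhds hz)
    have hev : (fun z' => lin (H y) (aff f i z') ^ (b y - w y)) =ᶠ[𝓝[≠] z]
        fun z' => Q z' * lin (H t) (aff f i z') := by
      filter_upwards [hne', hball] with z' h1 h2
      have h3 := hQe z' h2
      rw [eval_prodP] at h3
      have h4 : ∏ j, lin (H j) (aff f i z') ^ b j = ∏ j ∈ A, lin (H j) (aff f i z') ^ b j := by
        symm
        apply Finset.prod_subset (Finset.subset_univ A)
        intro j _ hj
        rw [hb0 j hj, pow_zero]
      have h5 : ∏ j ∈ A, lin (H j) (aff f i z') ^ b j =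
          (∏ j ∈ A, lin (H j) (aff f i z') ^ min (w j) (b j)) *
            lin (H y) (aff f i z') ^ (b y - w y) := by
        have h6 : lin (H y) (aff f i z') ^ (b y - w y) =
            ∏ j ∈ A, (if j = y then lin (H y) (aff f i z') ^ (b y - w y) else 1) := by
          rw [Finset.prod_ite_eq' A y, if_pos hy]
        rw [h6, ← Finset.prod_mul_distrib]
        apply Finset.prod_congr rfl
        intro j hj
        by_cases hjy : j = y
        · subst hjy
          rw [if_pos rfl, ← pow_add]
          congr 1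
          omega
        · rw [if_neg hjy, mul_one]
          by_cases hjt : j = t
          · subst hjt
            congr 1
            omega
          · rw [hbi j hj hjt hjy, min_self]
      have h7 : ∏ j ∈ A, lin (H j) (aff f i z') ^ w j =
          (∏ j ∈ A, lin (H j) (aff f i z') ^ min (w j) (b j)) * lin (H t) (aff f i z') := by
        have h6 : lin (H t) (aff f i z') =
            ∏ j ∈ A, (if j = t then lin (H t) (aff f i z') else 1) := by
          rw [Finset.prod_ite_eq' A t, if_pos ht]
        rw [h6, ← Finset.prod_mul_distrib]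
        apply Finset.prod_congr rfl
        intro j hj
        by_cases hjt : j = t
        · subst hjt
          rw [if_pos rfl, ← pow_succ]
          congr 1
          omega
        · rw [if_neg hjt, mul_one]
          by_cases hjy : j = y
          · subst hjy
            congr 1
            omega
          · rw [hbi j hj hjt hjy, min_self]
      rw [h4, h5, h7] at h3
      apply mul_left_cancel₀ h1
      rw [h3]
      ring
    have hc1 : Tendsto (fun z' => lin (H y) (aff f i z') ^ (b y - w y)) (𝓝[≠] z)
        (𝓝 (lin (H y) (aff f i z) ^ (b y - w y))) :=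
      (((hL y).pow (b y - w y)).continuousOn.continuousAt
        (isOpen_ball.mem_nhds hz)).tendsto.mono_left nhdsWithin_le_nhds
    have hc2 : Tendsto (fun z' => Q z' * lin (H t) (aff f i z')) (𝓝[≠] z)
        (𝓝 (Q z * lin (H t) (aff f i z))) :=
      ((hQ.mul (hL t)).continuousOn.continuousAt
        (isOpen_ball.mem_nhds hz)).tendsto.mono_left nhdsWithin_le_nhds
    exact tendsto_nhds_unique (hc1.congr' hev) hc2
  have hde : d = (b y - w y) + (d - (b y - w y)) := by omega
  rw [Finset.prod_singleton, map_pow, eval_linP, pow_one]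
  calc lin (H y) (aff f i z) ^ d
      = lin (H y) (aff f i z) ^ (b y - w y) * lin (H y) (aff f i z) ^ (d - (b y - w y)) := by
        rw [← pow_add, ← hde]
    _ = _ := by
        rw [key]
        ring

end Pool.Agent.H97.HY
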