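import Pool.Agent.H97.HY.Defs
import Pool.Agent.H13.Borel.Borel
import Pool.Agent.H13.Borel.EntireLog

/-!
# Module Bor: Borel's theorem for zero free entire functions

Authors: helper97 (statement, plan), helper99 (proof), helper13 (Borel's theorem).
-/

open Metric Set Filter Topology

set_option autoImplicit false

namespace Pool.Agent.H97.HY

theorem borel_units {ι : Type*} [DecidableEq ι] (S : Finset ι) (u : ι → ℂ → ℂ) (c : ι → ℂ)
    (hu : ∀ j ∈ S, Differentiable ℂ (u j)) (hu0 : ∀ j ∈ S, ∀ z, u j z ≠ 0)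
    (hc : ∀ j ∈ S, c j ≠ 0) (hsum : ∀ z, ∑ j ∈ S, c j * u j z = 0) :
    ∀ j0 ∈ S, ∃ j ∈ S, j ≠ j0 ∧ ∃ k : ℂ, ∀ z, u j z = k * u j0 z := by
  classical
  intro j0 hj0
  by_contra hcon
  push Not at hcon
  have hlog : ∀ j : ι, ∃ φ : ℂ → ℂ, j ∈ S → (Differentiable ℂ φ ∧ ∀ z, u j z = Complex.exp (φ z)) := by
    intro j
    by_cases hj : j ∈ S
    · obtain ⟨φ, h1, h2⟩ := Pool.Agent.H13.Borel.exists_entire_log (hu j hj) (hu0 j hj)
      exact ⟨φ, fun _ => ⟨h1, h2⟩⟩
    · exact ⟨0, fun h => absurd h hj⟩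
  choose φ hφ using hlog
  have key := Pool.Agent.H13.Borel.borel_classes S
    (fun j => Polynomial.C (c j * Complex.exp (φ j 0))) (fun j z => φ j z - φ j 0)
    (fun j hj => (hφ j hj).1.sub_const _) (fun j _ => sub_self _)
    (by
      intro z
      rw [← hsum z]
      apply Finset.sum_congr rfl
      intro j hj
      rw [(hφ j hj).2 z, Polynomial.eval_C, mul_assoc, ← Complex.exp_add]
      congr 2
      ring)
    (fun z => φ j0 z - φ j0 0) {j0}
    (by
      intro i
      rw [Finset.mem_singleton]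
      constructor
      · rintro rfl
        exact ⟨hj0, rfl⟩
      · rintro ⟨hi, he⟩
        by_contra hne
        obtain ⟨z, hz⟩ := hcon i hi hne (Complex.exp (φ i 0 - φ j0 0))
        apply hz
        rw [(hφ i hi).2 z, (hφ j0 hj0).2 z, ← Complex.exp_add]
        congr 1
        have := congrFun he z
        linear_combination this)
  rw [Finset.sum_singleton] at key
  have h0 := Polynomial.C_eq_zero.mp key
  exact (mul_ne_zero (hc j0 hj0) (Complex.exp_ne_zero _)) h0

end Pool.Agent.H97.HY
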