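import Mathlib

/-!
# Module Cls: pure combinatorics of the classes in Green's theorem

PROOF HINTS.  For a class `C = {j ∈ O | R j j0}` with at least `m+1`
elements of `O` outside it, take `S = insert j0 (m+1 elements outside C)`, `|S| = m+2`: contradiction to `h`.
So every class has at least `m+1` elements (`|O \ C| ≤ m`, `|O| = 2m+1`); two different classes
are disjoint, total `≥ 2m+2 > |O|`.
-/

open Finset

set_option autoImplicit false

namespace Pool.Agent.H97.HY

theorem classes {ι : Type*} [DecidableEq ι] (m : ℕ) (O : Finset ι) (hO : O.card = 2 * m + 1)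
    (R : ι → ι → Prop) (hrefl : ∀ i ∈ O, R i i) (hsymm : ∀ i ∈ O, ∀ j ∈ O, R i j → R j i)
    (htrans : ∀ i ∈ O, ∀ j ∈ O, ∀ k ∈ O, R i j → R j k → R i k)
    (h : ∀ S ⊆ O, S.card = m + 2 → ∀ j0 ∈ S, ∃ j ∈ S, j ≠ j0 ∧ R j j0) :
    ∀ i ∈ O, ∀ j ∈ O, R i j := by
  classical
  have key : ∀ j0 ∈ O, m + 1 ≤ (O.filter (fun j => R j j0)).card := by
    intro j0 hj0
    by_contra hlt
    have h1 : (O.filter (fun j => R j j0)).card + (O.filter (fun j => ¬ R j j0)).card = O.card :=
      card_filter_add_card_filter_not _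
    have h2 : m + 1 ≤ (O.filter (fun j => ¬ R j j0)).card := by omega
    obtain ⟨T, hT, hTc⟩ := exists_subset_card_eq h2
    have hj0T : j0 ∉ T := fun hj => (mem_filter.1 (hT hj)).2 (hrefl j0 hj0)
    have hTO : T ⊆ O := hT.trans (filter_subset _ _)
    obtain ⟨j, hjS, hjne, hjR⟩ := h (insert j0 T) (insert_subset hj0 hTO)
      (by rw [card_insert_of_notMem hj0T, hTc]) j0 (mem_insert_self _ _)
    rcases mem_insert.1 hjS with rfl | hjT
    · exact hjne rfl
    · exact (mem_filter.1 (hT hjT)).2 hjR
  intro i hi j hj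
  by_contra hR
  have hdisj : Disjoint (O.filter (fun k => R k i)) (O.filter (fun k => R k j)) := by
    rw [disjoint_left]
    intro k hk hk'
    rw [mem_filter] at hk hk'
    exact hR (htrans i hi k hk.1 j hj (hsymm k hk.1 i hi hk.2) hk'.2)
  have h1 := card_union_of_disjoint hdisj
  have h2 : (O.filter (fun k => R k i) ∪ O.filter (fun k => R k j)).card ≤ O.card :=
    card_le_card (union_subset (filter_subset _ _) (filter_subset _ _))
  have h3 := key i hi
  have h4 := key j hj
  omega

end Pool.Agent.H97.HY
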