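import Pool.Agent.H97.HY.Defs

/-!
# Module Rel: linear relations in general position

PROOF HINTS.  `relation`: `N+2` vectors `H i` (`i ∈ S`) in the `N+1`-dimensional space
`Fin (N+1) → ℂ` are linearly dependent: `∑_{i∈S} c i • H i = 0` with some `c ≠ 0`
(`Module.exists_nontrivial_relation_of_finrank_lt_card` or `exists_ne_zero` version), so `∑ c i * lin (H i) x = 0` for all `x`.
If `c i0 = 0` for some `i0 ∈ S`, then `S.erase i0` has `N+1` elements and a nontrivial relation;
but `GenPos` says that the linear map `x ↦ (lin (H i) x)_{i ∈ S.erase i0}` from an `(N+1)`-dimensional space to an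
`(N+1)`-dimensional space is injective, hence surjective, so every `c i = 0` on `S.erase i0` (take
`x` with `lin (H i) x = 1` for one `i` and `0` for the others).
-/

open Finset

set_option autoImplicit false

namespace Pool.Agent.H97.HY

private lemma rel_lin_sub {N : ℕ} (c x y : Fin (N + 1) → ℂ) :
    lin c (x - y) = lin c x - lin c y := by
  simp only [lin, Pi.sub_apply, mul_sub, Finset.sum_sub_distrib]

/-- evaluation map of the forms in `T` -/
private noncomputable def relL {N q : ℕ} (H : Fin q → Fin (N + 1) → ℂ) (T : Finset (Fin q)) :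
    (Fin (N + 1) → ℂ) →ₗ[ℂ] (↥T → ℂ) where
  toFun x := fun i => lin (H i) x
  map_add' x y := by
    funext i
    simp only [lin, Pi.add_apply, mul_add, Finset.sum_add_distrib]
  map_smul' t x := by
    funext i
    simp only [lin_smul, Pi.smul_apply, RingHom.id_apply, smul_eq_mul]

private lemma relL_surj {N q : ℕ} {H : Fin q → Fin (N + 1) → ℂ} (hH : GenPos H)
    (T : Finset (Fin q)) (hT : T.card = N + 1) : Function.Surjective (relL H T) := by
  have hinj : Function.Injective (relL H T) := by
    rw [injective_iff_map_eq_zero]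
    intro x hx
    apply hH T hT x
    intro i hi
    have := congrFun hx ⟨i, hi⟩
    simpa [relL] using this
  have hfin : Module.finrank ℂ (Fin (N + 1) → ℂ) = Module.finrank ℂ (↥T → ℂ) := by
    rw [Module.finrank_fintype_fun_eq_card, Module.finrank_fintype_fun_eq_card]
    simp [hT]
  exact (LinearMap.injective_iff_surjective_of_finrank_eq_finrank hfin).mp hinj

theorem relation {N q : ℕ} {H : Fin q → Fin (N + 1) → ℂ} (hH : GenPos H) (S : Finset (Fin q))
    (hS : S.card = N + 2) :
    ∃ c : Fin q → ℂ, (∀ i ∈ S, c i ≠ 0) ∧ ∀ x : Fin (N + 1) → ℂ, ∑ i ∈ S, c i * lin (H i) x = 0 := by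
  classical
  have hdep : ¬ LinearIndependent ℂ (fun i : ↥S => H i) := by
    intro hli
    have h1 := hli.fintype_card_le_finrank
    rw [Module.finrank_fintype_fun_eq_card] at h1
    simp [hS] at h1
  obtain ⟨g, hg0, i1, hi1⟩ := Fintype.not_linearIndependent_iff.mp hdep
  let c : Fin q → ℂ := fun i => if h : i ∈ S then g ⟨i, h⟩ else 1
  have hc : ∀ x : Fin (N + 1) → ℂ, ∑ i ∈ S, c i * lin (H i) x = 0 := by
    intro x
    rw [← Finset.sum_coe_sort S (fun i => c i * lin (H i) x)]
    have h2 : ∀ i : ↥S, c i * lin (H i) x = ∑ k, (g i • H i) k * x k := by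
      intro i
      have : c i = g i := by simp [c]
      rw [this]
      simp only [lin, Finset.mul_sum, Pi.smul_apply, smul_eq_mul, mul_assoc]
    rw [Finset.sum_congr rfl (fun i _ => h2 i), Finset.sum_comm]
    apply Finset.sum_eq_zero
    intro k _
    rw [← Finset.sum_mul]
    have := congrFun hg0 k
    simp only [Finset.sum_apply, Pi.zero_apply] at this
    rw [this, zero_mul]
  refine ⟨c, ?_, hc⟩
  intro i0 hi0 hc0
  have hcard : (S.erase i0).card = N + 1 := by
    rw [Finset.card_erase_of_mem hi0, hS]; rfl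
  have hne : (i1 : Fin q) ≠ i0 := by
    intro h
    apply hi1
    have : c (i1 : Fin q) = g i1 := by simp [c]
    rw [← this, h, hc0]
  have hmem : (i1 : Fin q) ∈ S.erase i0 := Finset.mem_erase.mpr ⟨hne, i1.2⟩
  obtain ⟨x, hx⟩ := relL_surj hH (S.erase i0) hcard (Pi.single ⟨i1, hmem⟩ 1)
  have hxv : ∀ i (hi : i ∈ S.erase i0), lin (H i) x = if i = (i1 : Fin q) then 1 else 0 := by
    intro i hi
    have := congrFun hx ⟨i, hi⟩
    have h3 : relL H (S.erase i0) x ⟨i, hi⟩ = lin (H i) x := rfl
    rw [h3] at this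
    rw [this, Pi.single_apply]
    simp
  have hsum := hc x
  rw [← Finset.add_sum_erase S _ hi0, hc0, zero_mul, zero_add] at hsum
  rw [Finset.sum_eq_single (i1 : Fin q)] at hsum
  · rw [hxv _ hmem] at hsum
    simp at hsum
    apply hi1
    have : c (i1 : Fin q) = g i1 := by simp [c]
    rw [← this, hsum]
  · intro b hb hbne
    rw [hxv b hb]
    simp [hbne]
  · intro h
    exact absurd hmem h

/-- at most `N` of the forms vanish at a nonzero vector -/
theorem card_van_le {N q : ℕ} {H : Fin q → Fin (N + 1) → ℂ} (hH : GenPos H)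
    {x : Fin (N + 1) → ℂ} (hx : x ≠ 0) (S : Finset (Fin q)) (h : ∀ i ∈ S, lin (H i) x = 0) :
    S.card ≤ N := by
  by_contra hcon
  push Not at hcon
  obtain ⟨T, hTS, hT⟩ := Finset.exists_subset_card_eq (show N + 1 ≤ S.card by omega)
  exact hx (hH T hT x (fun i hi => h i (hTS hi)))

/-- two vectors on which `N+1` forms agree are equal -/
theorem eq_of_lin_eq {N q : ℕ} {H : Fin q → Fin (N + 1) → ℂ} (hH : GenPos H)
    {x y : Fin (N + 1) → ℂ} (S : Finset (Fin q)) (hS : N + 1 ≤ S.card)
    (h : ∀ i ∈ S, lin (H i) x = lin (H i) y) : x = y := by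
  obtain ⟨T, hTS, hT⟩ := Finset.exists_subset_card_eq hS
  have : x - y = 0 := by
    apply hH T hT
    intro i hi
    rw [rel_lin_sub, h i (hTS hi), sub_self]
  exact sub_eq_zero.mp this

end Pool.Agent.H97.HY
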