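import Pool.Agent.H97.HY.Bor
import Pool.Agent.H97.HY.Rel
import Pool.Agent.H97.HY.Cls

/-!
# Module Grn: Green's theorem for B-curves

PROOF HINTS.  Shrink `O` to exactly `2m+1` elements.  `o ∈ O`, `u j z = lin (H j) (f z) / lin (H o) (f z)`: entire (in a
chart it is a quotient of the holomorphic functions `lin (H j) (aff f i z)`; the denominator has no
zero) and zero free.  `x z := (lin (H o) (f z))⁻¹ • f z` satisfies `lin (H j) (x z) = u j z` and
`lin (H i) (x z) = 0` for `i ∈ J`.  If `m ≥ 1`: for every `S ⊆ O` with `|S| = m+2` the set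
`S ∪ J` has `N+2` elements; `relation` gives `∑_{j ∈ S} c j * u j z = 0`, and
`borel_units` gives the hypothesis of `classes` with `R j j' := ∃ k, ∀ z, u j z = k * u j' z` (an equivalence
relation on `O`: the constants are nonzero as the `u` have no zeros).  So all `u j` are constant multiples of `u o = 1`, and by `eq_of_lin_eq`
(`J ∪ O` has at least `N+1` elements) `x z = x 0` for all `z`; if `m = 0` the same holds with `O = {o}`.
Then every chart quotient `f z j / f z i = x z j / x z i` is constant near `0`, its derivative is `0`: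
contradiction to `Mov f`.
-/

open Metric Set Filter Topology Finset

set_option autoImplicit false

namespace Pool.Agent.H97.HY

theorem green {N q : ℕ} {f : ℂ → Fin (N + 1) → ℂ} (hf : BCurve f) {H : Fin q → Fin (N + 1) → ℂ}
    (hH : GenPos H) {J O : Finset (Fin q)} (hJ : ∀ i ∈ J, ∀ z, lin (H i) (f z) = 0) {m : ℕ}
    (hm : J.card + m = N) (hO : 2 * m + 1 ≤ O.card) (hOne : ∀ j ∈ O, ∀ z, lin (H j) (f z) ≠ 0) :
    False := by
  classical
  obtain ⟨O', hO'O, hO'c⟩ := exists_subset_card_eq hO
  have hne : ∀ j ∈ O', ∀ z, lin (H j) (f z) ≠ 0 := fun j hj => hOne j (hO'O hj)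
  obtain ⟨o, ho⟩ : O'.Nonempty := by
    rw [← card_pos]
    omega
  set u : Fin q → ℂ → ℂ := fun j z => lin (H j) (f z) / lin (H o) (f z) with hu
  have hu0 : ∀ j ∈ O', ∀ z, u j z ≠ 0 := fun j hj z => div_ne_zero (hne j hj z) (hne o ho z)
  have hdiff : ∀ j ∈ O', Differentiable ℂ (u j) := by
    intro j _ z0
    obtain ⟨i, hi⟩ := hf.chart z0
    have hlin : ∀ c : Fin (N + 1) → ℂ,
        DifferentiableOn ℂ (fun z => lin c (aff f i z)) (ball z0 rho) := by
      intro c
      unfold lin aff
      exact DifferentiableOn.fun_sum fun k _ => (hi.hol k).const_mul (c k)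
    have h1 : DifferentiableOn ℂ
        (fun z => lin (H j) (aff f i z) / lin (H o) (aff f i z)) (ball z0 rho) := by
      refine (hlin (H j)).div (hlin (H o)) fun z hz h0 => ?_
      exact hne o ho z ((lin_aff_eq_zero hi (H o) hz).1 h0)
    have h2 : DifferentiableOn ℂ (u j) (ball z0 rho) := by
      refine h1.congr fun z hz => ?_
      simp only [hu, lin_aff]
      have := hi.ne z hz
      rw [div_div_div_cancel_right₀ this]
    exact (h2 z0 (mem_ball_self rho_pos)).differentiableAt (ball_mem_nhds z0 rho_pos)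
  set x : ℂ → Fin (N + 1) → ℂ := fun z => (lin (H o) (f z))⁻¹ • f z with hx
  have hlx : ∀ j z, lin (H j) (x z) = u j z := by
    intro j z
    simp only [hx, hu, lin_smul]
    rw [mul_comm, div_eq_mul_inv]
  have hJx : ∀ i ∈ J, ∀ z, lin (H i) (x z) = 0 := by
    intro i hi z
    rw [hlx]
    simp only [hu]
    rw [hJ i hi z, zero_div]
  have hdisj : Disjoint J O' := by
    rw [Finset.disjoint_left]
    intro i hiJ hiO
    exact hne i hiO 0 (hJ i hiJ 0)
  have hcls : ∀ i ∈ O', ∀ j ∈ O', ∃ k : ℂ, ∀ z, u i z = k * u j z := by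
    refine classes m O' hO'c (fun i j => ∃ k : ℂ, ∀ z, u i z = k * u j z) ?_ ?_ ?_ ?_
    · exact fun i _ => ⟨1, fun z => (one_mul _).symm⟩
    · rintro i hi j _ ⟨k, hk⟩
      have hk0 : k ≠ 0 := by
        rintro rfl
        have := hk 0
        rw [zero_mul] at this
        exact hu0 i hi 0 this
      refine ⟨k⁻¹, fun z => ?_⟩
      rw [hk z, inv_mul_cancel_left₀ hk0]
    · rintro i _ j _ l _ ⟨k, hk⟩ ⟨k', hk'⟩
      exact ⟨k * k', fun z => by rw [hk z, hk' z, mul_assoc]⟩
    · intro S hS hSc
      have hSJ : Disjoint S J := (hdisj.mono_right hS).symm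
      obtain ⟨c, hc, hc'⟩ := relation hH (S ∪ J) (by
        rw [card_union_of_disjoint hSJ]
        omega)
      refine borel_units S u c (fun j hj => hdiff j (hS hj)) (fun j hj => hu0 j (hS hj))
        (fun j hj => hc j (mem_union_left _ hj)) ?_
      intro z
      have h1 := hc' (x z)
      rw [sum_union hSJ] at h1
      have h2 : ∑ i ∈ J, c i * lin (H i) (x z) = 0 :=
        sum_eq_zero fun i hi => by rw [hJx i hi z, mul_zero]
      rw [h2, add_zero] at h1
      rw [← h1]
      exact sum_congr rfl fun i _ => by rw [hlx]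
  have huo : ∀ z, u o z = 1 := fun z => div_self (hne o ho z)
  have hconst : ∀ z, x z = x 0 := by
    intro z
    refine eq_of_lin_eq hH (J ∪ O') ?_ ?_
    · rw [card_union_of_disjoint hdisj]
      omega
    · intro i hi
      rcases mem_union.1 hi with hi | hi
      · rw [hJx i hi, hJx i hi]
      · obtain ⟨k, hk⟩ := hcls i hi o ho
        rw [hlx, hlx, hk z, hk 0, huo, huo]
  obtain ⟨i, j, _, hd⟩ := hf.mov
  have hfun : (fun z => f z j / f z i) = fun _ => x 0 j / x 0 i := by
    funext z
    rw [← hconst z]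
    simp only [hx, Pi.smul_apply, smul_eq_mul]
    rw [mul_div_mul_left _ _ (inv_ne_zero (hne o ho z))]
  rw [hfun, deriv_const, norm_zero] at hd
  norm_num at hd

end Pool.Agent.H97.HY
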