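import Mathlib

/-!
# Module Uni: unions with controlled size

PROOF HINTS.  Some finite union has at least `u` elements (choose `z` for every `x ∈ Bad`).  Take `T` of minimal
cardinality with `u ≤ (T.biUnion S).card`; `T` is nonempty since `u ≥ 1`; removing one element
`z` gives a union with at most `u - 1` elements, and `S z` has at most `m`.
-/

open Finset

set_option autoImplicit false

namespace Pool.Agent.H97.HY

theorem union_chain {α ι : Type*} [DecidableEq α] [DecidableEq ι] (S : ι → Finset α) (m u : ℕ)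
    (hS : ∀ z, (S z).card ≤ m) (Bad : Finset α) (hBad : ∀ x ∈ Bad, ∃ z, x ∈ S z)
    (hu : u ≤ Bad.card) (hu1 : 1 ≤ u) :
    ∃ T : Finset ι, u ≤ (T.biUnion S).card ∧ (T.biUnion S).card + 1 ≤ u + m := by
  classical
  have hBadne : Bad.Nonempty := Finset.card_pos.1 (by omega)
  obtain ⟨x0, hx0⟩ := hBadne
  obtain ⟨z0, -⟩ := hBad x0 hx0
  have : Nonempty ι := ⟨z0⟩
  have hex : ∃ k, ∃ T : Finset ι, T.card = k ∧ u ≤ (T.biUnion S).card := by
    choose! g hg using hBad
    refine ⟨_, Bad.image g, rfl, hu.trans (Finset.card_le_card ?_)⟩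
    intro x hx
    exact Finset.mem_biUnion.2 ⟨g x, Finset.mem_image_of_mem g hx, hg x hx⟩
  obtain ⟨T, hTc, hT⟩ := Nat.find_spec hex
  have hmin := fun k (hk : k < Nat.find hex) => Nat.find_min hex hk
  refine ⟨T, hT, ?_⟩
  have hTne : T.Nonempty := by
    rw [Finset.nonempty_iff_ne_empty]
    rintro rfl
    simp at hT
    omega
  obtain ⟨z, hz⟩ := hTne
  have hlt : ((T.erase z).biUnion S).card < u := by
    by_contra hcon
    push Not at hcon
    refine hmin (T.erase z).card ?_ ⟨T.erase z, rfl, hcon⟩
    rw [← hTc]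
    exact Finset.card_erase_lt_of_mem hz
  have hle : (T.biUnion S).card ≤ ((T.erase z).biUnion S).card + (S z).card := by
    have : T.biUnion S ⊆ (T.erase z).biUnion S ∪ S z := by
      intro x hx
      obtain ⟨w, hw, hxw⟩ := Finset.mem_biUnion.1 hx
      by_cases hwz : w = z
      · subst hwz
        exact Finset.mem_union_right _ hxw
      · exact Finset.mem_union_left _ (Finset.mem_biUnion.2 ⟨w, Finset.mem_erase.2 ⟨hwz, hw⟩, hxw⟩)
    exact (Finset.card_le_card this).trans (Finset.card_union_le _ _)
  have := hS z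
  omega

end Pool.Agent.H97.HY
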