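import Pool.Agent.H97.HY.Lvl
import Pool.Agent.H97.HY.ConL
import Pool.Agent.H97.HY.LimV
import Pool.Agent.H97.HY.ConA

/-!
# Module Sta: the start

PROOF HINTS.  `s0` from `OC T ∅`.  Suppose that for all `k` the form `F k = prodP H a + C (1/(k+1)) * s0`
(homogeneous of degree `d`) has a B-curve `f k`.  `U = hyperfilter ℕ`, limit `g`
(`exists_limit_bcurve`), `eval (g z) (prodP H a) = 0` (`IsLim.eval_eq_zero`), so
`J = {i | ∀ z, lin (H i) (g z) = 0}` is nonempty (`exists_van_of_prod`).  `con_start` gives `Con (f k) Jᶜ a s0`,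
`con_limit_const` gives `Con g Jᶜ a s0`, `a = W 0`: `St T g J 0 ∅ s0`, contradiction (`|∅| + 1 ≤ |J|`).
-/

open Metric Set Filter Topology Finset

set_option autoImplicit false

namespace Pool.Agent.H97.HY

private theorem sta_tendsto : Tendsto (fun k : ℕ => 1 / ((k : ℂ) + 1))
    ((hyperfilter ℕ : Ultrafilter ℕ) : Filter ℕ) (𝓝 0) :=
  (tendsto_one_div_add_atTop_nhds_zero_nat (𝕜 := ℂ)).mono_left Nat.hyperfilter_le_atTop

theorem start {N q M d : ℕ} (T : Tow N q M d) (h : OC T ∅) :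
    ∃ F : MvPolynomial (Fin (N + 1)) ℂ, F.IsHomogeneous d ∧ ¬ Hits F := by
  classical
  obtain ⟨s0, hs0, hE⟩ := h
  by_contra hcon
  have hall : ∀ F : MvPolynomial (Fin (N + 1)) ℂ, F.IsHomogeneous d → Hits F := by
    intro F hF
    by_contra hF'
    exact hcon ⟨F, hF, hF'⟩
  have hP : (prodP T.H T.a).IsHomogeneous d := by
    have := prodP_hom T.H T.a
    rwa [T.a_sum] at this
  have hFk : ∀ k : ℕ, Hits (prodP T.H T.a + MvPolynomial.C (1 / ((k : ℂ) + 1)) * s0) := by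
    intro k
    refine hall _ (hP.add ?_)
    have := (MvPolynomial.isHomogeneous_C (Fin (N + 1)) (1 / ((k : ℂ) + 1))).mul hs0
    rwa [zero_add] at this
  choose f hf hf0 using hFk
  obtain ⟨g, hg⟩ := exists_limit_bcurve (hyperfilter ℕ) f (Eventually.of_forall hf)
  have hg0 : ∀ z, MvPolynomial.eval (g z) (prodP T.H T.a) = 0 :=
    IsLim.eval_eq_zero hg (fun z0 => Eventually.of_forall fun k => (hf k).chart z0) hP hs0
      sta_tendsto (fun z => Eventually.of_forall fun k => hf0 k z)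
  obtain ⟨j, hj⟩ := exists_van_of_prod hg.bcurve.chart T.H T.a hg0
  set J : Finset (Fin q) := univ.filter (fun i => ∀ z, lin (T.H i) (g z) = 0) with hJ
  have hmem : ∀ i, i ∈ J ↔ ∀ z, lin (T.H i) (g z) = 0 := by
    intro i
    simp [hJ]
  have hcard : (∅ : Finset (Fin M)).card + 1 ≤ J.card := by
    rw [Finset.card_empty, zero_add]
    exact Finset.card_pos.mpr ⟨j, (hmem j).mpr hj⟩
  refine hE J (Finset.notMem_empty J) 0 (Nat.zero_le _) ∅ hcard g ?_
  refine ⟨hg.bcurve, hmem, ?_, fun k hk => absurd hk (Nat.not_lt_zero _)⟩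
  rw [W_zero]
  refine con_limit_const hg T.H T.a s0 (A := Jᶜ) (B := Jᶜ) ?_ (Finset.Subset.refl _) ?_
  · refine Eventually.of_forall fun k => ?_
    have hk : (1 / ((k : ℂ) + 1)) ≠ 0 := by
      have : (k : ℂ) + 1 ≠ 0 := Nat.cast_add_one_ne_zero k
      exact one_div_ne_zero this
    exact con_start (hf k).chart T.a_sum hs0 hk (hf0 k) Jᶜ
  · intro i hi
    rw [Finset.mem_compl, hmem] at hi
    by_contra hne
    apply hi
    intro z
    by_contra hz
    exact hne ⟨z, hz⟩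

/-- openness -/
theorem open_not_hits {N d : ℕ} {F : MvPolynomial (Fin (N + 1)) ℂ} (hF : F.IsHomogeneous d)
    (h : ¬ Hits F) : ∃ ε > 0, ∀ F' : MvPolynomial (Fin (N + 1)) ℂ, F'.IsHomogeneous d →
      (∀ m, ‖F'.coeff m - F.coeff m‖ < ε) → ¬ Hits F' := by
  by_contra hcon
  have hall : ∀ k : ℕ, ∃ F' : MvPolynomial (Fin (N + 1)) ℂ, F'.IsHomogeneous d ∧
      (∀ m, ‖F'.coeff m - F.coeff m‖ < 1 / ((k : ℝ) + 1)) ∧ Hits F' := by
    intro k
    by_contra hk
    apply hcon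
    refine ⟨1 / ((k : ℝ) + 1), Nat.one_div_pos_of_nat, fun F' hF' hc hh => ?_⟩
    exact hk ⟨F', hF', hc, hh⟩
  choose Fk hFk hc f hf hf0 using hall
  obtain ⟨g, hg⟩ := exists_limit_bcurve (hyperfilter ℕ) f (Eventually.of_forall hf)
  refine h ⟨g, hg.bcurve, ?_⟩
  refine IsLim.eval_seq_eq_zero hg (fun z0 => Eventually.of_forall fun k => (hf k).chart z0) hF
    hFk (fun m => ?_) (fun z => Eventually.of_forall fun k => hf0 k z)
  rw [tendsto_iff_norm_sub_tendsto_zero]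
  have h0 : Tendsto (fun k : ℕ => 1 / ((k : ℝ) + 1))
      ((hyperfilter ℕ : Ultrafilter ℕ) : Filter ℕ) (𝓝 0) :=
    (tendsto_one_div_add_atTop_nhds_zero_nat (𝕜 := ℝ)).mono_left Nat.hyperfilter_le_atTop
  exact squeeze_zero (fun k => norm_nonneg _) (fun k => (hc k m).le) h0

end Pool.Agent.H97.HY
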