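import Pool.Agent.H97.HY.Defs

/-!
# Module BCa: bounded pointwise limits of holomorphic functions along an ultrafilter

PROOF HINTS.  Let `BC U F G z0 r`, `C` the bound.  Cauchy estimate: for `r' < r` and `z, w` in
`closedBall z0 r'` all `F k` (for `U`-almost all `k`) are Lipschitz with constant `C / (r - r')`
(Mathlib: `Complex.norm_deriv_le_of_forall_mem_sphere_norm_le` on spheres inside the ball plus the mean value
inequality on the convex ball, or `Complex.dist_le_...` from `Mathlib/Analysis/Complex/Schwarz`).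
So the limit `G` is Lipschitz there as well, and pointwise convergence plus equicontinuity on the
compact set `closedBall z0 r'` gives uniform convergence (finite `ε`-net).  Hence
`TendstoLocallyUniformlyOn F G U (ball z0 r)` and `TendstoLocallyUniformlyOn.differentiableOn`
(`Mathlib/Analysis/Complex/LocallyUniformLimit.lean`, general `NeBot` filters) gives holomorphy;
`TendstoLocallyUniformlyOn.deriv` gives the convergence of the derivatives.
-/

open Metric Set Filter Topology

set_option autoImplicit false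

namespace Pool.Agent.H97.HY

/-- Cauchy estimate: a holomorphic function bounded by `C` on `ball x (3 * s)` is Lipschitz on
`ball x s` with constant `C / s` -/
lemma lip_of_bdd {f : ℂ → ℂ} {x : ℂ} {s C : ℝ} (hs : 0 < s)
    (hol : DifferentiableOn ℂ f (ball x (3 * s))) (bdd : ∀ z ∈ ball x (3 * s), ‖f z‖ ≤ C)
    {y w : ℂ} (hy : y ∈ ball x s) (hw : w ∈ ball x s) : ‖f w - f y‖ ≤ C / s * ‖w - y‖ := by
  have hsub : ∀ z ∈ ball x s, closedBall z s ⊆ ball x (3 * s) := by
    intro z hz u hu
    rw [mem_ball] at hz ⊢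
    rw [mem_closedBall] at hu
    have := dist_triangle u z x
    linarith
  refine (convex_ball x s).norm_image_sub_le_of_norm_deriv_le (𝕜 := ℂ) ?_ ?_ hy hw
  · intro z hz
    exact hol.differentiableAt (isOpen_ball.mem_nhds (hsub z hz (mem_closedBall_self hs.le)))
  · intro z hz
    apply Complex.norm_deriv_le_of_forall_mem_sphere_norm_le hs
    · refine ⟨hol.mono (ball_subset_closedBall.trans (hsub z hz)), ?_⟩
      have : closure (ball z s) ⊆ ball x (3 * s) := closure_ball_subset_closedBall.trans (hsub z hz)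
      exact hol.continuousOn.mono this
    · intro u hu
      exact bdd u (hsub z hz (sphere_subset_closedBall hu))

/-- locally uniform convergence -/
theorem BC.loc {U : Ultrafilter ℕ} {F : ℕ → ℂ → ℂ} {G : ℂ → ℂ} {z0 : ℂ} {r : ℝ}
    (h : BC U F G z0 r) : TendstoLocallyUniformlyOn F G (U : Filter ℕ) (ball z0 r) := by
  obtain ⟨C0, hC0⟩ := h.bdd
  rw [Metric.tendstoLocallyUniformlyOn_iff]
  intro ε hε x hx
  obtain ⟨δ, hδ, hδb⟩ := Metric.isOpen_iff.mp isOpen_ball x hx
  set s : ℝ := δ / 3 with hs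
  have hspos : 0 < s := by positivity
  have h3s : ball x (3 * s) ⊆ ball z0 r := by
    have : 3 * s = δ := by rw [hs]; ring
    rw [this]; exact hδb
  set C : ℝ := max C0 1 with hC
  have hCpos : 0 < C := lt_of_lt_of_le one_pos (le_max_right _ _)
  have hxs : x ∈ ball x s := mem_ball_self hspos
  set η : ℝ := min s (ε * s / (4 * C)) with hη
  have hηpos : 0 < η := lt_min hspos (by positivity)
  have hηs : ball x η ⊆ ball x s := ball_subset_ball (min_le_left _ _)
  have hev : ∀ᶠ k in (U : Filter ℕ), ∀ y ∈ ball x η, dist (F k x) (F k y) ≤ ε / 4 := by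
    filter_upwards [h.hol, hC0] with k hk hb y hy
    have hb' : ∀ z ∈ ball x (3 * s), ‖F k z‖ ≤ C := fun z hz =>
      (hb z (h3s hz)).trans (le_max_left _ _)
    have h1 := lip_of_bdd hspos (hk.mono h3s) hb' (hηs hy) hxs
    rw [dist_eq_norm]
    refine h1.trans ?_
    have h2 : ‖x - y‖ ≤ ε * s / (4 * C) := by
      have : dist y x < η := hy
      rw [← dist_eq_norm, dist_comm]
      exact this.le.trans (min_le_right _ _)
    calc C / s * ‖x - y‖ ≤ C / s * (ε * s / (4 * C)) := by gcongr
      _ = ε / 4 := by field_simp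
  have hG : ∀ y ∈ ball x η, dist (G x) (G y) ≤ ε / 4 := by
    intro y hy
    have hyr : y ∈ ball z0 r := h3s (ball_subset_ball (by linarith) (hηs hy))
    have h1 := (h.lim x hx).dist (h.lim y hyr)
    refine le_of_tendsto h1 ?_
    filter_upwards [hev] with k hk
    exact hk y hy
  have hxlim : ∀ᶠ k in (U : Filter ℕ), dist (F k x) (G x) < ε / 4 :=
    (Metric.tendsto_nhds.mp (h.lim x hx)) (ε / 4) (by positivity)
  refine ⟨ball x η, mem_nhdsWithin_of_mem_nhds (ball_mem_nhds x hηpos), ?_⟩
  filter_upwards [hev, hxlim] with k hk hkx y hy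
  have h1 := hk y hy
  have h2 := hG y hy
  have h3 := dist_triangle4 (G y) (G x) (F k x) (F k y)
  rw [dist_comm (G y) (G x), dist_comm (G x) (F k x)] at h3
  linarith

/-- the limit is holomorphic -/
theorem BC.diff {U : Ultrafilter ℕ} {F : ℕ → ℂ → ℂ} {G : ℂ → ℂ} {z0 : ℂ} {r : ℝ}
    (h : BC U F G z0 r) : DifferentiableOn ℂ G (ball z0 r) :=
  h.loc.differentiableOn h.hol isOpen_ball

/-- the derivatives converge -/
theorem BC.deriv_tendsto {U : Ultrafilter ℕ} {F : ℕ → ℂ → ℂ} {G : ℂ → ℂ} {z0 : ℂ} {r : ℝ}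
    (h : BC U F G z0 r) {z : ℂ} (hz : z ∈ ball z0 r) :
    Tendsto (fun k => deriv (F k) z) (U : Filter ℕ) (𝓝 (deriv G z)) :=
  (h.loc.deriv h.hol isOpen_ball).tendsto_at hz

/-- uniform convergence on compact subsets -/
theorem BC.unif {U : Ultrafilter ℕ} {F : ℕ → ℂ → ℂ} {G : ℂ → ℂ} {z0 : ℂ} {r : ℝ}
    (h : BC U F G z0 r) {K : Set ℂ} (hK : IsCompact K) (hKr : K ⊆ ball z0 r) :
    TendstoUniformlyOn F G (U : Filter ℕ) K :=
  (tendstoLocallyUniformlyOn_iff_forall_isCompact isOpen_ball).mp h.loc K hKr hK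

/-- a bounded family of holomorphic functions has a limit along the ultrafilter -/
theorem BC.exists_lim {U : Ultrafilter ℕ} {F : ℕ → ℂ → ℂ} {z0 : ℂ} {r : ℝ}
    (hol : ∀ᶠ k in (U : Filter ℕ), DifferentiableOn ℂ (F k) (ball z0 r))
    (bdd : ∃ C : ℝ, ∀ᶠ k in (U : Filter ℕ), ∀ z ∈ ball z0 r, ‖F k z‖ ≤ C) :
    ∃ G, BC U F G z0 r := by
  have key : ∀ z, ∃ g : ℂ, z ∈ ball z0 r → Tendsto (fun k => F k z) (U : Filter ℕ) (𝓝 g) := by
    intro z
    by_cases hz : z ∈ ball z0 r
    · obtain ⟨C, hC⟩ := bdd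
      have hmem : (closedBall (0 : ℂ) C) ∈ Ultrafilter.map (fun k => F k z) U := by
        rw [Ultrafilter.mem_map]
        filter_upwards [hC] with k hk
        simpa using hk z hz
      obtain ⟨g, -, hg⟩ := (isCompact_closedBall (0 : ℂ) C).ultrafilter_le_nhds
        (Ultrafilter.map (fun k => F k z) U) (by rwa [le_principal_iff])
      exact ⟨g, fun _ => hg⟩
    · exact ⟨0, fun h => absurd h hz⟩
  choose G hG using key
  exact ⟨G, hol, bdd, hG⟩

end Pool.Agent.H97.HY
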