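import Pool.Agent.H97.HY.Defs

/-!
# Module BCb: algebra of bounded pointwise convergence

PROOF HINTS.  `Filter.Eventually.and`, boundedness of sums and products; polynomials by induction
(`MvPolynomial.induction_on`).
-/

open Metric Set Filter Topology

set_option autoImplicit false

namespace Pool.Agent.H97.HY

theorem BC.const {U : Ultrafilter ℕ} (c : ℂ) (z0 : ℂ) (r : ℝ) :
    BC U (fun _ _ => c) (fun _ => c) z0 r where
  hol := Eventually.of_forall fun _ => differentiableOn_const c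
  bdd := ⟨‖c‖, Eventually.of_forall fun _ _ _ => le_rfl⟩
  lim := fun _ _ => tendsto_const_nhds

/-- constants (in `z`) converging to a constant -/
theorem BC.const_seq {U : Ultrafilter ℕ} {c : ℕ → ℂ} {c0 : ℂ} (hc : Tendsto c (U : Filter ℕ) (𝓝 c0))
    (z0 : ℂ) (r : ℝ) : BC U (fun k _ => c k) (fun _ => c0) z0 r where
  hol := Eventually.of_forall fun k => differentiableOn_const (c k)
  bdd := by
    refine ⟨‖c0‖ + 1, ?_⟩
    have h1 := hc.norm.eventually (gt_mem_nhds (show ‖c0‖ < ‖c0‖ + 1 by linarith))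
    filter_upwards [h1] with k hk z _
    exact hk.le
  lim := fun _ _ => hc

theorem BC.add {U : Ultrafilter ℕ} {F F' : ℕ → ℂ → ℂ} {G G' : ℂ → ℂ} {z0 : ℂ} {r : ℝ}
    (h : BC U F G z0 r) (h' : BC U F' G' z0 r) :
    BC U (fun k z => F k z + F' k z) (fun z => G z + G' z) z0 r where
  hol := by
    filter_upwards [h.hol, h'.hol] with k h1 h2
    exact h1.add h2
  bdd := by
    obtain ⟨C, hC⟩ := h.bdd
    obtain ⟨C', hC'⟩ := h'.bdd
    refine ⟨C + C', ?_⟩
    filter_upwards [hC, hC'] with k h1 h2 z hz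
    exact (norm_add_le _ _).trans (add_le_add (h1 z hz) (h2 z hz))
  lim := fun z hz => (h.lim z hz).add (h'.lim z hz)

theorem BC.mul {U : Ultrafilter ℕ} {F F' : ℕ → ℂ → ℂ} {G G' : ℂ → ℂ} {z0 : ℂ} {r : ℝ}
    (h : BC U F G z0 r) (h' : BC U F' G' z0 r) :
    BC U (fun k z => F k z * F' k z) (fun z => G z * G' z) z0 r where
  hol := by
    filter_upwards [h.hol, h'.hol] with k h1 h2
    exact h1.mul h2
  bdd := by
    obtain ⟨C, hC⟩ := h.bdd
    obtain ⟨C', hC'⟩ := h'.bdd
    refine ⟨C * C', ?_⟩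
    filter_upwards [hC, hC'] with k h1 h2 z hz
    rw [norm_mul]
    exact mul_le_mul (h1 z hz) (h2 z hz) (norm_nonneg _) ((norm_nonneg _).trans (h1 z hz))
  lim := fun z hz => (h.lim z hz).mul (h'.lim z hz)

theorem BC.pow {U : Ultrafilter ℕ} {F : ℕ → ℂ → ℂ} {G : ℂ → ℂ} {z0 : ℂ} {r : ℝ}
    (h : BC U F G z0 r) (n : ℕ) :
    BC U (fun k z => F k z ^ n) (fun z => G z ^ n) z0 r := by
  induction n with
  | zero =>
    simp only [pow_zero]
    exact BC.const 1 z0 r
  | succ n ih =>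
    simp only [pow_succ]
    exact ih.mul h

theorem BC.sum {U : Ultrafilter ℕ} {ι : Type*} (S : Finset ι) {F : ι → ℕ → ℂ → ℂ}
    {G : ι → ℂ → ℂ} {z0 : ℂ} {r : ℝ} (h : ∀ i ∈ S, BC U (F i) (G i) z0 r) :
    BC U (fun k z => ∑ i ∈ S, F i k z) (fun z => ∑ i ∈ S, G i z) z0 r := by
  classical
  induction S using Finset.induction_on with
  | empty =>
    simp only [Finset.sum_empty]
    exact BC.const 0 z0 r
  | insert a S ha ih =>
    simp only [Finset.sum_insert ha]
    exact (h a (Finset.mem_insert_self a S)).add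
      (ih fun i hi => h i (Finset.mem_insert_of_mem hi))

theorem BC.prod {U : Ultrafilter ℕ} {ι : Type*} (S : Finset ι) {F : ι → ℕ → ℂ → ℂ}
    {G : ι → ℂ → ℂ} {z0 : ℂ} {r : ℝ} (h : ∀ i ∈ S, BC U (F i) (G i) z0 r) :
    BC U (fun k z => ∏ i ∈ S, F i k z) (fun z => ∏ i ∈ S, G i z) z0 r := by
  classical
  induction S using Finset.induction_on with
  | empty =>
    simp only [Finset.prod_empty]
    exact BC.const 1 z0 r
  | insert a S ha ih =>
    simp only [Finset.prod_insert ha]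
    exact (h a (Finset.mem_insert_self a S)).mul
      (ih fun i hi => h i (Finset.mem_insert_of_mem hi))

/-- polynomials in the coordinates -/
theorem BC.eval {U : Ultrafilter ℕ} {N : ℕ} {F : Fin (N + 1) → ℕ → ℂ → ℂ}
    {G : Fin (N + 1) → ℂ → ℂ} {z0 : ℂ} {r : ℝ} (h : ∀ i, BC U (F i) (G i) z0 r)
    (p : MvPolynomial (Fin (N + 1)) ℂ) :
    BC U (fun k z => MvPolynomial.eval (fun i => F i k z) p)
      (fun z => MvPolynomial.eval (fun i => G i z) p) z0 r := by
  induction p using MvPolynomial.induction_on with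
  | C a =>
    simp only [MvPolynomial.eval_C]
    exact BC.const a z0 r
  | add p q hp hq =>
    simp only [map_add]
    exact hp.add hq
  | mul_X p i hp =>
    simp only [map_mul, MvPolynomial.eval_X]
    exact hp.mul (h i)

/-- linear forms in the coordinates -/
theorem BC.lin {U : Ultrafilter ℕ} {N : ℕ} {F : Fin (N + 1) → ℕ → ℂ → ℂ}
    {G : Fin (N + 1) → ℂ → ℂ} {z0 : ℂ} {r : ℝ} (h : ∀ i, BC U (F i) (G i) z0 r)
    (c : Fin (N + 1) → ℂ) :
    BC U (fun k z => HY.lin c (fun i => F i k z)) (fun z => HY.lin c (fun i => G i z)) z0 r := by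
  unfold HY.lin
  exact BC.sum Finset.univ fun i _ => (BC.const (c i) z0 r).mul (h i)

/-- congruence on the ball, eventually -/
theorem BC.congr {U : Ultrafilter ℕ} {F F' : ℕ → ℂ → ℂ} {G G' : ℂ → ℂ} {z0 : ℂ} {r : ℝ}
    (h : BC U F G z0 r) (h1 : ∀ᶠ k in (U : Filter ℕ), ∀ z ∈ ball z0 r, F k z = F' k z)
    (h2 : ∀ z ∈ ball z0 r, G z = G' z) : BC U F' G' z0 r where
  hol := by
    filter_upwards [h.hol, h1] with k ha hb
    exact ha.congr fun z hz => (hb z hz).symm
  bdd := by
    obtain ⟨C, hC⟩ := h.bdd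
    refine ⟨C, ?_⟩
    filter_upwards [hC, h1] with k ha hb z hz
    rw [← hb z hz]
    exact ha z hz
  lim := fun z hz => by
    rw [← h2 z hz]
    refine (h.lim z hz).congr' ?_
    filter_upwards [h1] with k hk
    exact hk z hz

/-- smaller radius -/
theorem BC.mono {U : Ultrafilter ℕ} {F : ℕ → ℂ → ℂ} {G : ℂ → ℂ} {z0 : ℂ} {r r' : ℝ}
    (h : BC U F G z0 r) (hr : r' ≤ r) : BC U F G z0 r' where
  hol := by
    filter_upwards [h.hol] with k hk
    exact hk.mono (ball_subset_ball hr)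
  bdd := by
    obtain ⟨C, hC⟩ := h.bdd
    refine ⟨C, ?_⟩
    filter_upwards [hC] with k hk z hz
    exact hk z (ball_subset_ball hr hz)
  lim := fun z hz => h.lim z (ball_subset_ball hr hz)

end Pool.Agent.H97.HY
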