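import Pool.Agent.H97.HY.Der

/-!
# Module Chrt: bounded spherical derivative gives charts

PROOF HINTS.  `chart_of_DD`: choose `i` with `‖g z0 i‖ = ‖g z0‖` (`Pi.norm` is attained).  Fix
`z ∈ ball z0 rho` and the segment `γ t = z0 + t (z - z0)`, `t ∈ [0,1]`.  Claim:
`‖g (γ t)‖ ≤ 2 ‖g (γ t) i‖` for all `t ∈ [0,1]`.  Real induction (`IsClosed.Icc_subset_of_forall_exists_gt` or
`sSup`): if the claim holds on `[0,t]` then `g (γ s) i ≠ 0` there and `v = g_j / g_i` has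
`‖v'‖ = ‖g_i g_j' - g_j g_i'‖/‖g_i‖^2 ≤ DD * (‖g‖/‖g_i‖)^2 ≤ 2*4 = 8` on the segment, so
`‖v_j(γ t)‖ ≤ 1 + 8 * rho = 3/2` (`‖v_j(z0)‖ ≤ 1`), i.e. `‖g (γ t)‖ ≤ (3/2) ‖g (γ t) i‖`, strictly better than
needed, and the inequality with `2` persists slightly beyond `t` by continuity.
`mov_of_DD`: with `v_j = g_j/g_i`, `v_j' = deriv (fun z => g z j / g z i) 0`:
`(g_p g_r' - g_r g_p')/g_i^2 = v_p v_r' - v_r v_p'`, `‖v_p‖ ≤ 1` at `0`, `‖g 0 i‖ = ‖g 0‖`, so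
`1 = DD g 0 ≤ 2 max_j ‖v_j'‖`.
-/

open Metric Set Filter Topology

set_option autoImplicit false

namespace Pool.Agent.H97.HY

/-- derivative of the affine coordinates -/
private lemma chrt_deriv {N : ℕ} {g : ℂ → Fin (N + 1) → ℂ} (hg : Differentiable ℂ g)
    {z : ℂ} {i : Fin (N + 1)} (hi : g z i ≠ 0) (j : Fin (N + 1)) :
    HasDerivAt (fun z => g z j / g z i)
      ((deriv g z j * g z i - g z j * deriv g z i) / g z i ^ 2) z := by
  have h1 : HasDerivAt g (deriv g z) z := (hg z).hasDerivAt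
  have h2 := hasDerivAt_pi.1 h1
  exact (h2 j).div (h2 i) hi

/-- where `‖g‖ ≤ 2 ‖g_i‖` the affine coordinates have derivative at most `8` -/
private lemma chrt_bound {N : ℕ} {g : ℂ → Fin (N + 1) → ℂ} (hne : ∀ z, g z ≠ 0)
    {z : ℂ} {i : Fin (N + 1)} (hi : g z i ≠ 0) (h2 : ‖g z‖ ≤ 2 * ‖g z i‖) (hD : DD g z ≤ 2)
    (j : Fin (N + 1)) :
    ‖(deriv g z j * g z i - g z j * deriv g z i) / g z i ^ 2‖ ≤ 8 := by
  have h3 := DD_entry hne z i j
  have h4 : 0 < ‖g z i‖ := norm_pos_iff.2 hi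
  rw [norm_div, norm_pow, div_le_iff₀ (by positivity)]
  have h5 : deriv g z j * g z i - g z j * deriv g z i =
      g z i * deriv g z j - g z j * deriv g z i := by ring
  rw [h5]
  have h6 : DD g z * ‖g z‖ ^ 2 ≤ 2 * ‖g z‖ ^ 2 := mul_le_mul_of_nonneg_right hD (by positivity)
  have h7 : ‖g z‖ ^ 2 ≤ (2 * ‖g z i‖) ^ 2 := pow_le_pow_left₀ (norm_nonneg _) h2 2
  nlinarith

/-- the inequality `‖g‖ ≤ (3/2) ‖g_i‖` at the end of a segment on which `‖g‖ ≤ 2 ‖g_i‖` -/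
private lemma chrt_seg {N : ℕ} {g : ℂ → Fin (N + 1) → ℂ} (hg : Differentiable ℂ g)
    (hne : ∀ z, g z ≠ 0) {z0 w : ℂ} {i : Fin (N + 1)} (hi : ‖g z0 i‖ = ‖g z0‖)
    (hw : ‖w - z0‖ ≤ 1 / 16) (hD : ∀ z ∈ segment ℝ z0 w, DD g z ≤ 2)
    (h2 : ∀ z ∈ segment ℝ z0 w, ‖g z‖ ≤ 2 * ‖g z i‖) : ‖g w‖ ≤ 3 / 2 * ‖g w i‖ := by
  have hnz : ∀ z ∈ segment ℝ z0 w, g z i ≠ 0 := by
    intro z hz h0
    have := h2 z hz
    rw [h0, norm_zero, mul_zero] at this
    exact hne z (norm_le_zero_iff.1 this)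
  have hwi := hnz w (right_mem_segment ℝ z0 w)
  have hz0i := hnz z0 (left_mem_segment ℝ z0 w)
  rw [pi_norm_le_iff_of_nonneg (by positivity)]
  intro j
  have h3 : ‖g w j / g w i - g z0 j / g z0 i‖ ≤ 8 * ‖w - z0‖ :=
    Convex.norm_image_sub_le_of_norm_hasDerivWithin_le
      (f := fun z => g z j / g z i)
      (f' := fun z => (deriv g z j * g z i - g z j * deriv g z i) / g z i ^ 2)
      (fun z hz => (chrt_deriv hg (hnz z hz) j).hasDerivWithinAt)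
      (fun z hz => chrt_bound hne (hnz z hz) (h2 z hz) (hD z hz) j)
      (convex_segment z0 w) (left_mem_segment ℝ z0 w) (right_mem_segment ℝ z0 w)
  have h4 : ‖g z0 j / g z0 i‖ ≤ 1 := by
    rw [norm_div, div_le_one (norm_pos_iff.2 hz0i), hi]
    exact norm_le_pi_norm _ _
  have h5 : ‖g w j / g w i‖ ≤ 3 / 2 := by
    have : ‖g w j / g w i‖ ≤ ‖g w j / g w i - g z0 j / g z0 i‖ + ‖g z0 j / g z0 i‖ := by
      simpa using norm_add_le (g w j / g w i - g z0 j / g z0 i) (g z0 j / g z0 i)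
    linarith
  rwa [norm_div, div_le_iff₀ (norm_pos_iff.2 hwi)] at h5

private lemma chrt_key {N : ℕ} {g : ℂ → Fin (N + 1) → ℂ} (hg : Differentiable ℂ g)
    (hne : ∀ z, g z ≠ 0) {z0 : ℂ} (h : ∀ z ∈ ball z0 rho, DD g z ≤ 2) {i : Fin (N + 1)}
    (hi : ‖g z0 i‖ = ‖g z0‖) {z : ℂ} (hz : z ∈ ball z0 rho) : ‖g z‖ < 2 * ‖g z i‖ := by
  have hgc : Continuous g := hg.continuous
  have hz' : ‖z - z0‖ < 1 / 16 := by
    rw [mem_ball, dist_eq_norm] at hz
    exact hz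
  set γ : ℝ → ℂ := fun t => z0 + (t : ℂ) * (z - z0) with hγ
  have hγc : Continuous γ := by
    rw [hγ]; fun_prop
  have hγn : ∀ t ∈ Icc (0 : ℝ) 1, ‖γ t - z0‖ ≤ ‖z - z0‖ := by
    intro t ht
    rw [hγ]
    simp only [add_sub_cancel_left, norm_mul, Complex.norm_real, Real.norm_eq_abs,
      abs_of_nonneg ht.1]
    exact mul_le_of_le_one_left (norm_nonneg _) ht.2
  set T : Set ℝ := {t | 2 * ‖g (γ t) i‖ ≤ ‖g (γ t)‖} ∩ Icc 0 1 with hT
  have hTc : IsCompact T := by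
    refine IsCompact.inter_left isCompact_Icc (isClosed_le ?_ ?_)
    · exact continuous_const.mul (((continuous_apply i).comp (hgc.comp hγc)).norm)
    · exact (hgc.comp hγc).norm
  -- no bad point
  have hTe : T = ∅ := by
    by_contra hTn
    obtain ⟨t1, ht1, hmin⟩ := hTc.exists_isLeast (Set.nonempty_iff_ne_empty.2 hTn)
    have h01 : t1 ≠ 0 := by
      rintro rfl
      have h1 := ht1.1
      simp only [mem_ofPred_eq, hγ, Complex.ofReal_zero, zero_mul, add_zero, hi] at h1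
      have := norm_pos_iff.2 (hne z0)
      linarith
    have h01' : 0 < t1 := lt_of_le_of_ne ht1.2.1 (Ne.symm h01)
    have hlt : ∀ t ∈ Ico (0 : ℝ) t1, ‖g (γ t)‖ ≤ 3 / 2 * ‖g (γ t) i‖ := by
      intro t ht
      have ht' : t ∈ Icc (0 : ℝ) 1 := ⟨ht.1, ht.2.le.trans ht1.2.2⟩
      have hseg : ∀ w ∈ segment ℝ z0 (γ t), ∃ u ∈ Ico (0 : ℝ) t1, w = γ u := by
        intro w hw
        rw [segment_eq_image'] at hw
        obtain ⟨θ, hθ, rfl⟩ := hw
        refine ⟨θ * t, ⟨mul_nonneg hθ.1 ht.1, lt_of_le_of_lt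
          (mul_le_of_le_one_left ht.1 hθ.2) ht.2⟩, ?_⟩
        simp only [hγ, add_sub_cancel_left, Complex.real_smul]
        push_cast
        ring
      refine chrt_seg hg hne hi ((hγn t ht').trans hz'.le) ?_ ?_
      · intro w hw
        obtain ⟨u, hu, rfl⟩ := hseg w hw
        apply h
        rw [mem_ball, dist_eq_norm]
        exact lt_of_le_of_lt (hγn u ⟨hu.1, hu.2.le.trans ht1.2.2⟩) hz'
      · intro w hw
        obtain ⟨u, hu, rfl⟩ := hseg w hw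
        by_contra hcon
        have hu' : u ∈ T := ⟨(not_le.1 hcon).le, hu.1, hu.2.le.trans ht1.2.2⟩
        exact absurd (hmin hu') (not_le.2 hu.2)
    have hcl : t1 ∈ closure (Ico (0 : ℝ) t1) := by
      rw [closure_Ico (Ne.symm h01)]
      exact ⟨h01'.le, le_rfl⟩
    have h3 : ‖g (γ t1)‖ ≤ 3 / 2 * ‖g (γ t1) i‖ :=
      ContinuousWithinAt.closure_le (f := fun t => ‖g (γ t)‖) (g := fun t => 3 / 2 * ‖g (γ t) i‖)
        hcl (hgc.comp hγc).norm.continuousWithinAt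
        (continuous_const.mul
          (((continuous_apply i).comp (hgc.comp hγc)).norm)).continuousWithinAt hlt
    have h4 : 2 * ‖g (γ t1) i‖ ≤ ‖g (γ t1)‖ := ht1.1
    have := norm_pos_iff.2 (hne (γ t1))
    linarith
  by_contra hcon
  have h1 : (1 : ℝ) ∈ T := by
    refine ⟨?_, by norm_num, le_rfl⟩
    have : γ 1 = z := by simp [hγ]
    rw [mem_ofPred_eq, this]
    exact not_lt.1 hcon
  rw [hTe] at h1
  exact h1

theorem chart_of_DD {N : ℕ} {g : ℂ → Fin (N + 1) → ℂ} (hg : Differentiable ℂ g)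
    (hne : ∀ z, g z ≠ 0) {z0 : ℂ} (h : ∀ z ∈ ball z0 rho, DD g z ≤ 2) :
    ∃ i, Chart g z0 i ∧ ‖g z0 i‖ = ‖g z0‖ := by
  obtain ⟨i, hi⟩ : ∃ i, ‖g z0 i‖ = ‖g z0‖ := by
    obtain ⟨i, -, hi⟩ := Finset.exists_max_image Finset.univ (fun j => ‖g z0 j‖)
      (Finset.univ_nonempty)
    refine ⟨i, le_antisymm (norm_le_pi_norm _ _) ?_⟩
    rw [pi_norm_le_iff_of_nonneg (norm_nonneg _)]
    exact fun j => hi j (Finset.mem_univ j)
  have key : ∀ z ∈ ball z0 rho, ‖g z‖ < 2 * ‖g z i‖ := fun z hz => chrt_key hg hne h hi hz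
  have hnz : ∀ z ∈ ball z0 rho, g z i ≠ 0 := by
    intro z hz h0
    have h1 := key z hz
    rw [h0, norm_zero, mul_zero] at h1
    exact absurd h1 (not_lt.2 (norm_nonneg _))
  refine ⟨i, ⟨hnz, fun z hz j => (norm_le_pi_norm _ _).trans (key z hz).le, fun j z hz => ?_⟩, hi⟩
  exact (chrt_deriv hg (hnz z hz) j).differentiableAt.differentiableWithinAt

theorem mov_of_DD {N : ℕ} {g : ℂ → Fin (N + 1) → ℂ} (hg : Differentiable ℂ g)
    (hne : ∀ z, g z ≠ 0) {i : Fin (N + 1)} (hc : Chart g 0 i) (hi : ‖g 0 i‖ = ‖g 0‖)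
    (h : DD g 0 = 1) : Mov g := by
  by_contra hcon
  have hlt : ∀ j, ‖deriv (fun z => g z j / g z i) 0‖ < 1 / 4 := by
    intro j
    by_contra hj
    exact hcon ⟨i, j, hc, not_lt.1 hj⟩
  have hi0 : g 0 i ≠ 0 := hc.ne 0 (mem_ball_self rho_pos)
  have hpos : 0 < ‖g 0‖ := norm_pos_iff.2 (hne 0)
  have hv : ∀ j, ‖g 0 j / g 0 i‖ ≤ 1 := by
    intro j
    rw [norm_div, div_le_one (norm_pos_iff.2 hi0), hi]
    exact norm_le_pi_norm _ _
  have hb : ‖fun p : Fin (N + 1) × Fin (N + 1) =>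
      g 0 p.1 * deriv g 0 p.2 - g 0 p.2 * deriv g 0 p.1‖ ≤ ‖g 0‖ ^ 2 * (1 / 2) := by
    rw [pi_norm_le_iff_of_nonneg (by positivity)]
    rintro ⟨p, r⟩
    have e1 : g 0 p * deriv g 0 r - g 0 r * deriv g 0 p =
        g 0 i ^ 2 * ((g 0 p / g 0 i) * deriv (fun z => g z r / g z i) 0 -
          (g 0 r / g 0 i) * deriv (fun z => g z p / g z i) 0) := by
      rw [(chrt_deriv hg hi0 r).deriv, (chrt_deriv hg hi0 p).deriv]
      field_simp
      ring
    simp only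
    rw [e1, norm_mul, norm_pow, hi]
    refine mul_le_mul_of_nonneg_left ?_ (by positivity)
    refine (norm_sub_le _ _).trans ?_
    rw [norm_mul, norm_mul]
    have h1 := mul_le_mul (hv p) (hlt r).le (norm_nonneg _) zero_le_one
    have h2 := mul_le_mul (hv r) (hlt p).le (norm_nonneg _) zero_le_one
    linarith
  have h1 : DD g 0 ≤ 1 / 2 := by
    unfold DD
    rw [div_le_iff₀ (by positivity)]
    linarith
  linarith

end Pool.Agent.H97.HY
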