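import Mathlib

/-!
# Module Cnt: the generating function of the number of edges from A to B

PROOF HINTS.  `Finset.prod_univ_sum` / `Fintype.piFinset`: the sum over all functions `φ : κ → Fin q` of
`∏_k g k (φ k)` is `∏_k ∑_y g k y`, with `g k y = if tail k ∈ A ∧ y ∈ B then 1/8 else 1`
(`t^{e(A,B)} = ∏_k g k (φ k)`).  For `tail k ∈ A`: `∑_y g k y = q - |B| + |B|/8 = q - 7|B|/8`, otherwise `q`.
-/

open Finset

set_option autoImplicit false

namespace Pool.Agent.H97.HY

theorem count_sum {q M : ℕ} (tail : Fin M → Fin q) (A B : Finset (Fin q)) :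
    ∑ φ : Fin M → Fin q,
      ((1 : ℝ) / 8) ^ (univ.filter (fun k => tail k ∈ A ∧ φ k ∈ B)).card =
    ((q : ℝ) - 7 / 8 * B.card) ^ (univ.filter (fun k => tail k ∈ A)).card *
      (q : ℝ) ^ (univ.filter (fun k => tail k ∉ A)).card := by
  classical
  have h1 : ∀ φ : Fin M → Fin q,
      ((1 : ℝ) / 8) ^ (univ.filter (fun k => tail k ∈ A ∧ φ k ∈ B)).card =
        ∏ k, (if tail k ∈ A ∧ φ k ∈ B then (1 / 8 : ℝ) else 1) := by
    intro φ
    rw [Finset.prod_ite, Finset.prod_const, Finset.prod_const_one, mul_one]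
  simp_rw [h1]
  have h2 := Finset.prod_univ_sum (fun _ : Fin M => (univ : Finset (Fin q)))
    (fun k y => if tail k ∈ A ∧ y ∈ B then (1 / 8 : ℝ) else 1)
  rw [Fintype.piFinset_univ] at h2
  rw [← h2]
  have h3 : ∀ k : Fin M, ∑ y : Fin q, (if tail k ∈ A ∧ y ∈ B then (1 / 8 : ℝ) else 1) =
      if tail k ∈ A then (q : ℝ) - 7 / 8 * B.card else q := by
    intro k
    by_cases hk : tail k ∈ A
    · simp only [hk, true_and, if_true]
      have : ∀ y : Fin q, (if y ∈ B then (1 / 8 : ℝ) else 1) =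
          1 - (if y ∈ B then (7 / 8 : ℝ) else 0) := by
        intro y; split_ifs <;> norm_num
      simp_rw [this]
      rw [Finset.sum_sub_distrib, Finset.sum_ite_mem, Finset.univ_inter]
      simp
      ring
    · simp [hk]
  simp_rw [h3]
  rw [Finset.prod_ite, Finset.prod_const, Finset.prod_const]

end Pool.Agent.H97.HY
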