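import Mathlib

/-!
# Hyperbolic hypersurfaces of linear degree: definitions

Paper: `/team-store/h97_hyp_paper.md`.  `N` is the dimension of the projective space, vectors are
`Fin (N+1) → ℂ` with the sup norm.
-/

open Metric Set Filter Topology Finset

set_option autoImplicit false

namespace Pool.Agent.H97.HY

/-- radius of the charts -/
noncomputable def rho : ℝ := 1 / 16

lemma rho_pos : 0 < rho := by unfold rho; norm_num

/-- the representative of the point `[f z]` whose coordinate `i` is `1` -/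
noncomputable def aff {N : ℕ} (f : ℂ → Fin (N + 1) → ℂ) (i : Fin (N + 1)) (z : ℂ) :
    Fin (N + 1) → ℂ := fun j => f z j / f z i

/-- `(z0, i)` is a chart of the curve `f` (a curve is given by representatives `f z`, no continuity
of `f` itself is asked) -/
structure Chart {N : ℕ} (f : ℂ → Fin (N + 1) → ℂ) (z0 : ℂ) (i : Fin (N + 1)) : Prop where
  ne : ∀ z ∈ ball z0 rho, f z i ≠ 0
  le : ∀ z ∈ ball z0 rho, ∀ j, ‖f z j‖ ≤ 2 * ‖f z i‖
  hol : ∀ j, DifferentiableOn ℂ (fun z => f z j / f z i) (ball z0 rho)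

/-- nonconstancy at the origin, quantitative -/
def Mov {N : ℕ} (f : ℂ → Fin (N + 1) → ℂ) : Prop :=
  ∃ i j, Chart f 0 i ∧ 1 / 4 ≤ ‖deriv (fun z => f z j / f z i) 0‖

/-- B-curves: entire curves in projective space with uniform charts, moving at the origin -/
structure BCurve {N : ℕ} (f : ℂ → Fin (N + 1) → ℂ) : Prop where
  chart : ∀ z0, ∃ i, Chart f z0 i
  mov : Mov f

/-- the linear form with coefficient vector `c` -/
def lin {N : ℕ} (c x : Fin (N + 1) → ℂ) : ℂ := ∑ k, c k * x k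

/-- the linear form as a polynomial -/
noncomputable def linP {N : ℕ} (c : Fin (N + 1) → ℂ) : MvPolynomial (Fin (N + 1)) ℂ :=
  ∑ k, MvPolynomial.C (c k) * MvPolynomial.X k

/-- general position: a vector killed by `N+1` of the forms is zero -/
def GenPos {N q : ℕ} (H : Fin q → Fin (N + 1) → ℂ) : Prop :=
  ∀ S : Finset (Fin q), S.card = N + 1 → ∀ x : Fin (N + 1) → ℂ, (∀ i ∈ S, lin (H i) x = 0) → x = 0

/-- product of powers of the linear forms -/
noncomputable def prodP {N q : ℕ} (H : Fin q → Fin (N + 1) → ℂ) (b : Fin q → ℕ) :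
    MvPolynomial (Fin (N + 1)) ℂ := ∏ i, linP (H i) ^ b i

/-- the divisibility constraint: `s(f)` is divisible by `∏_{j ∈ A} h_j(f)^{w_j}` -/
def Con {N q : ℕ} (H : Fin q → Fin (N + 1) → ℂ) (f : ℂ → Fin (N + 1) → ℂ) (A : Finset (Fin q))
    (w : Fin q → ℕ) (s : MvPolynomial (Fin (N + 1)) ℂ) : Prop :=
  ∀ z0, ∃ i, Chart f z0 i ∧ ∃ Q : ℂ → ℂ, DifferentiableOn ℂ Q (ball z0 rho) ∧
    ∀ z ∈ ball z0 rho, MvPolynomial.eval (aff f i z) s = Q z * ∏ j ∈ A, lin (H j) (aff f i z) ^ w j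

/-- bounded pointwise convergence of holomorphic functions on a disc along an ultrafilter -/
structure BC (U : Ultrafilter ℕ) (F : ℕ → ℂ → ℂ) (G : ℂ → ℂ) (z0 : ℂ) (r : ℝ) : Prop where
  hol : ∀ᶠ k in (U : Filter ℕ), DifferentiableOn ℂ (F k) (ball z0 r)
  bdd : ∃ C : ℝ, ∀ᶠ k in (U : Filter ℕ), ∀ z ∈ ball z0 r, ‖F k z‖ ≤ C
  lim : ∀ z ∈ ball z0 r, Tendsto (fun k => F k z) (U : Filter ℕ) (𝓝 (G z))

/-- `g` is the limit of the curves `f k` along `U` -/
structure IsLim {N : ℕ} (U : Ultrafilter ℕ) (f : ℕ → ℂ → Fin (N + 1) → ℂ)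
    (g : ℂ → Fin (N + 1) → ℂ) : Prop where
  bcurve : BCurve g
  chart : ∀ z0 i, (∀ᶠ k in (U : Filter ℕ), Chart (f k) z0 i) → Chart g z0 i
  lim : ∀ z0 i, (∀ᶠ k in (U : Filter ℕ), Chart (f k) z0 i) → ∀ j,
    BC U (fun k z => f k z j / f k z i) (fun z => g z j / g z i) z0 rho

/-- the form `F` vanishes on some B-curve -/
def Hits {N : ℕ} (F : MvPolynomial (Fin (N + 1)) ℂ) : Prop :=
  ∃ f : ℂ → Fin (N + 1) → ℂ, BCurve f ∧ ∀ z, MvPolynomial.eval (f z) F = 0

/-- The combinatorial and linear data of the construction: `q` hyperplanes in general position in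
`P^N`, a list of `M` directed edges, and the exponents `a i ≥ outdegree(i) + 1` of sum `d`. -/
structure Tow (N q M d : ℕ) where
  H : Fin q → Fin (N + 1) → ℂ
  tail : Fin M → Fin q
  head : Fin M → Fin q
  a : Fin q → ℕ
  gen : GenPos H
  a_ge : ∀ i, (univ.filter (fun k => tail k = i)).card + 1 ≤ a i
  a_sum : ∑ i, a i = d

/-- remaining weight after the first `τ` edges -/
def Tow.W {N q M d : ℕ} (T : Tow N q M d) (τ : ℕ) (i : Fin q) : ℕ :=
  T.a i - (univ.filter (fun k : Fin M => (k : ℕ) < τ ∧ T.tail k = i)).card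

/-- the state: the curve `f` lies exactly in the hyperplanes of `J`, satisfies the constraint with
weights `W τ0` for the form `s`, and the edges before `τ0` outside `X` and not touching `J` are
gained: `h_head(f)^d` is divisible by `h_tail(f)`. -/
structure St {N q M d : ℕ} (T : Tow N q M d) (f : ℂ → Fin (N + 1) → ℂ) (J : Finset (Fin q))
    (τ0 : ℕ) (X : Finset (Fin M)) (s : MvPolynomial (Fin (N + 1)) ℂ) : Prop where
  bcurve : BCurve f
  mem_iff : ∀ i, i ∈ J ↔ ∀ z, lin (T.H i) (f z) = 0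
  con : Con T.H f Jᶜ (T.W τ0) s
  edge : ∀ k : Fin M, (k : ℕ) < τ0 → k ∉ X → T.tail k ∉ J → T.head k ∉ J →
    Con T.H f {T.tail k} (fun _ => 1) (linP (T.H (T.head k)) ^ d)

/-- exponents of the level `(J1, τ)` -/
def Tow.b {N q M d : ℕ} (T : Tow N q M d) (J1 : Finset (Fin q)) (τ : Fin M) (i : Fin q) : ℕ :=
  if i ∈ J1 then 0 else if i = T.head τ then
    d - ∑ j ∈ (J1ᶜ).erase (T.head τ), T.W (τ + 1) j else T.W (τ + 1) i

/-- `St` is empty -/
def Emp {N q M d : ℕ} (T : Tow N q M d) (s : MvPolynomial (Fin (N + 1)) ℂ) (J : Finset (Fin q))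
    (τ0 : ℕ) (X : Finset (Fin M)) : Prop := ∀ f, ¬ St T f J τ0 X s

/-- outer claim -/
def OC {N q M d : ℕ} (T : Tow N q M d) (P : Finset (Finset (Fin q))) : Prop :=
  ∃ s : MvPolynomial (Fin (N + 1)) ℂ, s.IsHomogeneous d ∧ ∀ J, J ∉ P → ∀ τ0 ≤ M,
    ∀ X : Finset (Fin M), X.card + 1 ≤ J.card → Emp T s J τ0 X

/-- inner claim -/
def IC {N q M d : ℕ} (T : Tow N q M d) (P : Finset (Finset (Fin q))) (J1 : Finset (Fin q))
    (τ : ℕ) : Prop :=
  ∃ s : MvPolynomial (Fin (N + 1)) ℂ, s.IsHomogeneous d ∧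
    (∀ J, J ∉ P → J ≠ J1 → ∀ τ0 ≤ M, ∀ X : Finset (Fin M), X.card + 1 ≤ J.card →
      Emp T s J τ0 X) ∧
    ∀ τ0, τ ≤ τ0 → τ0 ≤ M → ∀ X : Finset (Fin M), X.card + 1 ≤ J1.card → Emp T s J1 τ0 X

/-- the winning property of the data (proved from the expander property) -/
def Winning {N q M d : ℕ} (T : Tow N q M d) : Prop :=
  ∀ (s : MvPolynomial (Fin (N + 1)) ℂ) (J : Finset (Fin q)) (X : Finset (Fin M)),
    X.card + 1 ≤ J.card → Emp T s J M X

/-! ### trivial lemmas -/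

lemma eval_linP {N : ℕ} (c x : Fin (N + 1) → ℂ) : MvPolynomial.eval x (linP c) = lin c x := by
  simp [linP, lin]

lemma eval_prodP {N q : ℕ} (H : Fin q → Fin (N + 1) → ℂ) (b : Fin q → ℕ) (x : Fin (N + 1) → ℂ) :
    MvPolynomial.eval x (prodP H b) = ∏ i, lin (H i) x ^ b i := by
  simp [prodP, eval_linP, map_prod]

lemma linP_hom {N : ℕ} (c : Fin (N + 1) → ℂ) : (linP c).IsHomogeneous 1 := by
  unfold linP
  apply MvPolynomial.IsHomogeneous.sum
  intro i _
  have := (MvPolynomial.isHomogeneous_C (Fin (N + 1)) (c i)).mul (MvPolynomial.isHomogeneous_X ℂ i)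
  simpa using this

lemma prodP_hom {N q : ℕ} (H : Fin q → Fin (N + 1) → ℂ) (b : Fin q → ℕ) :
    (prodP H b).IsHomogeneous (∑ i, b i) := by
  unfold prodP
  apply MvPolynomial.IsHomogeneous.prod
  intro i _
  have := (linP_hom (H i)).pow (b i)
  simpa using this

lemma lin_smul {N : ℕ} (c x : Fin (N + 1) → ℂ) (t : ℂ) : lin c (t • x) = t * lin c x := by
  simp only [lin, Pi.smul_apply, smul_eq_mul, Finset.mul_sum]
  exact Finset.sum_congr rfl (fun _ _ => by ring)

lemma lin_aff {N : ℕ} (c : Fin (N + 1) → ℂ) (f : ℂ → Fin (N + 1) → ℂ) (i : Fin (N + 1)) (z : ℂ) :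
    lin c (aff f i z) = lin c (f z) / f z i := by
  simp only [lin, aff, Finset.sum_div]
  exact Finset.sum_congr rfl (fun _ _ => by ring)

/-- in a chart: `h(aff)=0 ↔ h(f)=0` -/
lemma lin_aff_eq_zero {N : ℕ} {f : ℂ → Fin (N + 1) → ℂ} {z0 : ℂ} {i : Fin (N + 1)}
    (h : Chart f z0 i) (c : Fin (N + 1) → ℂ) {z : ℂ} (hz : z ∈ ball z0 rho) :
    lin c (aff f i z) = 0 ↔ lin c (f z) = 0 := by
  rw [lin_aff, div_eq_zero_iff]
  simp [h.ne z hz]

lemma aff_smul {N : ℕ} {f : ℂ → Fin (N + 1) → ℂ} {z0 : ℂ} {i : Fin (N + 1)}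
    (h : Chart f z0 i) {z : ℂ} (hz : z ∈ ball z0 rho) : f z i • aff f i z = f z := by
  funext j
  have := h.ne z hz
  simp only [aff, Pi.smul_apply, smul_eq_mul]
  field_simp

/-- homogeneous forms: value at `f z` from the value in a chart -/
lemma eval_hom {N d : ℕ} {F : MvPolynomial (Fin (N + 1)) ℂ} (hF : F.IsHomogeneous d) (t : ℂ)
    (x : Fin (N + 1) → ℂ) : MvPolynomial.eval (t • x) F = t ^ d * MvPolynomial.eval x F := by
  rw [MvPolynomial.eval_eq', MvPolynomial.eval_eq', Finset.mul_sum]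
  apply Finset.sum_congr rfl
  intro m hm
  have hd : ∑ i, m i = d := by
    have := hF (MvPolynomial.mem_support_iff.mp hm)
    rw [← this, Finsupp.weight_apply, Finsupp.sum_fintype]
    · simp
    · simp
  simp only [Pi.smul_apply, smul_eq_mul, mul_pow, Finset.prod_mul_distrib]
  rw [Finset.prod_pow_eq_pow_sum, hd]
  ring

lemma eval_aff_iff {N d : ℕ} {F : MvPolynomial (Fin (N + 1)) ℂ} (hF : F.IsHomogeneous d)
    {f : ℂ → Fin (N + 1) → ℂ} {z0 : ℂ} {i : Fin (N + 1)}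
    (h : Chart f z0 i) {z : ℂ} (hz : z ∈ ball z0 rho) :
    MvPolynomial.eval (aff f i z) F = 0 ↔ MvPolynomial.eval (f z) F = 0 := by
  rw [← aff_smul h hz, eval_hom hF]
  have := h.ne z hz
  simp [this]

end Pool.Agent.H97.HY
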