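import Pool.Agent.H97.HY.Defs

/-!
# Module Der: the spherical derivative (sup norm version) of an entire curve

PROOF HINTS.  `deriv g z : Fin (N+1) → ℂ`, its coordinates are the derivatives of the coordinates
(`deriv_pi`).  Continuity: `g` is entire, hence `deriv g` continuous
(`Differentiable.contDiff`, `ContDiff.continuous_deriv`).
`DD_pos`: assume `DD g z = 0` for all `z`.  Choose `i` with `g 0 i ≠ 0`.  Near `0` all
`g · j / g · i` have derivative `(g_i g_j' - g_j g_i')/g_i^2 = 0`, so the entire function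
`z ↦ g z j * g 0 i - g z i * g 0 j` vanishes near `0`, hence everywhere (identity theorem); so
`g z = (g z i / g 0 i) • g 0`.
-/

open Metric Set Filter Topology

set_option autoImplicit false

namespace Pool.Agent.H97.HY

/-- spherical derivative, sup norm version -/
noncomputable def DD {N : ℕ} (g : ℂ → Fin (N + 1) → ℂ) (z : ℂ) : ℝ :=
  ‖fun p : Fin (N + 1) × Fin (N + 1) => g z p.1 * deriv g z p.2 - g z p.2 * deriv g z p.1‖ /
    ‖g z‖ ^ 2

theorem DD_nonneg {N : ℕ} (g : ℂ → Fin (N + 1) → ℂ) (z : ℂ) : 0 ≤ DD g z := by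
  unfold DD; positivity

private theorem Der_coord {N : ℕ} {g : ℂ → Fin (N + 1) → ℂ} (hg : Differentiable ℂ g) (i : Fin (N + 1)) :
    Differentiable ℂ (fun z => g z i) := fun z => (differentiableAt_pi.1 (hg z)) i

private theorem Der_deriv {N : ℕ} {g : ℂ → Fin (N + 1) → ℂ} (hg : Differentiable ℂ g) (z : ℂ)
    (i : Fin (N + 1)) : deriv g z i = deriv (fun z => g z i) z := by
  rw [deriv_pi fun j => Der_coord hg j z]

theorem DD_cont {N : ℕ} {g : ℂ → Fin (N + 1) → ℂ} (hg : Differentiable ℂ g)
    (hne : ∀ z, g z ≠ 0) : Continuous (DD g) := by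
  have h1 : Continuous g := hg.continuous
  have h2 : Continuous (deriv g) := (hg.contDiff (n := 1)).continuous_deriv le_rfl
  unfold DD
  refine Continuous.div ?_ (h1.norm.pow 2) fun z => pow_ne_zero 2 (norm_ne_zero_iff.2 (hne z))
  refine Continuous.norm ?_
  refine continuous_pi fun p => ?_
  exact (((continuous_apply p.1).comp h1).mul ((continuous_apply p.2).comp h2)).sub
    (((continuous_apply p.2).comp h1).mul ((continuous_apply p.1).comp h2))

theorem DD_scale {N : ℕ} {g : ℂ → Fin (N + 1) → ℂ} (hg : Differentiable ℂ g) (x l z : ℂ) :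
    DD (fun w => g (x + l * w)) z = ‖l‖ * DD g (x + l * z) := by
  have hd : deriv (fun w => g (x + l * w)) z = l • deriv g (x + l * z) := by
    have h1 : HasDerivAt (fun w : ℂ => x + l * w) l z := by
      simpa using ((hasDerivAt_id z).const_mul l).const_add x
    exact ((hg (x + l * z)).hasDerivAt.scomp z h1).deriv
  unfold DD
  rw [hd]
  have e : (fun p : Fin (N + 1) × Fin (N + 1) => g (x + l * z) p.1 * (l • deriv g (x + l * z)) p.2 -
      g (x + l * z) p.2 * (l • deriv g (x + l * z)) p.1) =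
      l • fun p : Fin (N + 1) × Fin (N + 1) => g (x + l * z) p.1 * deriv g (x + l * z) p.2 -
      g (x + l * z) p.2 * deriv g (x + l * z) p.1 := by
    funext p
    simp only [Pi.smul_apply, smul_eq_mul]
    ring
  show ‖fun p : Fin (N + 1) × Fin (N + 1) => g (x + l * z) p.1 * (l • deriv g (x + l * z)) p.2 -
      g (x + l * z) p.2 * (l • deriv g (x + l * z)) p.1‖ / ‖g (x + l * z)‖ ^ 2 = _
  rw [e, norm_smul, mul_div_assoc]

theorem DD_pos {N : ℕ} {g : ℂ → Fin (N + 1) → ℂ} (hg : Differentiable ℂ g)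
    (hne : ∀ z, g z ≠ 0) (hnc : ¬ ∀ z, ∃ c : ℂ, g z = c • g 0) : ∃ z, 0 < DD g z := by
  by_contra hcon
  push Not at hcon
  apply hnc
  have hz : ∀ z (i j : Fin (N + 1)), g z i * deriv g z j - g z j * deriv g z i = 0 := by
    intro z i j
    have h0 : DD g z = 0 := le_antisymm (hcon z) (DD_nonneg g z)
    unfold DD at h0
    rw [div_eq_zero_iff] at h0
    rcases h0 with h0 | h0
    · have := congrFun (norm_eq_zero.1 h0) (i, j)
      simpa using this
    · exact absurd h0 (pow_ne_zero 2 (norm_ne_zero_iff.2 (hne z)))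
  obtain ⟨i, hi⟩ := Function.ne_iff.1 (hne 0)
  have hi0 : g 0 i ≠ 0 := hi
  have hgi := Der_coord hg i
  have hnb : ∀ᶠ z in 𝓝 (0 : ℂ), g z i ≠ 0 :=
    (hgi.continuous.continuousAt (x := (0 : ℂ))).eventually_ne hi0
  obtain ⟨r, hr, hball⟩ := Metric.eventually_nhds_iff_ball.1 hnb
  -- the ratios are constant near zero
  have hratio : ∀ j, ∀ z ∈ ball (0 : ℂ) r, g z j / g z i = g 0 j / g 0 i := by
    intro j z hz'
    have hgj := Der_coord hg j
    have hdiff : DifferentiableOn ℂ (fun z => g z j / g z i) (ball 0 r) := fun w hw =>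
      ((hgj w).div (hgi w) (hball w hw)).differentiableWithinAt
    have hder : Set.EqOn (deriv fun z => g z j / g z i) 0 (ball 0 r) := by
      intro w hw
      have h1 := ((hgj w).hasDerivAt.div (hgi w).hasDerivAt (hball w hw)).deriv
      rw [← Der_deriv hg, ← Der_deriv hg] at h1
      show deriv (fun z => g z j / g z i) w = 0
      refine Eq.trans h1 ?_
      have h2 := hz w i j
      rw [show deriv g w j * g w i - g w j * deriv g w i = 0 by rw [← h2]; ring, zero_div]
    exact isOpen_ball.is_const_of_deriv_eq_zero (convex_ball 0 r).isPreconnected hdiff hder hz'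
      (mem_ball_self hr)
  have hlin : ∀ j z, g z j * g 0 i - g z i * g 0 j = 0 := by
    intro j
    have hgj := Der_coord hg j
    have han : AnalyticOnNhd ℂ (fun z => g z j * g 0 i - g z i * g 0 j) Set.univ :=
      (((hgj.mul_const (g 0 i)).sub (hgi.mul_const (g 0 j))).differentiableOn).analyticOnNhd
        isOpen_univ
    have hev : (fun z => g z j * g 0 i - g z i * g 0 j) =ᶠ[𝓝 (0 : ℂ)] 0 := by
      filter_upwards [ball_mem_nhds (0 : ℂ) hr] with z hz'
      have h1 := hratio j z hz'
      rw [div_eq_div_iff (hball z hz') hi0] at h1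
      show g z j * g 0 i - g z i * g 0 j = 0
      rw [h1]; ring
    have := han.eqOn_zero_of_preconnected_of_eventuallyEq_zero isPreconnected_univ
      (Set.mem_univ 0) hev
    intro z
    exact this (Set.mem_univ z)
  intro z
  refine ⟨g z i / g 0 i, ?_⟩
  funext j
  have h1 := hlin j z
  simp only [Pi.smul_apply, smul_eq_mul]
  field_simp
  linear_combination h1

/-- entries of the Wronskian matrix are bounded by `DD g z * ‖g z‖ ^ 2` -/
theorem DD_entry {N : ℕ} {g : ℂ → Fin (N + 1) → ℂ} (hne : ∀ z, g z ≠ 0) (z : ℂ)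
    (i j : Fin (N + 1)) :
    ‖g z i * deriv g z j - g z j * deriv g z i‖ ≤ DD g z * ‖g z‖ ^ 2 := by
  unfold DD
  rw [div_mul_cancel₀ _ (pow_ne_zero 2 (norm_ne_zero_iff.2 (hne z)))]
  exact norm_le_pi_norm (fun p : Fin (N + 1) × Fin (N + 1) =>
    g z p.1 * deriv g z p.2 - g z p.2 * deriv g z p.1) (i, j)

end Pool.Agent.H97.HY
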