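import Mathlib

/-!
# Module Num: the numerical inequality

PROOF HINTS.  `u = (3N+1)/2`, `2u ≥ 3N`.  Both sides are positive: compare the squares.
`LHS^2 = 81^(2N) (43/64)^(22u) ≤ 81^(2N) (43/64)^(33N)` and
`RHS^2 = (1/8)^(2(N-2)) = 64^2 * (1/64)^N`; so it is enough that
`(6561 * 64 * (43/64)^33)^N < 64^2`, true because `6561 * 64 * (43/64)^33 < 1` (`norm_num`).
-/

set_option autoImplicit false

namespace Pool.Agent.H97.HY

theorem num_ineq {N : ℕ} (hN : 2 ≤ N) :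
    (3 : ℝ) ^ (4 * N) * (43 / 64) ^ (11 * ((3 * N + 1) / 2)) < (1 / 8) ^ (N - 2) := by
  have hu : 3 * N ≤ 2 * ((3 * N + 1) / 2) := by omega
  set u := (3 * N + 1) / 2 with hudef
  apply lt_of_pow_lt_pow_left₀ 2 (by positivity)
  have h1 : ((3 : ℝ) ^ (4 * N) * (43 / 64) ^ (11 * u)) ^ 2 ≤
      ((6561 : ℝ) * (43 / 64) ^ 33) ^ N := by
    rw [mul_pow, ← pow_mul, ← pow_mul, mul_pow, ← pow_mul]
    have e1 : (3 : ℝ) ^ (4 * N * 2) = 6561 ^ N := by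
      rw [show 4 * N * 2 = 8 * N by ring, pow_mul]; norm_num
    rw [e1]
    apply mul_le_mul_of_nonneg_left _ (by positivity)
    apply pow_le_pow_of_le_one (by norm_num) (by norm_num)
    omega
  have h2 : (((1 : ℝ) / 8) ^ (N - 2)) ^ 2 = 64 ^ 2 * (1 / 64) ^ N := by
    obtain ⟨M, rfl⟩ : ∃ M, N = M + 2 := ⟨N - 2, by omega⟩
    rw [← pow_mul, Nat.add_sub_cancel, mul_comm M 2, pow_mul, pow_add]
    norm_num
    ring
  rw [h2]
  refine lt_of_le_of_lt h1 ?_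
  have h3 : ((6561 : ℝ) * (43 / 64) ^ 33) ≤ 1 / 64 := by norm_num
  have h4 : ((6561 : ℝ) * (43 / 64) ^ 33) ^ N ≤ (1 / 64) ^ N :=
    pow_le_pow_left₀ (by positivity) h3 N
  refine lt_of_le_of_lt h4 ?_
  have h5 : (0 : ℝ) < (1 / 64) ^ N := by positivity
  nlinarith

end Pool.Agent.H97.HY
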