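import Mathlib

/-!
# Module Prs: number of pairs of disjoint sets

PROOF HINTS.  Inject `(A, B)` with `A`, `B` disjoint into functions `Fin q → Fin 3`:
`i ↦ if i ∈ A then 0 else if i ∈ B then 1 else 2` (`Finset.card_le_card_of_injOn`,
`Fintype.card_fun`).
-/

open Finset

set_option autoImplicit false

namespace Pool.Agent.H97.HY

theorem card_pairs (q u : ℕ) :
    ((univ : Finset (Finset (Fin q) × Finset (Fin q))).filter
      (fun p => Disjoint p.1 p.2 ∧ p.1.card = u ∧ p.2.card = u)).card ≤ 3 ^ q := by
  classical
  have hc : (univ : Finset (Fin q → Fin 3)).card = 3 ^ q := by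
    rw [Finset.card_univ, Fintype.card_fun, Fintype.card_fin, Fintype.card_fin]
  rw [← hc]
  apply Finset.card_le_card_of_injOn
    (fun p : Finset (Fin q) × Finset (Fin q) =>
      fun i => if i ∈ p.1 then (0 : Fin 3) else if i ∈ p.2 then 1 else 2)
  · intro p _
    exact Finset.mem_coe.2 (Finset.mem_univ _)
  · rintro ⟨A, B⟩ h ⟨A', B'⟩ h' he
    simp only [Finset.coe_filter, Finset.mem_univ, true_and, Set.mem_ofPred_eq] at h h'
    have hd := h.1
    have hd' := h'.1
    have key : ∀ i, (if i ∈ A then (0 : Fin 3) else if i ∈ B then 1 else 2) =
        (if i ∈ A' then (0 : Fin 3) else if i ∈ B' then 1 else 2) := fun i => congrFun he i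
    have hA : A = A' := by
      ext i
      have := key i
      constructor
      · intro hi
        by_contra hi'
        rw [if_pos hi, if_neg hi'] at this
        split_ifs at this <;> exact absurd this (by decide)
      · intro hi
        by_contra hi'
        rw [if_neg hi', if_pos hi] at this
        split_ifs at this <;> exact absurd this (by decide)
    subst hA
    have hB : B = B' := by
      ext i
      have := key i
      constructor
      · intro hi
        have hiA : i ∉ A := fun h1 => (Finset.disjoint_left.1 hd h1 hi)
        by_contra hi'
        rw [if_neg hiA, if_pos hi, if_neg hiA, if_neg hi'] at this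
        exact absurd this (by decide)
      · intro hi
        have hiA : i ∉ A := fun h1 => (Finset.disjoint_left.1 hd' h1 hi)
        by_contra hi'
        rw [if_neg hiA, if_neg hi', if_neg hiA, if_pos hi] at this
        exact absurd this (by decide)
    subst hB
    rfl

end Pool.Agent.H97.HY
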