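import Pool.Agent.H97.HY.Cnt
import Pool.Agent.H97.HY.Num
import Pool.Agent.H97.HY.Prs

/-!
# Module Gr: existence of the digraph

PROOF HINTS.  `tail k = k / 11` (`Fin (44 N)` has `44 N = 11 * 4N` elements; every value `< 4N` is taken exactly `11`
times).  `u = (3N+1)/2`, so `2u ≥ 3N`.  Suppose every `head = φ` is bad: there are disjoint `A, B` of
size `u` with `e_φ(A,B) ≤ N - 2`, so `(1/8)^{e_φ(A,B)} ≥ 8^{-(N-2)}`.  Sum over `φ` and over all pairs
`(A,B)` of disjoint sets of size `u` (at most `3^{4N}` pairs: inject into functions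
`Fin (4N) → Fin 3`), `count_sum` with `|{k | tail k ∈ A}| = 11 u`, `q = 4N`:
`q^{44N} 8^{-(N-2)} ≤ 3^{4N} (q - 7u/8)^{11u} q^{44N - 11u}`, i.e.
`8^{-(N-2)} ≤ 81^N (1 - 7u/(8q))^{11u} ≤ 81^N (43/64)^{11u}` as `u/q ≥ 3/8`; square:
`8^{-2N} 64^2 ≤ 81^{2N} (43/64)^{22u} ≤ 81^{2N} (43/64)^{33N}`, so `64^2 ≤ (648^2 (43/64)^{33})^N < 1`
(`648^2 (43/64)^33 < 1` by `norm_num`).
-/

open Finset

set_option autoImplicit false

namespace Pool.Agent.H97.HY

private def grTail (N : ℕ) (k : Fin (44 * N)) : Fin (4 * N) :=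
  ⟨(k : ℕ) / 11, by have := k.2; omega⟩

private theorem grTail_card (N : ℕ) (v : Fin (4 * N)) :
    (univ.filter (fun k => grTail N k = v)).card = 11 := by
  have h1 : (univ.filter (fun k => grTail N k = v)).card = (Finset.range 11).card := by
    symm
    refine Finset.card_bij (fun i hi => (⟨11 * (v : ℕ) + i, by
      have h2 := v.2
      have h3 := mem_range.mp hi
      omega⟩ : Fin (44 * N))) ?_ ?_ ?_
    · intro i hi
      have h3 := mem_range.mp hi
      rw [mem_filter]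
      refine ⟨mem_univ _, ?_⟩
      apply Fin.ext
      simp only [grTail]
      omega
    · intro i hi j hj hij
      have := congrArg Fin.val hij
      simp only at this
      omega
    · intro k hk
      have h3 := (mem_filter.mp hk).2
      have h4 := congrArg Fin.val h3
      simp only [grTail] at h4
      refine ⟨(k : ℕ) - 11 * (v : ℕ), ?_, ?_⟩
      · rw [mem_range]
        omega
      · apply Fin.ext
        simp only
        omega
  rw [h1, card_range]

private theorem grTail_mem (N : ℕ) (A : Finset (Fin (4 * N))) :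
    (univ.filter (fun k => grTail N k ∈ A)).card = 11 * A.card := by
  have h1 : univ.filter (fun k => grTail N k ∈ A) =
      A.biUnion (fun v => univ.filter (fun k => grTail N k = v)) := by
    ext k
    simp
  rw [h1, card_biUnion]
  · rw [sum_congr rfl (fun v _ => grTail_card N v), sum_const, smul_eq_mul, mul_comm]
  · intro v _ w _ hvw
    rw [Function.onFun, Finset.disjoint_left]
    intro k hk hk'
    exact hvw ((mem_filter.mp hk).2.symm.trans (mem_filter.mp hk').2)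

theorem exists_graph (N : ℕ) (hN : 2 ≤ N) : ∃ tail head : Fin (44 * N) → Fin (4 * N),
    (∀ v, (univ.filter (fun k => tail k = v)).card = 11) ∧
    ∀ A B : Finset (Fin (4 * N)), Disjoint A B → A.card = (3 * N + 1) / 2 →
      B.card = (3 * N + 1) / 2 →
      N - 1 ≤ (univ.filter (fun k => tail k ∈ A ∧ head k ∈ B)).card := by
  refine ⟨grTail N, ?_⟩
  by_contra hcon
  have hbad : ∀ φ : Fin (44 * N) → Fin (4 * N), ∃ A B : Finset (Fin (4 * N)), Disjoint A B ∧
      A.card = (3 * N + 1) / 2 ∧ B.card = (3 * N + 1) / 2 ∧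
      (univ.filter (fun k => grTail N k ∈ A ∧ φ k ∈ B)).card ≤ N - 2 := by
    intro φ
    by_contra h
    apply hcon
    refine ⟨φ, grTail_card N, ?_⟩
    intro A B hAB hA hB
    by_contra h2
    exact h ⟨A, B, hAB, hA, hB, by omega⟩
  set u := (3 * N + 1) / 2 with hu
  set P := (univ : Finset (Finset (Fin (4 * N)) × Finset (Fin (4 * N)))).filter
      (fun p => Disjoint p.1 p.2 ∧ p.1.card = u ∧ p.2.card = u) with hP
  have hPc : (P.card : ℝ) ≤ 3 ^ (4 * N) := by
    exact_mod_cast card_pairs (4 * N) u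
  have h1 : ∀ φ : Fin (44 * N) → Fin (4 * N), ((1 : ℝ) / 8) ^ (N - 2) ≤
      ∑ p ∈ P, ((1 : ℝ) / 8) ^ (univ.filter (fun k => grTail N k ∈ p.1 ∧ φ k ∈ p.2)).card := by
    intro φ
    obtain ⟨A, B, hAB, hA, hB, hc⟩ := hbad φ
    have hmem : (A, B) ∈ P := mem_filter.mpr ⟨mem_univ _, hAB, hA, hB⟩
    refine le_trans ?_ (single_le_sum (f := fun p : Finset (Fin (4 * N)) × Finset (Fin (4 * N)) =>
      ((1 : ℝ) / 8) ^ (univ.filter (fun k => grTail N k ∈ p.1 ∧ φ k ∈ p.2)).card)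
      (fun p _ => by positivity) hmem)
    exact pow_le_pow_of_le_one (by norm_num) (by norm_num) hc
  have h2 : ∑ _φ : Fin (44 * N) → Fin (4 * N), ((1 : ℝ) / 8) ^ (N - 2) ≤
      ∑ φ : Fin (44 * N) → Fin (4 * N),
      ∑ p ∈ P, ((1 : ℝ) / 8) ^ (univ.filter (fun k => grTail N k ∈ p.1 ∧ φ k ∈ p.2)).card :=
    sum_le_sum (fun φ _ => h1 φ)
  rw [sum_const, sum_comm, card_univ, Fintype.card_fun, Fintype.card_fin, Fintype.card_fin,
    nsmul_eq_mul] at h2
  push_cast at h2
  have hN0 : (0 : ℝ) < N := by exact_mod_cast (by omega : 0 < N)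
  have huN : (3 : ℝ) * N ≤ 2 * u := by
    have : 3 * N ≤ 2 * u := by omega
    exact_mod_cast this
  have huq : u ≤ 4 * N := by omega
  have h3 : ∀ p ∈ P, ∑ φ : Fin (44 * N) → Fin (4 * N),
      ((1 : ℝ) / 8) ^ (univ.filter (fun k => grTail N k ∈ p.1 ∧ φ k ∈ p.2)).card ≤
      (43 / 64) ^ (11 * u) * (4 * (N : ℝ)) ^ (44 * N) := by
    intro p hp
    obtain ⟨hp1, hp2, hp3⟩ := (mem_filter.mp hp).2
    rw [count_sum (grTail N) p.1 p.2, grTail_mem, hp2, hp3]
    have h4 : (univ.filter (fun k => grTail N k ∉ p.1)).card = 44 * N - 11 * u := by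
      have h5 := card_filter_add_card_filter_not (s := (univ : Finset (Fin (44 * N))))
        (fun k => grTail N k ∈ p.1)
      rw [grTail_mem, hp2, card_univ, Fintype.card_fin] at h5
      omega
    rw [h4]
    push_cast
    have h6 : (4 * (N : ℝ) - 7 / 8 * u) ≤ 43 / 64 * (4 * N) := by linarith
    have h7 : 0 ≤ (4 * (N : ℝ) - 7 / 8 * u) := by
      have : (u : ℝ) ≤ 4 * N := by exact_mod_cast huq
      linarith
    have h8 : (4 * (N : ℝ) - 7 / 8 * u) ^ (11 * u) ≤ (43 / 64 * (4 * N)) ^ (11 * u) :=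
      pow_le_pow_left₀ h7 h6 _
    have h9 : (0 : ℝ) ≤ (4 * (N : ℝ)) ^ (44 * N - 11 * u) := by positivity
    refine (mul_le_mul_of_nonneg_right h8 h9).trans (le_of_eq ?_)
    rw [mul_pow, mul_assoc, ← pow_add]
    congr 2
    omega
  have h4 := sum_le_sum h3
  rw [sum_const, nsmul_eq_mul] at h4
  have h5 := h2.trans h4
  have h6 : (P.card : ℝ) * ((43 / 64) ^ (11 * u) * (4 * (N : ℝ)) ^ (44 * N)) ≤
      3 ^ (4 * N) * ((43 / 64) ^ (11 * u) * (4 * (N : ℝ)) ^ (44 * N)) :=
    mul_le_mul_of_nonneg_right hPc (by positivity)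
  have h7 := h5.trans h6
  have h8 : (0 : ℝ) < (4 * (N : ℝ)) ^ (44 * N) := by positivity
  have h9 : ((1 : ℝ) / 8) ^ (N - 2) * (4 * (N : ℝ)) ^ (44 * N) ≤
      (3 ^ (4 * N) * (43 / 64) ^ (11 * u)) * (4 * (N : ℝ)) ^ (44 * N) := by
    calc ((1 : ℝ) / 8) ^ (N - 2) * (4 * (N : ℝ)) ^ (44 * N)
        = (4 * (N : ℝ)) ^ (44 * N) * ((1 : ℝ) / 8) ^ (N - 2) := by ring
      _ ≤ _ := h7
      _ = _ := by ring
  have h10 := le_of_mul_le_mul_right h9 h8
  have h11 := num_ineq hN
  rw [← hu] at h11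
  exact absurd h10 (not_le.mpr h11)

end Pool.Agent.H97.HY
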