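import Pool.Agent.H97.HY.Tra

/-!
# Module Inn: the inner induction step

PROOF HINTS.  `s'` from `IC T P J1 (τ+1)`.
Case A: `tail τ ∈ J1` or `head τ ∈ J1` or `tail τ = head τ`: the same `s'` works; the only new claim is
`Emp T s' J1 τ X`: a curve in `St T f J1 τ X s'` is in `St T f J1 (τ+1) X s'` (`Con.mono`, `W_anti`;
the edge `τ` itself either touches `J1` or is a loop: `con_loop`, `d ≥ 1` because `M ≥ 1`,
`a ≥ 1`).
Case B: otherwise.  Suppose for every `k : ℕ` the form `s_k = prodP H (b J1 τ) + C (1/(k+1)) * s'` (homogeneous of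
degree `d`: `b_sum`, `prodP_hom`) fails.  The failure at `k` gives `(J, τ0, X)` (finitely many: `Finset (Fin q)`, `Fin (M+1)`, `Finset (Fin M)`) and a
curve; with `U = hyperfilter ℕ`, `pick` gives a constant `(J, τ0, X)`, either of the first kind
(`J ∉ P`, `J ≠ J1`): then `¬ J ⊆ J1` (else `|J| < |J1|`, so `J ∈ P` by `hP1`), take `i ∈ J \ J1`: `b i ≠ 0` (`b_pos`),
`con_of_van`: `f k` is in `St T (f k) J τ0 X s'`: contradiction; or `J = J1`, `τ ≤ τ0`: apply
`transition`.  `J' ⊇ J1`.  First alternative: if `J' = J1` contradiction to the second part of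
`IC (τ+1)`, if `J' ≠ J1` then `|J1| < |J'|`, `J' ∉ P` by `hP2`, contradiction to the first part.
Second alternative: `|insert τ X| + 1 ≤ |X| + 2 ≤ |J1| + 1 ≤ |J'|`, first part.  Third: second part.
-/

open Metric Set Filter Topology Finset

set_option autoImplicit false

namespace Pool.Agent.H97.HY

private lemma inn_d_pos {N q M d : ℕ} (T : Tow N q M d) (τ : Fin M) : 1 ≤ d := by
  have h1 : 1 ≤ T.a (T.tail τ) := le_trans (Nat.le_add_left 1 _) (T.a_ge (T.tail τ))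
  have h2 : T.a (T.tail τ) ≤ ∑ i, T.a i :=
    Finset.single_le_sum (fun _ _ => Nat.zero_le _) (Finset.mem_univ _)
  rw [T.a_sum] at h2
  exact h1.trans h2

/-- the state does not notice an edge touching `J1` or a loop -/
private lemma inn_skip {N q M d : ℕ} (T : Tow N q M d) (J1 : Finset (Fin q)) (τ : Fin M)
    (hcase : T.tail τ ∈ J1 ∨ T.head τ ∈ J1 ∨ T.tail τ = T.head τ)
    {s' : MvPolynomial (Fin (N + 1)) ℂ} {X : Finset (Fin M)} {f : ℂ → Fin (N + 1) → ℂ}
    (hf : St T f J1 τ X s') : St T f J1 (τ + 1) X s' := by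
  refine ⟨hf.bcurve, hf.mem_iff, ?_, ?_⟩
  · exact hf.con.mono (Finset.Subset.refl _) (fun i _ => W_anti T (Nat.le_succ _) i)
  · intro k hk hkX hkt hkh
    rcases Nat.lt_succ_iff_lt_or_eq.mp hk with hk' | hk'
    · exact hf.edge k hk' hkX hkt hkh
    · have hkτ : k = τ := Fin.ext hk'
      subst hkτ
      rcases hcase with h | h | h
      · exact absurd h hkt
      · exact absurd h hkh
      · rw [← h]
        exact con_loop (inn_d_pos T k) hf.bcurve.chart _

theorem inner_step {N q M d : ℕ} (T : Tow N q M d) (P : Finset (Finset (Fin q)))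
    (J1 : Finset (Fin q)) (hP1 : ∀ J : Finset (Fin q), J.card < J1.card → J ∈ P)
    (hP2 : ∀ J ∈ P, J.card ≤ J1.card) (τ : Fin M) (h : IC T P J1 (τ + 1)) : IC T P J1 τ := by
  classical
  obtain ⟨s', hs'd, hs1, hs2⟩ := h
  by_cases hcase : T.tail τ ∈ J1 ∨ T.head τ ∈ J1 ∨ T.tail τ = T.head τ
  · refine ⟨s', hs'd, hs1, ?_⟩
    intro τ0 h1 h2 X hX f hf
    rcases Nat.lt_or_ge (τ : ℕ) τ0 with hlt | hge
    · exact hs2 τ0 hlt h2 X hX f hf
    · have heq : τ0 = τ := le_antisymm hge h1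
      subst heq
      exact hs2 _ le_rfl τ.isLt X hX f (inn_skip T J1 τ hcase hf)
  · push Not at hcase
    obtain ⟨ht, hh, hth⟩ := hcase
    by_contra hcon
    have hδ0 : ∀ k : ℕ, ((1 : ℂ) / ((k : ℂ) + 1)) ≠ 0 := by
      intro k
      exact one_div_ne_zero (Nat.cast_add_one_ne_zero k)
    have hδ : Tendsto (fun k : ℕ => (1 : ℂ) / ((k : ℂ) + 1)) atTop (𝓝 0) :=
      tendsto_one_div_add_atTop_nhds_zero_nat
    set U : Ultrafilter ℕ := Filter.hyperfilter ℕ with hU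
    have hUat : (U : Filter ℕ) ≤ atTop := by
      rw [hU, ← Nat.cofinite_eq_atTop]
      exact Filter.hyperfilter_le_cofinite
    have hδU : Tendsto (fun k : ℕ => (1 : ℂ) / ((k : ℂ) + 1)) (U : Filter ℕ) (𝓝 0) :=
      hδ.mono_left hUat
    have hhom : ∀ k : ℕ, (prodP T.H (T.b J1 τ) +
        MvPolynomial.C ((1 : ℂ) / ((k : ℂ) + 1)) * s').IsHomogeneous d := by
      intro k
      apply MvPolynomial.IsHomogeneous.add
      · have := prodP_hom T.H (T.b J1 τ)
        rwa [b_sum T J1 τ hh] at this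
      · have := (MvPolynomial.isHomogeneous_C (Fin (N + 1)) ((1 : ℂ) / ((k : ℂ) + 1))).mul hs'd
        rwa [zero_add] at this
    -- the failure of each form
    have hfail : ∀ k : ℕ, ∃ y : Finset (Fin q) × Fin (M + 1) × Finset (Fin M),
        ((y.1 ∉ P ∧ y.1 ≠ J1) ∨ (y.1 = J1 ∧ (τ : ℕ) ≤ (y.2.1 : ℕ))) ∧
        y.2.2.card + 1 ≤ y.1.card ∧
        ∃ f, St T f y.1 (y.2.1 : ℕ) y.2.2
          (prodP T.H (T.b J1 τ) + MvPolynomial.C ((1 : ℂ) / ((k : ℂ) + 1)) * s') := by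
      intro k
      by_contra hno
      push Not at hno
      apply hcon
      refine ⟨_, hhom k, ?_, ?_⟩
      · intro J hJ hJ1 τ0 hτ0 X hX f hf
        exact hno (J, ⟨τ0, Nat.lt_succ_of_le hτ0⟩, X) (Or.inl ⟨hJ, hJ1⟩) hX f hf
      · intro τ0 h1 h2 X hX f hf
        exact hno (J1, ⟨τ0, Nat.lt_succ_of_le h2⟩, X) (Or.inr ⟨rfl, h1⟩) hX f hf
    obtain ⟨y, hy⟩ := pick (U := U) (Filter.Eventually.of_forall hfail)
    obtain ⟨J, τ0, X⟩ := y
    simp only at hy
    have hXJ : X.card + 1 ≤ J.card := by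
      obtain ⟨k, hk⟩ := hy.exists
      exact hk.2.1
    have hτ0M : (τ0 : ℕ) ≤ M := Nat.lt_succ_iff.mp τ0.isLt
    have hcase2 : (J ∉ P ∧ J ≠ J1) ∨ (J = J1 ∧ (τ : ℕ) ≤ (τ0 : ℕ)) := by
      obtain ⟨k, hk⟩ := hy.exists
      exact hk.1
    rcases hcase2 with ⟨hJP, hJJ1⟩ | ⟨hJJ1, hττ0⟩
    · -- the level is invisible
      obtain ⟨k, hk⟩ := hy.exists
      obtain ⟨-, -, f, hf⟩ := hk
      have hns : ¬ J ⊆ J1 := by
        intro hsub
        exact hJP (hP1 J (Finset.card_lt_card (lt_of_le_of_ne hsub hJJ1)))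
      obtain ⟨i, hiJ, hiJ1⟩ := Finset.not_subset.mp hns
      refine hs1 J hJP hJJ1 τ0 hτ0M X hXJ f ⟨hf.bcurve, hf.mem_iff, ?_, hf.edge⟩
      exact con_of_van (hδ0 k) (b_pos T J1 τ hiJ1) ((hf.mem_iff i).mp hiJ) hf.con
    · subst hJJ1
      choose! F hF using fun (k : ℕ) (hk : ∃ f, St T f J (τ0 : ℕ) X
        (prodP T.H (T.b J τ) + MvPolynomial.C ((1 : ℂ) / ((k : ℂ) + 1)) * s')) => hk
      obtain ⟨g, J', hsub, halt⟩ := transition T J τ ht hh hth s' X τ0 hττ0 U _ hδU hδ0 F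
        (hy.mono (fun k hk => hF k hk.2.2))
      have hlarge : J' ≠ J → J.card < J'.card ∧ J' ∉ P := by
        intro hne
        have hlt := Finset.card_lt_card (lt_of_le_of_ne hsub (Ne.symm hne))
        exact ⟨hlt, fun hP => absurd (hP2 J' hP) (not_le.mpr hlt)⟩
      rcases halt with ⟨hlt, hst⟩ | ⟨heq, hne, hst⟩ | ⟨heq, -, hst⟩
      · by_cases hJJ : J' = J
        · subst hJJ
          exact hs2 τ0 hlt hτ0M X hXJ g hst
        · exact hs1 J' (hlarge hJJ).2 hJJ τ0 hτ0M X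
            (hXJ.trans (hlarge hJJ).1.le) g hst
      · refine hs1 J' (hlarge hne).2 hne (τ + 1) τ.isLt (insert τ X) ?_ g hst
        have h1 := Finset.card_insert_le τ X
        have h2 := (hlarge hne).1
        omega
      · exact hs2 (τ + 1) le_rfl τ.isLt X hXJ g hst

end Pool.Agent.H97.HY
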