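import Pool.Agent.H97.HY.Defs

/-!
# Module Lvl: arithmetic of the weights

PROOF HINTS.  `W (τ+1) i = W τ i` for `i ≠ tail τ`, `W (τ+1) (tail τ) + 1 = W τ (tail τ)`, `1 ≤ W τ i ≤ a i`
(`a_ge`), `W` decreasing in `τ`.  `b`: the sum over all `i` is `d` because
`∑_{j ∈ J1ᶜ.erase head} W (τ+1) j ≤ ∑_{j ≠ head} a j ≤ d`.  `b head = d - ∑ ... ≥ d - ∑_{j ≠ head} a j = a head ≥ W τ0 head`.
-/

open Finset

set_option autoImplicit false

namespace Pool.Agent.H97.HY

theorem W_zero {N q M d : ℕ} (T : Tow N q M d) : T.W 0 = T.a := by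
  funext i
  simp [Tow.W]

theorem W_anti {N q M d : ℕ} (T : Tow N q M d) {τ τ' : ℕ} (h : τ ≤ τ') (i : Fin q) :
    T.W τ' i ≤ T.W τ i := by
  unfold Tow.W
  apply Nat.sub_le_sub_left
  apply card_le_card
  intro k hk
  simp only [mem_filter, mem_univ, true_and] at hk ⊢
  exact ⟨lt_of_lt_of_le hk.1 h, hk.2⟩

private theorem Lvl_card {N q M d : ℕ} (T : Tow N q M d) (τ : ℕ) (i : Fin q) :
    (univ.filter (fun k : Fin M => (k : ℕ) < τ ∧ T.tail k = i)).card + 1 ≤ T.a i := by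
  refine le_trans (Nat.add_le_add_right ?_ 1) (T.a_ge i)
  apply card_le_card
  intro k hk
  simp only [mem_filter, mem_univ, true_and] at hk ⊢
  exact hk.2

theorem W_pos {N q M d : ℕ} (T : Tow N q M d) (τ : ℕ) (i : Fin q) : 1 ≤ T.W τ i := by
  have := Lvl_card T τ i
  unfold Tow.W
  omega

private theorem Lvl_W_le {N q M d : ℕ} (T : Tow N q M d) (τ : ℕ) (i : Fin q) :
    T.W τ i ≤ T.a i := Nat.sub_le _ _

theorem W_succ_tail {N q M d : ℕ} (T : Tow N q M d) (τ : Fin M) :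
    T.W (τ + 1) (T.tail τ) + 1 = T.W τ (T.tail τ) := by
  have h1 := Lvl_card T (τ + 1) (T.tail τ)
  have h2 : (univ.filter (fun k : Fin M => (k : ℕ) < τ + 1 ∧ T.tail k = T.tail τ)) =
      insert τ (univ.filter (fun k : Fin M => (k : ℕ) < τ ∧ T.tail k = T.tail τ)) := by
    ext k
    simp only [mem_filter, mem_univ, true_and, mem_insert]
    constructor
    · rintro ⟨h3, h4⟩
      by_cases hk : k = τ
      · exact Or.inl hk
      · refine Or.inr ⟨?_, h4⟩
        have : (k : ℕ) ≠ τ := fun h => hk (Fin.ext h)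
        omega
    · rintro (rfl | ⟨h3, h4⟩)
      · exact ⟨Nat.lt_succ_self _, rfl⟩
      · exact ⟨by omega, h4⟩
  have h3 : (univ.filter (fun k : Fin M => (k : ℕ) < τ + 1 ∧ T.tail k = T.tail τ)).card =
      (univ.filter (fun k : Fin M => (k : ℕ) < τ ∧ T.tail k = T.tail τ)).card + 1 := by
    rw [h2, card_insert_of_notMem]
    simp
  unfold Tow.W
  omega

theorem W_succ_ne {N q M d : ℕ} (T : Tow N q M d) (τ : Fin M) {i : Fin q} (hi : i ≠ T.tail τ) :
    T.W (τ + 1) i = T.W τ i := by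
  have h2 : (univ.filter (fun k : Fin M => (k : ℕ) < τ + 1 ∧ T.tail k = i)) =
      (univ.filter (fun k : Fin M => (k : ℕ) < τ ∧ T.tail k = i)) := by
    ext k
    simp only [mem_filter, mem_univ, true_and]
    constructor
    · rintro ⟨h3, h4⟩
      refine ⟨?_, h4⟩
      have : (k : ℕ) ≠ τ := by
        intro h
        have : k = τ := Fin.ext h
        subst this
        exact hi h4.symm
      omega
    · rintro ⟨h3, h4⟩
      exact ⟨by omega, h4⟩
  unfold Tow.W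
  rw [h2]

theorem b_mem {N q M d : ℕ} (T : Tow N q M d) (J1 : Finset (Fin q)) (τ : Fin M) {i : Fin q}
    (hi : i ∈ J1) : T.b J1 τ i = 0 := by
  unfold Tow.b
  rw [if_pos hi]

theorem b_other {N q M d : ℕ} (T : Tow N q M d) (J1 : Finset (Fin q)) (τ : Fin M) {i : Fin q}
    (hi : i ∉ J1) (hi' : i ≠ T.head τ) : T.b J1 τ i = T.W (τ + 1) i := by
  unfold Tow.b
  rw [if_neg hi, if_neg hi']

private theorem Lvl_b_head {N q M d : ℕ} (T : Tow N q M d) (J1 : Finset (Fin q)) (τ : Fin M)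
    (hh : T.head τ ∉ J1) :
    T.b J1 τ (T.head τ) = d - ∑ j ∈ (J1ᶜ).erase (T.head τ), T.W (τ + 1) j := by
  unfold Tow.b
  rw [if_neg hh, if_pos rfl]

private theorem Lvl_sum {N q M d : ℕ} (T : Tow N q M d) (J1 : Finset (Fin q)) (τ : Fin M) :
    ∑ j ∈ (J1ᶜ).erase (T.head τ), T.W (τ + 1) j + T.a (T.head τ) ≤ d := by
  have h1 : ∑ j ∈ (J1ᶜ).erase (T.head τ), T.W (τ + 1) j ≤
      ∑ j ∈ univ.erase (T.head τ), T.a j := by
    refine (sum_le_sum (fun j _ => Lvl_W_le T (τ + 1) j)).trans ?_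
    apply sum_le_sum_of_subset
    exact erase_subset_erase _ (subset_univ _)
  have h2 : ∑ j ∈ univ.erase (T.head τ), T.a j + T.a (T.head τ) = d := by
    rw [sum_erase_add _ _ (mem_univ _), T.a_sum]
  omega

theorem b_head_ge {N q M d : ℕ} (T : Tow N q M d) (J1 : Finset (Fin q)) (τ : Fin M)
    (hh : T.head τ ∉ J1) (τ0 : ℕ) : T.W τ0 (T.head τ) ≤ T.b J1 τ (T.head τ) := by
  rw [Lvl_b_head T J1 τ hh]
  have h1 := Lvl_sum T J1 τ
  have h2 := Lvl_W_le T τ0 (T.head τ)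
  omega

theorem b_le {N q M d : ℕ} (T : Tow N q M d) (J1 : Finset (Fin q)) (τ : Fin M) (i : Fin q) :
    T.b J1 τ i ≤ d := by
  unfold Tow.b
  split_ifs
  · omega
  · exact Nat.sub_le _ _
  · refine (Lvl_W_le T _ i).trans ?_
    exact (single_le_sum (f := T.a) (fun _ _ => Nat.zero_le _) (mem_univ i)).trans T.a_sum.le

theorem b_pos {N q M d : ℕ} (T : Tow N q M d) (J1 : Finset (Fin q)) (τ : Fin M) {i : Fin q}
    (hi : i ∉ J1) : T.b J1 τ i ≠ 0 := by
  by_cases hi' : i = T.head τ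
  · subst hi'
    have h1 := b_head_ge T J1 τ hi 0
    have h2 := W_pos T 0 (T.head τ)
    omega
  · rw [b_other T J1 τ hi hi']
    have := W_pos T (τ + 1) i
    omega

theorem b_sum {N q M d : ℕ} (T : Tow N q M d) (J1 : Finset (Fin q)) (τ : Fin M)
    (hh : T.head τ ∉ J1) : ∑ i, T.b J1 τ i = d := by
  rw [← sum_add_sum_compl J1 (T.b J1 τ)]
  have h1 : ∑ i ∈ J1, T.b J1 τ i = 0 := sum_eq_zero (fun i hi => b_mem T J1 τ hi)
  have hmem : T.head τ ∈ J1ᶜ := mem_compl.2 hh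
  have h2 : ∑ i ∈ J1ᶜ, T.b J1 τ i =
      ∑ j ∈ (J1ᶜ).erase (T.head τ), T.W (τ + 1) j + T.b J1 τ (T.head τ) := by
    rw [← sum_erase_add _ _ hmem]
    congr 1
    apply sum_congr rfl
    intro j hj
    rw [mem_erase, mem_compl] at hj
    exact b_other T J1 τ hj.2 hj.1
  rw [h1, h2, Lvl_b_head T J1 τ hh]
  have h3 := Lvl_sum T J1 τ
  omega

/-- weights already lower than the level are untouched -/
theorem min_W_b_eq {N q M d : ℕ} (T : Tow N q M d) (J1 : Finset (Fin q)) (τ : Fin M)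
    (hh : T.head τ ∉ J1) {τ0 : ℕ} (h : (τ : ℕ) + 1 ≤ τ0) {i : Fin q} (hi : i ∉ J1) :
    T.W τ0 i ≤ min (T.W τ0 i) (T.b J1 τ i) := by
  apply le_min le_rfl
  by_cases hi' : i = T.head τ
  · subst hi'
    exact b_head_ge T J1 τ hh τ0
  · rw [b_other T J1 τ hi hi']
    exact W_anti T h i

/-- the active state loses one unit -/
theorem min_W_b_ge {N q M d : ℕ} (T : Tow N q M d) (J1 : Finset (Fin q)) (τ : Fin M)
    (hh : T.head τ ∉ J1) {i : Fin q} (hi : i ∉ J1) :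
    T.W (τ + 1) i ≤ min (T.W τ i) (T.b J1 τ i) := by
  apply le_min (W_anti T (Nat.le_succ _) i)
  by_cases hi' : i = T.head τ
  · subst hi'
    exact b_head_ge T J1 τ hh _
  · rw [b_other T J1 τ hi hi']

end Pool.Agent.H97.HY
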