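import Pool.Agent.H97.HY.Inn

/-!
# Module Out: the outer induction

PROOF HINTS.  `OC T P` for all `P` with `∃ c, (∀ J, |J| < c → J ∈ P) ∧ (∀ J ∈ P, |J| ≤ c)`, by
induction on the number of sets not in `P`.  If `P` is everything: any homogeneous form (`0`).
Otherwise `J1 ∉ P` of minimal cardinality; then `hP1`, `hP2` of `inner_step` hold (`c ≤ |J1|`) and
`insert J1 P` is admissible with `c = |J1|`.  `OC T (insert J1 P)` gives `IC T P J1 M`: second part from `hwin` (`τ0 = M`).
Descend with `inner_step` to `IC T P J1 0`, which is `OC T P` (for `J = J1` second part, for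
`J ≠ J1` first part).
-/

open Finset

set_option autoImplicit false

namespace Pool.Agent.H97.HY

private theorem out_descend {N q M d : ℕ} (T : Tow N q M d) (P : Finset (Finset (Fin q)))
    (J1 : Finset (Fin q)) (hP1 : ∀ J : Finset (Fin q), J.card < J1.card → J ∈ P)
    (hP2 : ∀ J ∈ P, J.card ≤ J1.card) (hM : IC T P J1 M) :
    ∀ k, k ≤ M → IC T P J1 (M - k) := by
  intro k
  induction k with
  | zero => intro _; simpa using hM
  | succ k ih =>
    intro hk
    have h1 := ih (by omega)
    have h2 : M - k = ((⟨M - (k + 1), by omega⟩ : Fin M) : ℕ) + 1 := by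
      simp only
      omega
    rw [h2] at h1
    exact inner_step T P J1 hP1 hP2 ⟨M - (k + 1), by omega⟩ h1

private theorem out_aux {N q M d : ℕ} (T : Tow N q M d) (hwin : Winning T) :
    ∀ (n : ℕ) (P : Finset (Finset (Fin q))), (Pᶜ).card = n →
      (∃ c, (∀ J : Finset (Fin q), J.card < c → J ∈ P) ∧ ∀ J ∈ P, J.card ≤ c) → OC T P := by
  intro n
  induction n with
  | zero =>
    intro P hP _
    refine ⟨0, MvPolynomial.isHomogeneous_zero _ _ _, fun J hJ => ?_⟩
    exfalso
    rw [Finset.card_eq_zero] at hP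
    have : J ∈ Pᶜ := Finset.mem_compl.mpr hJ
    rw [hP] at this
    exact absurd this (Finset.notMem_empty J)
  | succ n ih =>
    rintro P hP ⟨c, hc1, hc2⟩
    have hne : (Pᶜ).Nonempty := by
      rw [← Finset.card_pos]
      omega
    obtain ⟨J1, hJ1, hmin⟩ := Finset.exists_min_image (Pᶜ) Finset.card hne
    rw [Finset.mem_compl] at hJ1
    have hP1 : ∀ J : Finset (Fin q), J.card < J1.card → J ∈ P := by
      intro J hJ
      by_contra h
      have := hmin J (Finset.mem_compl.mpr h)
      omega
    have hcJ : c ≤ J1.card := by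
      by_contra h
      exact hJ1 (hc1 J1 (by omega))
    have hP2 : ∀ J ∈ P, J.card ≤ J1.card := fun J hJ => (hc2 J hJ).trans hcJ
    have hins : OC T (insert J1 P) := by
      refine ih (insert J1 P) ?_ ⟨J1.card, fun J hJ => Finset.mem_insert_of_mem (hP1 J hJ), ?_⟩
      · rw [Finset.compl_insert, Finset.card_erase_of_mem (Finset.mem_compl.mpr hJ1), hP]
        omega
      · intro J hJ
        rcases Finset.mem_insert.mp hJ with rfl | h
        · exact le_rfl
        · exact hP2 J h
    have hM : IC T P J1 M := by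
      obtain ⟨s, hs, h⟩ := hins
      refine ⟨s, hs, fun J hJ hne τ0 hτ X hX => ?_, fun τ0 h1 h2 X hX => ?_⟩
      · refine h J ?_ τ0 hτ X hX
        rw [Finset.mem_insert]
        rintro (h' | h')
        · exact hne h'
        · exact hJ h'
      · obtain rfl : τ0 = M := le_antisymm h2 h1
        exact hwin s J1 X hX
    have h0 := out_descend T P J1 hP1 hP2 hM M le_rfl
    rw [Nat.sub_self] at h0
    obtain ⟨s, hs, h1, h2⟩ := h0
    refine ⟨s, hs, fun J hJ τ0 hτ X hX => ?_⟩
    by_cases hJJ : J = J1
    · subst hJJ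
      exact h2 τ0 (Nat.zero_le _) hτ X hX
    · exact h1 J hJ hJJ τ0 hτ X hX

theorem outer {N q M d : ℕ} (T : Tow N q M d) (hwin : Winning T) : OC T ∅ := by
  refine out_aux T hwin _ ∅ rfl ⟨0, fun J hJ => absurd hJ (Nat.not_lt_zero _), fun J hJ => ?_⟩
  exact absurd hJ (Finset.notMem_empty J)

end Pool.Agent.H97.HY
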