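import Pool.Agent.H97.HY.Grn
import Pool.Agent.H97.HY.Uni
import Pool.Agent.H97.HY.ConA

/-!
# Module Win: the winning lemma

PROOF HINTS.  `f` in `St T f J M X s`, `c = |J| ≥ 1`.  `card_van_le` at `f 0 ≠ 0` (chart at `0`): `c ≤ N`; `m = N - c`.  For
`z : ℂ` let `S z = {j ∈ Jᶜ | lin (H j) (f z) = 0}`; `J ∪ S z` vanishes at `f z ≠ 0`, so
`|S z| ≤ m`.  For an edge `k ∉ X` with both ends outside `J`: `tail k ∈ S z → head k ∈ S z`
(`con_edge_imp`; `d ≥ 1` because `∑ a = d`, `a ≥ 1`, `q = 4N ≥ 8`).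
`Bad = {j ∈ Jᶜ | ∃ z, j ∈ S z}` (classical filter), `O = Jᶜ \ Bad`.  If `|O| ≥ 2m+1`: `green`.
Otherwise `|Bad| ≥ 4N - c - 2m = 3N - m`, and `m ≥ 1` (if `m = 0` all `S z` are empty, `Bad` is
empty and `|O| = 4N - c = 3N ≥ 1`), so `c ≤ N-1` and `|Bad| ≥ 2N+1 ≥ u = (3N+1)/2`.  `union_chain`: `Y = T.biUnion S`
with `u ≤ |Y|`, `|Y| + 1 ≤ u + m`.  `|Jᶜ \ Y| ≥ 4N - c - u - m + 1 = 3N - u + 1 ≥ u`.  Take
`A ⊆ Y`, `B ⊆ Jᶜ \ Y` of size `u`; `hexp`: at least `N-1` edges from `A` to `B`; each is in `X`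
(otherwise its tail in some `S z` forces its head in `S z ⊆ Y`).  So `N - 1 ≤ |X| ≤ c - 1 ≤ N - 2`, contradiction as `N ≥ 2`.
-/

open Metric Set Filter Topology Finset

set_option autoImplicit false

namespace Pool.Agent.H97.HY

theorem winning {N M d : ℕ} (hN : 2 ≤ N) (T : Tow N (4 * N) M d)
    (hexp : ∀ A B : Finset (Fin (4 * N)), Disjoint A B → A.card = (3 * N + 1) / 2 →
      B.card = (3 * N + 1) / 2 →
      N - 1 ≤ (univ.filter (fun k => T.tail k ∈ A ∧ T.head k ∈ B)).card) : Winning T := by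
  classical
  intro s J X hX f hst
  have hJ1 : 1 ≤ J.card := by omega
  obtain ⟨hb, hmem, -, hedge⟩ := hst
  have hfne : ∀ z, f z ≠ 0 := by
    intro z h0
    obtain ⟨i, hi⟩ := hb.chart z
    exact hi.ne z (mem_ball_self rho_pos) (by rw [h0]; rfl)
  have hd : 1 ≤ d := by
    have h1 := T.a_ge ⟨0, by omega⟩
    have h2 : T.a ⟨0, by omega⟩ ≤ ∑ i, T.a i :=
      Finset.single_le_sum (f := T.a) (fun _ _ => Nat.zero_le _) (mem_univ _)
    rw [T.a_sum] at h2
    omega
  set S : ℂ → Finset (Fin (4 * N)) := fun z => Jᶜ.filter (fun j => lin (T.H j) (f z) = 0) with hS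
  have hSJ : ∀ z, S z ⊆ Jᶜ := fun z => Finset.filter_subset _ _
  have hcard : ∀ z, J.card + (S z).card ≤ N := by
    intro z
    have hdis : Disjoint J (S z) :=
      (disjoint_compl_right (a := J)).mono_right (hSJ z)
    have h1 := card_van_le T.gen (hfne z) (J ∪ S z) (by
      intro i hi
      rcases Finset.mem_union.mp hi with h | h
      · exact (hmem i).mp h z
      · exact (Finset.mem_filter.mp h).2)
    rwa [Finset.card_union_of_disjoint hdis] at h1
  have hJN : J.card ≤ N := le_trans (Nat.le_add_right _ _) (hcard 0)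
  obtain ⟨m, hm⟩ : ∃ m, J.card + m = N := ⟨N - J.card, by omega⟩
  have hSm : ∀ z, (S z).card ≤ m := by
    intro z
    have := hcard z
    omega
  have hclosed : ∀ z, ∀ k : Fin M, k ∉ X → T.head k ∉ J → T.tail k ∈ S z → T.head k ∈ S z := by
    intro z k hk hh ht
    have ht' := Finset.mem_filter.mp ht
    have htJ : T.tail k ∉ J := Finset.mem_compl.mp ht'.1
    have hc := hedge k k.isLt hk htJ hh
    have := con_edge_imp hd hc ht'.2
    exact Finset.mem_filter.mpr ⟨Finset.mem_compl.mpr hh, this⟩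
  set Bad : Finset (Fin (4 * N)) := Jᶜ.filter (fun j => ∃ z, j ∈ S z) with hBad
  set O : Finset (Fin (4 * N)) := Jᶜ.filter (fun j => ¬ ∃ z, j ∈ S z) with hO
  have hJc : Jᶜ.card = 4 * N - J.card := by
    rw [Finset.card_compl, Fintype.card_fin]
  have hsplit : Bad.card + O.card = Jᶜ.card :=
    Finset.card_filter_add_card_filter_not _
  have hOcard : O.card ≤ 2 * m := by
    by_contra hlt
    push Not at hlt
    refine green hb T.gen (J := J) (O := O) (fun i hi z => (hmem i).mp hi z) hm (by omega) ?_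
    intro j hj z hz
    have hj' := Finset.mem_filter.mp hj
    exact hj'.2 ⟨z, Finset.mem_filter.mpr ⟨hj'.1, hz⟩⟩
  have hBadcard : 3 * N - m ≤ Bad.card := by omega
  have hm1 : 1 ≤ m := by
    by_contra h0
    have hm0 : m = 0 := by omega
    have : Bad = ∅ := by
      apply Finset.eq_empty_of_forall_notMem
      intro j hj
      obtain ⟨-, z, hz⟩ := Finset.mem_filter.mp hj
      have h1 := hSm z
      have h2 : 0 < (S z).card := Finset.card_pos.mpr ⟨j, hz⟩
      omega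
    rw [this, Finset.card_empty] at hBadcard
    omega
  set u := (3 * N + 1) / 2 with hu
  obtain ⟨Z, hZ1, hZ2⟩ := union_chain S m u hSm Bad
    (fun x hx => (Finset.mem_filter.mp hx).2) (by omega) (by omega)
  set Y := Z.biUnion S with hY
  have hYJ : Y ⊆ Jᶜ := by
    intro x hx
    obtain ⟨z, -, hz⟩ := Finset.mem_biUnion.mp hx
    exact hSJ z hz
  have hcomp : u ≤ (Jᶜ \ Y).card := by
    rw [Finset.card_sdiff_of_subset hYJ]
    omega
  obtain ⟨A, hAY, hA⟩ := Finset.exists_subset_card_eq hZ1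
  obtain ⟨B, hBY, hB⟩ := Finset.exists_subset_card_eq hcomp
  have hdisAB : Disjoint A B := by
    rw [Finset.disjoint_left]
    intro x hxA hxB
    exact (Finset.mem_sdiff.mp (hBY hxB)).2 (hAY hxA)
  have h1 := hexp A B hdisAB hA hB
  have h2 : (univ.filter (fun k => T.tail k ∈ A ∧ T.head k ∈ B)) ⊆ X := by
    intro k hk
    obtain ⟨-, hkA, hkB⟩ := Finset.mem_filter.mp hk
    by_contra hkX
    obtain ⟨z, hzZ, hz⟩ := Finset.mem_biUnion.mp (hAY hkA)
    have hB' := Finset.mem_sdiff.mp (hBY hkB)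
    have h3 := hclosed z k hkX (Finset.mem_compl.mp hB'.1) hz
    exact hB'.2 (Finset.mem_biUnion.mpr ⟨z, hzZ, h3⟩)
  have h3 := Finset.card_le_card h2
  omega

end Pool.Agent.H97.HY
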