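import Pool.Agent.H97.HY.Gr
import Pool.Agent.H97.HY.Vdm
import Pool.Agent.H97.HY.Win
import Pool.Agent.H97.HY.Out
import Pool.Agent.H97.HY.Sta
import Pool.Agent.H97.HY.Bro
import Pool.Agent.H97.HY.Smo

/-!
# Assembly: hyperbolic hypersurfaces of linear degree
-/

open Finset

set_option autoImplicit false

namespace Pool.Agent.H97.HY

/-- the data exist -/
theorem exists_tow {N d : ℕ} (hN : 2 ≤ N) (hd : 48 * N ≤ d) :
    ∃ T : Tow N (4 * N) (44 * N) d, Winning T := by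
  obtain ⟨tail, head, hdeg, hexp⟩ := exists_graph N hN
  obtain ⟨H, hH⟩ := exists_genPos N (4 * N)
  have hpos : 0 < 4 * N := by omega
  let T : Tow N (4 * N) (44 * N) d :=
    { H := H
      tail := tail
      head := head
      a := fun i => 12 + (if i = ⟨0, hpos⟩ then d - 48 * N else 0)
      gen := hH
      a_ge := fun i => by rw [hdeg i]; omega
      a_sum := by
        rw [Finset.sum_add_distrib]
        simp only [Finset.sum_const, Finset.card_univ, Fintype.card_fin, smul_eq_mul,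
          Finset.sum_ite_eq', Finset.mem_univ, if_true]
        omega }
  exact ⟨T, winning hN T hexp⟩

theorem main {N d : ℕ} (hN : 2 ≤ N) (hd : 48 * N ≤ d) :
    ∃ F₀ : MvPolynomial (Fin (N + 1)) ℂ, F₀.IsHomogeneous d ∧
      (∀ x : Fin (N + 1) → ℂ, x ≠ 0 → MvPolynomial.eval x F₀ = 0 →
        ∃ i, MvPolynomial.eval x (MvPolynomial.pderiv i F₀) ≠ 0) ∧
      ∃ ε : ℝ, 0 < ε ∧ ∀ F : MvPolynomial (Fin (N + 1)) ℂ, F.IsHomogeneous d →
        (∀ m, ‖F.coeff m - F₀.coeff m‖ < ε) →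
        ∀ g : ℂ → (Fin (N + 1) → ℂ), Differentiable ℂ g → (∀ z, g z ≠ 0) →
          (∀ z, MvPolynomial.eval (g z) F = 0) → ∀ z, ∃ c : ℂ, g z = c • g 0 := by
  obtain ⟨T, hT⟩ := exists_tow hN hd
  obtain ⟨F, hF, hh⟩ := start T (outer T hT)
  obtain ⟨ε, hε, hopen⟩ := open_not_hits hF hh
  obtain ⟨F₀, hF₀, hclose, hsm⟩ := exists_smooth_near (by omega) hF (half_pos hε)
  refine ⟨F₀, hF₀, hsm, ε / 2, half_pos hε, ?_⟩
  intro G hG hGc g hg hne h0
  refine brody hG (hopen G hG ?_) g hg hne h0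
  intro m
  have h1 := hGc m
  have h2 := hclose m
  calc ‖G.coeff m - F.coeff m‖ = ‖(G.coeff m - F₀.coeff m) + (F₀.coeff m - F.coeff m)‖ := by
        ring_nf
    _ ≤ ‖G.coeff m - F₀.coeff m‖ + ‖F₀.coeff m - F.coeff m‖ := norm_add_le _ _
    _ < ε := by linarith

end Pool.Agent.H97.HY
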