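import Pool.Agent.H97.HY.Lvl
import Pool.Agent.H97.HY.ConL
import Pool.Agent.H97.HY.LimV
import Pool.Agent.H97.HY.Edge

/-!
# Module Tra: the transition lemma

PROOF HINTS.  `exists_limit_bcurve`: limit `g`; `J' = {i | ∀ z, lin (H i) (g z) = 0}` (classical filter)
contains `J1` by `IsLim.lin_eq_zero`.  For `U`-almost all `k`: `con_step` (with `A = J1ᶜ`,
`b = T.b J1 τ` zero on `J1`, `b_mem`) gives `Con (f k) J1ᶜ (min (W τ0) b) s'`; `con_limit_const` gives
`Con g J'ᶜ (min (W τ0) b) s'`, and `Con.mono` with `min_W_b_eq` / `min_W_b_ge` the weights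
`W τ0` (if `τ < τ0`) / `W (τ+1)` (if `τ0 = τ`).  Old edges: `con_limit_const` with `A = {tail k}`, `B = {tail k}` for
`tail k ∉ J'`.  If `τ0 = τ` and `J' = J1`: `con_limit` with `s = prodP H b`, `δ`, `s'` gives
`Con g J1ᶜ (W τ) (prodP H b)`, and `new_edge` (`t = tail τ`, `y = head τ`; `b_other`, `W_succ_ne`,
`W_succ_tail`, `b_head_ge`, `b_le`) gives the edge `τ`.  (`b` at `tail τ`: `b_other`, as `tail ≠ head`.)
-/

open Metric Set Filter Topology Finset

set_option autoImplicit false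

namespace Pool.Agent.H97.HY

private lemma tra_min_id {N q M d : ℕ} (T : Tow N q M d) (J1 : Finset (Fin q)) (τ : Fin M)
    {i : Fin q} (hi : i ∉ J1ᶜ) : T.b J1 τ i = 0 :=
  b_mem T J1 τ (by simpa using hi)

theorem transition {N q M d : ℕ} (T : Tow N q M d) (J1 : Finset (Fin q)) (τ : Fin M)
    (ht : T.tail τ ∉ J1) (hh : T.head τ ∉ J1) (hth : T.tail τ ≠ T.head τ)
    (s' : MvPolynomial (Fin (N + 1)) ℂ) (X : Finset (Fin M)) (τ0 : ℕ) (hτ0 : (τ : ℕ) ≤ τ0)
    (U : Ultrafilter ℕ) (δ : ℕ → ℂ) (hδ : Tendsto δ (U : Filter ℕ) (𝓝 0)) (hδ0 : ∀ k, δ k ≠ 0)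
    (f : ℕ → ℂ → Fin (N + 1) → ℂ)
    (hst : ∀ᶠ k in (U : Filter ℕ),
      St T (f k) J1 τ0 X (prodP T.H (T.b J1 τ) + MvPolynomial.C (δ k) * s')) :
    ∃ (g : ℂ → Fin (N + 1) → ℂ) (J' : Finset (Fin q)), J1 ⊆ J' ∧
      (((τ : ℕ) < τ0 ∧ St T g J' τ0 X s') ∨
        (τ0 = τ ∧ J' ≠ J1 ∧ St T g J' (τ + 1) (insert τ X) s') ∨
        (τ0 = τ ∧ J' = J1 ∧ St T g J1 (τ + 1) X s')) := by
  classical
  obtain ⟨g, hg⟩ := exists_limit_bcurve U f (hst.mono (fun _ h => h.bcurve))
  have hchU : ∀ z0, ∀ᶠ k in (U : Filter ℕ), ∃ i, Chart (f k) z0 i :=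
    fun z0 => hst.mono (fun _ h => h.bcurve.chart z0)
  set J' : Finset (Fin q) := Finset.univ.filter (fun i => ∀ z, lin (T.H i) (g z) = 0) with hJ'
  have hmem : ∀ i, i ∈ J' ↔ ∀ z, lin (T.H i) (g z) = 0 := by
    intro i
    simp [hJ']
  have hsub : J1 ⊆ J' := by
    intro i hi
    rw [hmem]
    exact hg.lin_eq_zero hchU (T.H i) (fun z => hst.mono (fun _ h => (h.mem_iff i).mp hi z))
  have hnv : ∀ j, j ∉ J' → ∃ z, lin (T.H j) (g z) ≠ 0 := by
    intro j hj
    rw [hmem] at hj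
    push Not at hj
    exact hj
  have hcompl : J'ᶜ ⊆ J1ᶜ := Finset.compl_subset_compl.mpr hsub
  -- the constraint for `s'`
  have hcon1 : Con T.H g J'ᶜ (fun i => min (T.W τ0 i) (T.b J1 τ i)) s' := by
    refine con_limit_const hg T.H _ s' (A := J1ᶜ) ?_ hcompl
      (fun j hj => hnv j (by simpa using hj))
    filter_upwards [hst] with k hk
    exact con_step (hδ0 k) (fun i hi => tra_min_id T J1 τ hi) hk.con
  -- old edges
  have hedge : ∀ k : Fin M, (k : ℕ) < τ0 → k ∉ X → T.tail k ∉ J' → T.head k ∉ J' →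
      Con T.H g {T.tail k} (fun _ => 1) (linP (T.H (T.head k)) ^ d) := by
    intro k hk hkX hkt hkh
    refine con_limit_const hg T.H _ _ (A := {T.tail k}) ?_ (Finset.Subset.refl _) ?_
    · filter_upwards [hst] with l hl
      exact hl.edge k hk hkX (fun h => hkt (hsub h)) (fun h => hkh (hsub h))
    · intro j hj
      rw [Finset.mem_singleton] at hj
      rw [hj]
      exact hnv _ hkt
  refine ⟨g, J', hsub, ?_⟩
  rcases Nat.lt_or_ge (τ : ℕ) τ0 with hlt | hge
  · left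
    refine ⟨hlt, hg.bcurve, hmem, ?_, hedge⟩
    refine hcon1.mono (Finset.Subset.refl _) (fun i hi => ?_)
    have hiJ : i ∉ J1 := fun h => (by simpa using hi : i ∉ J') (hsub h)
    exact min_W_b_eq T J1 τ hh hlt hiJ
  · right
    have heq : τ0 = τ := le_antisymm hge hτ0
    subst heq
    have hcon2 : Con T.H g J'ᶜ (T.W ((τ : ℕ) + 1)) s' := by
      refine hcon1.mono (Finset.Subset.refl _) (fun i hi => ?_)
      have hiJ : i ∉ J1 := fun h => (by simpa using hi : i ∉ J') (hsub h)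
      exact min_W_b_ge T J1 τ hh hiJ
    by_cases hJJ : J' = J1
    · right
      refine ⟨rfl, hJJ, ?_⟩
      have hcon3 : Con T.H g J1ᶜ (T.W (τ : ℕ)) (prodP T.H (T.b J1 τ)) := by
        refine con_limit hg T.H _ _ s' (A := J1ᶜ) hδ (hst.mono (fun _ h => h.con))
          (Finset.Subset.refl _) (fun j hj => hnv j ?_)
        rw [hJJ]
        simpa using hj
      have hnew : Con T.H g {T.tail τ} (fun _ => 1) (linP (T.H (T.head τ)) ^ d) := by
        refine new_edge hg.bcurve.chart (A := J1ᶜ) (fun j hj => hnv j ?_) (by simpa using ht)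
          (by simpa using hh) hth (fun i hi => tra_min_id T J1 τ hi) ?_ ?_ ?_ ?_ hcon3
        · rw [hJJ]
          simpa using hj
        · intro i hi hit hih
          rw [b_other T J1 τ (by simpa using hi) hih, W_succ_ne T τ hit]
        · rw [b_other T J1 τ ht hth, W_succ_tail]
        · exact b_head_ge T J1 τ hh τ
        · exact (b_le T J1 τ _).trans (Nat.le_add_right _ _)
      refine ⟨hg.bcurve, ?_, ?_, ?_⟩
      · rw [← hJJ]
        exact hmem
      · rw [← hJJ]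
        exact hcon2
      · intro k hk hkX hkt hkh
        rcases Nat.lt_succ_iff_lt_or_eq.mp hk with hk' | hk'
        · exact hedge k hk' hkX (by rw [hJJ]; exact hkt) (by rw [hJJ]; exact hkh)
        · have hkτ : k = τ := Fin.ext hk'
          rw [hkτ]
          exact hnew
    · left
      refine ⟨rfl, hJJ, hg.bcurve, hmem, hcon2, ?_⟩
      intro k hk hkX hkt hkh
      rw [Finset.mem_insert, not_or] at hkX
      rcases Nat.lt_succ_iff_lt_or_eq.mp hk with hk' | hk'
      · exact hedge k hk' hkX.2 hkt hkh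
      · exact absurd (Fin.ext hk') hkX.1

end Pool.Agent.H97.HY
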